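import Pool.Agent.H.MP_3e6494_nt.helper15.Str
import Pool.Agent.H.MP_3e6494_nt.T1

/-!
The relation bound for all subgroups of index up to `exp ((log q) ^ (1 - ε))`.
-/

set_option autoImplicit false
set_option linter.unusedVariables false

open Finset Filter Topology

namespace Pool.Agent.H.MP_3e6494_nt.Str

theorem pow_Omega_le (C n : ℕ) (hn : n ≠ 0) (h : ∀ p ∈ n.primeFactors, C ≤ p) :
    C ^ (ArithmeticFunction.cardFactors n) ≤ n := by
  induction n using induction_on_primes with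
  | zero => exact absurd rfl hn
  | one => simp
  | prime_mul p a hp ih =>
    have ha : a ≠ 0 := by
      rintro rfl
      exact hn (mul_zero p)
    rw [ArithmeticFunction.cardFactors_mul hp.ne_zero ha,
      ArithmeticFunction.cardFactors_apply_prime hp, pow_add, pow_one]
    have h1 : C ≤ p := h p (by
      rw [Nat.mem_primeFactors]
      exact ⟨hp, dvd_mul_right p a, hn⟩)
    exact Nat.mul_le_mul h1 (ih ha fun r hr => h r (Nat.primeFactors_mono (dvd_mul_left a p) hn hr))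

/-- numerical facts about `ℓ = log q` -/
structure PreR (e c : ℝ) (C1 R : ℕ) (ℓ : ℝ) : Prop where
  big : 16 ≤ ℓ
  lam : (R + 1) * ℓ ^ (-e) < Real.log 2
  rho : 2 ≤ ℓ ^ (3 * e)
  c8 : 8 ≤ ℓ ^ e
  cC1 : 4 * ((C1 : ℝ) + 1) ≤ ℓ ^ (1 - e)
  logl : Real.log ℓ ≤ (c / 8) * ℓ ^ e
  c64 : 64 ≤ c * ℓ ^ (4 * e)
  l32 : 32 ≤ ℓ ^ (4 * e)
  A : ℓ ^ (1 - 4 * e) + c + (Real.log 128 + 2 * Real.log ℓ) ≤ c / 8 * ℓ
  B : Real.log 128 + 2 * Real.log ℓ ≤ Real.log 2 / 32 * ℓ ^ (3 * e)
  C : 2 * c + (Real.log 128 + 2 * Real.log ℓ) ≤ 3 * c / 64 * ℓ ^ (4 * e)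

theorem ev_PreR {e c : ℝ} (he : 0 < e) (he1 : 4 * e < 1) (hc : 0 < c) (C1 R : ℕ) :
    ∀ᶠ ℓ : ℝ in atTop, PreR e c C1 R ℓ := by
  have hl2 : 0 < Real.log 2 := Real.log_pos (by norm_num)
  filter_upwards [eventually_ge_atTop (16 : ℝ), ev_pow ((R + 2) / Real.log 2) he,
    ev_pow 2 (show 0 < 3 * e by positivity), ev_pow 8 he,
    ev_pow (4 * ((C1 : ℝ) + 1)) (show 0 < 1 - e by linarith), ev_log (show 0 < c / 8 by positivity) he,
    ev_pow (64 / c) (show 0 < 4 * e by positivity), ev_pow 32 (show 0 < 4 * e by positivity),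
    ev_pow (24 / c) (show 0 < 4 * e by positivity), ev_log (show 0 < c / 96 by positivity) one_pos,
    eventually_ge_atTop ((c + Real.log 128) * (24 / c)),
    ev_pow (Real.log 128 * (64 / Real.log 2)) (show 0 < 3 * e by positivity),
    ev_log (show 0 < Real.log 2 / 128 by positivity) (show 0 < 3 * e by positivity),
    ev_pow ((2 * c + Real.log 128) * (128 / (3 * c))) (show 0 < 4 * e by positivity),
    ev_log (show 0 < 3 * c / 256 by positivity) (show 0 < 4 * e by positivity)] with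
    ℓ h1 h2 h3 h4 h5 h6 h7 h8 h9 h10 h11 h12 h13 h14 h15
  have hℓ : 0 < ℓ := by linarith
  refine ⟨h1, ?_, h3, h4, h5, h6, ?_, h8, ?_, ?_, ?_⟩
  · rw [Real.rpow_neg hℓ.le, ← div_eq_mul_inv, div_lt_iff₀ (by positivity)]
    rw [div_le_iff₀ hl2] at h2
    linarith
  · rw [div_le_iff₀ hc] at h7
    linarith
  · -- A
    have a1 : ℓ ^ (1 - 4 * e) ≤ c / 24 * ℓ := by
      have : ℓ = ℓ ^ (1 - 4 * e) * ℓ ^ (4 * e) := by
        rw [← Real.rpow_add hℓ]
        norm_num
      have h9' : 24 ≤ c * ℓ ^ (4 * e) := by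
        rw [div_le_iff₀ hc] at h9
        linarith
      have hp : 0 < ℓ ^ (1 - 4 * e) := by positivity
      calc ℓ ^ (1 - 4 * e) = (1 / 24) * (24 * ℓ ^ (1 - 4 * e)) := by ring
        _ ≤ (1 / 24) * ((c * ℓ ^ (4 * e)) * ℓ ^ (1 - 4 * e)) := by gcongr
        _ = c / 24 * (ℓ ^ (1 - 4 * e) * ℓ ^ (4 * e)) := by ring
        _ = c / 24 * ℓ := by rw [← this]
    have a2 : c + Real.log 128 ≤ c / 24 * ℓ := by
      calc c + Real.log 128 = c / 24 * ((c + Real.log 128) * (24 / c)) := by field_simp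
        _ ≤ c / 24 * ℓ := by gcongr
    rw [Real.rpow_one] at h10
    have a3 := mul_pos hc hℓ
    linarith
  · have b1 : Real.log 128 ≤ Real.log 2 / 64 * ℓ ^ (3 * e) := by
      calc Real.log 128 = Real.log 2 / 64 * (Real.log 128 * (64 / Real.log 2)) := by field_simp
        _ ≤ _ := by gcongr
    linarith
  · have b1 : 2 * c + Real.log 128 ≤ 3 * c / 128 * ℓ ^ (4 * e) := by
      calc 2 * c + Real.log 128 = 3 * c / 128 * ((2 * c + Real.log 128) * (128 / (3 * c))) := by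
            field_simp
        _ ≤ _ := by gcongr
    linarith

section

variable {q : ℕ} [hq : Fact q.Prime]

/-- bound for one class of relations -/
theorem fiber_bound {e c : ℝ} {C1 R : ℕ} (he : 0 < e) (he1 : 4 * e < 1) (hc : 0 < c)
    (g : PreR e c C1 R (Real.log q)) (hC1 : (8 : ℝ) ≤ (C1 : ℝ) ^ c)
    (K : Subgroup (ZMod q)ˣ) (hK : Real.log (Nat.card K) ≤ Real.log q ^ (1 - 4 * e))
    (E : Finset ℕ) (hEC : ∀ p : ℕ, p.Prime → p ≤ C1 → p ∈ E)
    (hstr : ∀ (F : Finset (ℕ × ℕ)) (t Z : ℕ), 1 ≤ t → (∀ X ∈ F, 0 < X.1 ∧ 0 < X.2) →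
        (∀ X ∈ F, Nat.Coprime X.1 X.2) → (∀ X ∈ F, Rel K X.1 X.2) →
        (∀ X ∈ F, ArithmeticFunction.cardFactors X.1 + ArithmeticFunction.cardFactors X.2 = t) →
        (∀ X ∈ F, X.1 ≤ Z ∧ X.2 ≤ Z) → (∀ X ∈ F, ∀ p ∈ E, p ∉ pr X) →
        Real.log Z ≤ t * Real.log q ^ e → 8 * Real.log Z ≤ Real.log q → 1 ≤ Z → F.card < 4 ^ t)
    (F : Finset (ℕ × ℕ)) (s t : ℕ) (hFK : F.card ≤ Nat.card K)
    (hs : Real.log q ^ (4 * e) / 16 - 1 ≤ s)
    (hpos : ∀ X ∈ F, 0 < X.1 ∧ 0 < X.2)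
    (hcop : ∀ X ∈ F, Nat.Coprime X.1 X.2) (hrel : ∀ X ∈ F, Rel K X.1 X.2)
    (hΩ : ∀ X ∈ F, ArithmeticFunction.cardFactors X.1 + ArithmeticFunction.cardFactors X.2 = t)
    (hle : ∀ X ∈ F, (X.1 : ℝ) ≤ Real.exp s ∧ (X.2 : ℝ) ≤ Real.exp s)
    (hge : ∀ X ∈ F, Real.exp (s - 1) ≤ (X.1 : ℝ) * X.2)
    (hE : ∀ X ∈ F, ∀ p ∈ E, p ∉ pr X) :
    ∑ X ∈ F, ((X.1 : ℝ) * X.2) ^ (-c) ≤ 1 / (128 * Real.log q ^ 2) := by
  set ℓ := Real.log q with hℓdef
  have hℓ16 := g.big
  have hℓ : 0 < ℓ := by linarith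
  have hl2 : 0 < Real.log 2 := Real.log_pos (by norm_num)
  have hKpos : 0 < Nat.card K := Nat.card_pos
  have hK0 : (0 : ℝ) < Nat.card K := by exact_mod_cast hKpos
  have hd0 : 0 ≤ Real.log (Nat.card K) := Real.log_natCast_nonneg _
  have hs1 : (1 : ℝ) ≤ s := by
    have := g.l32
    linarith
  have hsnat : 1 ≤ s := by exact_mod_cast hs1
  -- target in exponential form
  have htarget : ∀ y : ℝ, y + (Real.log 128 + 2 * Real.log ℓ) ≤ 0 →
      Real.exp y ≤ 1 / (128 * ℓ ^ 2) := by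
    intro y hy
    rw [le_div_iff₀ (by positivity)]
    have h1 : Real.exp (Real.log 128 + 2 * Real.log ℓ) = 128 * ℓ ^ 2 := by
      rw [Real.exp_add, Real.exp_log (by norm_num), two_mul, Real.exp_add, Real.exp_log hℓ]
      ring
    rw [← h1, ← Real.exp_add]
    exact Real.exp_le_one_iff.mpr hy
  -- weight bound by size
  have hw1 : ∀ X ∈ F, ((X.1 : ℝ) * X.2) ^ (-c) ≤ Real.exp (-(c * (s - 1))) := by
    intro X hX
    calc ((X.1 : ℝ) * X.2) ^ (-c) ≤ (Real.exp (s - 1)) ^ (-c) :=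
          Real.rpow_le_rpow_of_nonpos (Real.exp_pos _) (hge X hX) (by linarith)
      _ = Real.exp (-(c * (s - 1))) := by
          rw [← Real.exp_mul]
          congr 1
          ring
  have hsum1 : ∑ X ∈ F, ((X.1 : ℝ) * X.2) ^ (-c) ≤ F.card * Real.exp (-(c * (s - 1))) := by
    rw [← nsmul_eq_mul]
    exact Finset.sum_le_card_nsmul _ _ _ hw1
  by_cases hA : ℓ < 8 * s
  · -- large relations
    refine hsum1.trans ?_
    have h1 : (F.card : ℝ) ≤ Real.exp (ℓ ^ (1 - 4 * e)) := by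
      calc (F.card : ℝ) ≤ Nat.card K := by exact_mod_cast hFK
        _ = Real.exp (Real.log (Nat.card K)) := (Real.exp_log hK0).symm
        _ ≤ _ := Real.exp_le_exp.mpr hK
    calc (F.card : ℝ) * Real.exp (-(c * (s - 1))) ≤
        Real.exp (ℓ ^ (1 - 4 * e)) * Real.exp (-(c * (s - 1))) := by gcongr
      _ = Real.exp (ℓ ^ (1 - 4 * e) + -(c * (s - 1))) := (Real.exp_add _ _).symm
      _ ≤ _ := by
          apply htarget
          have := g.A
          nlinarith
  push Not at hA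
  set Z : ℕ := ⌊Real.exp s⌋₊ with hZ
  have hZle : (Z : ℝ) ≤ Real.exp s := Nat.floor_le (Real.exp_pos _).le
  have hZ1 : 1 ≤ Z := by
    apply Nat.le_floor
    rw [Nat.cast_one]
    exact Real.one_le_exp (by linarith)
  have hZ0 : (0 : ℝ) < Z := by exact_mod_cast hZ1
  have hlZ : Real.log Z ≤ s := by
    rw [Real.log_le_iff_le_exp hZ0]
    exact hZle
  have hFZ : ∀ X ∈ F, X.1 ≤ Z ∧ X.2 ≤ Z := fun X hX =>
    ⟨Nat.le_floor (hle X hX).1, Nat.le_floor (hle X hX).2⟩
  by_cases hB : (s : ℝ) ≤ t * ℓ ^ e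
  · -- many prime factors
    have ht1 : 1 ≤ t := by
      by_contra h
      have : t = 0 := by omega
      subst this
      simp at hB
      linarith
    have hcard := hstr F t Z ht1 hpos hcop hrel hΩ hFZ hE (hlZ.trans hB) (by linarith) hZ1
    have hw2 : ∀ X ∈ F, ((X.1 : ℝ) * X.2) ^ (-c) ≤ (1 / 8 : ℝ) ^ t := by
      intro X hX
      have h1 := hpos X hX
      have h2 : C1 ^ t ≤ X.1 * X.2 := by
        rw [← hΩ X hX, pow_add]
        apply Nat.mul_le_mul
        · apply pow_Omega_le _ _ h1.1.ne'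
          intro p hp
          by_contra hlt
          push Not at hlt
          exact hE X hX p (hEC p (Nat.prime_of_mem_primeFactors hp) hlt.le)
            (Finset.mem_union_left _ hp)
        · apply pow_Omega_le _ _ h1.2.ne'
          intro p hp
          by_contra hlt
          push Not at hlt
          exact hE X hX p (hEC p (Nat.prime_of_mem_primeFactors hp) hlt.le)
            (Finset.mem_union_right _ hp)
      have hC0 : (0 : ℝ) < C1 := by
        rcases Nat.eq_zero_or_pos C1 with h | h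
        · rw [h, Nat.cast_zero, Real.zero_rpow hc.ne'] at hC1
          linarith
        · exact_mod_cast h
      have h3 : ((C1 : ℝ) ^ t) ≤ (X.1 : ℝ) * X.2 := by exact_mod_cast h2
      calc ((X.1 : ℝ) * X.2) ^ (-c) ≤ ((C1 : ℝ) ^ t) ^ (-c) :=
            Real.rpow_le_rpow_of_nonpos (by positivity) h3 (by linarith)
        _ = (((C1 : ℝ) ^ c) ^ t)⁻¹ := by
            rw [Real.rpow_neg (by positivity), ← Real.rpow_natCast, ← Real.rpow_mul hC0.le,
              ← Real.rpow_natCast, ← Real.rpow_mul hC0.le, mul_comm]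
        _ ≤ ((8 : ℝ) ^ t)⁻¹ := by
            apply inv_anti₀ (by positivity)
            exact pow_le_pow_left₀ (by norm_num) hC1 t
        _ = (1 / 8 : ℝ) ^ t := by
            rw [one_div, inv_pow]
    have hsum2 : ∑ X ∈ F, ((X.1 : ℝ) * X.2) ^ (-c) ≤ F.card * (1 / 8 : ℝ) ^ t := by
      rw [← nsmul_eq_mul]
      exact Finset.sum_le_card_nsmul _ _ _ hw2
    have hcard' : (F.card : ℝ) ≤ (4 : ℝ) ^ t := by exact_mod_cast hcard.le
    refine hsum2.trans ?_
    calc (F.card : ℝ) * (1 / 8 : ℝ) ^ t ≤ (4 : ℝ) ^ t * (1 / 8 : ℝ) ^ t := by gcongr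
      _ = (1 / 2 : ℝ) ^ t := by rw [← mul_pow]; norm_num
      _ = Real.exp (-(t * Real.log 2)) := by
          rw [Real.exp_neg, Real.exp_nat_mul, Real.exp_log (by norm_num), one_div, inv_pow]
      _ ≤ _ := by
          apply htarget
          have h1 := g.B
          have h2 : ℓ ^ (3 * e) / 32 ≤ t := by
            have h3 : ℓ ^ (4 * e) = ℓ ^ (3 * e) * ℓ ^ e := by
              rw [← Real.rpow_add hℓ]
              congr 1
              ring
            have h4 : ℓ ^ (4 * e) / 32 ≤ s := by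
              have := g.l32
              linarith
            have h5 : 0 < ℓ ^ e := by positivity
            rw [h3] at h4
            have h6 : ℓ ^ (3 * e) / 32 * ℓ ^ e ≤ t * ℓ ^ e := by
              calc ℓ ^ (3 * e) / 32 * ℓ ^ e = ℓ ^ (3 * e) * ℓ ^ e / 32 := by ring
                _ ≤ s := h4
                _ ≤ _ := hB
            exact le_of_mul_le_mul_right h6 h5
          have h7 : Real.log 2 / 32 * ℓ ^ (3 * e) ≤ t * Real.log 2 := by
            calc Real.log 2 / 32 * ℓ ^ (3 * e) = (ℓ ^ (3 * e) / 32) * Real.log 2 := by ring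
              _ ≤ _ := by gcongr
          linarith
  · -- few prime factors
    push Not at hB
    set j : ℕ := ⌊ℓ / (4 * s)⌋₊ with hj
    have hs0 : (0 : ℝ) < s := by linarith
    have hy2 : 2 ≤ ℓ / (4 * s) := by
      rw [le_div_iff₀ (by positivity)]
      linarith
    have hj2 : 2 ≤ j := Nat.le_floor (by exact_mod_cast hy2)
    have hjle : (j : ℝ) ≤ ℓ / (4 * s) := Nat.floor_le (by positivity)
    have hjge : ℓ / (8 * s) ≤ j := by
      have h1 : ℓ / (4 * s) < j + 1 := Nat.lt_floor_add_one _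
      have h2 : ℓ / (8 * s) = ℓ / (4 * s) / 2 := by
        field_simp
        ring
      have h3 : (2 : ℝ) ≤ j := by exact_mod_cast hj2
      rw [h2]
      linarith
    have hj0 : (0 : ℝ) < j := by
      have : 0 < j := by omega
      exact_mod_cast this
    have hq0 : (0 : ℝ) < q := by exact_mod_cast hq.out.pos
    have hZq : Z ^ (2 * j) < q := by
      have h1 : Real.log ((Z : ℝ) ^ (2 * j)) < Real.log q := by
        rw [Real.log_pow]
        push_cast
        have h2 : 2 * (j : ℝ) * Real.log Z ≤ 2 * (ℓ / (4 * s)) * s := by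
          gcongr
        have h3 : 2 * (ℓ / (4 * s)) * s = ℓ / 2 := by
          field_simp
          norm_num
        rw [h3] at h2
        linarith
      have h5 := (Real.log_lt_log_iff (by positivity) hq0).mp h1
      exact_mod_cast h5
    have hcount := count_rel K F t Z j (by omega) hpos hcop hrel hΩ hFZ hZq
    refine hsum1.trans ?_
    rcases Nat.eq_zero_or_pos F.card with hF0 | hFpos
    · rw [hF0]
      simp only [Nat.cast_zero, zero_mul]
      positivity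
    have hF0 : (0 : ℝ) < F.card := by exact_mod_cast hFpos
    have hlogF : Real.log F.card ≤ c * s / 4 := by
      have h1 : (F.card : ℝ) ^ j ≤ ((2 : ℝ) ^ t * (j : ℝ) ^ t) ^ j * Nat.card K := by
        exact_mod_cast hcount
      have h2 := Real.log_le_log (by positivity) h1
      rw [Real.log_pow, Real.log_mul (by positivity) hK0.ne', Real.log_pow, ← mul_pow,
        Real.log_pow] at h2
      have h3 : Real.log (2 * j) ≤ Real.log ℓ := by
        apply Real.log_le_log (by positivity)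
        have : ℓ / (4 * s) ≤ ℓ / 4 := by
          apply div_le_div_of_nonneg_left hℓ.le (by norm_num)
          linarith
        linarith
      have hlℓ : 0 ≤ Real.log ℓ := Real.log_nonneg (by linarith)
      have ht0 : (0 : ℝ) ≤ t := Nat.cast_nonneg t
      have h4 : (t : ℝ) * Real.log (2 * j) ≤ c * s / 8 := by
        calc (t : ℝ) * Real.log (2 * j) ≤ t * Real.log ℓ := by gcongr
          _ ≤ t * (c / 8 * ℓ ^ e) := by
              gcongr
              exact g.logl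
          _ = (c / 8) * (t * ℓ ^ e) := by ring
          _ ≤ (c / 8) * s := by gcongr
          _ = c * s / 8 := by ring
      have h5 : Real.log (Nat.card K) ≤ (c * s / 8) * j := by
        calc Real.log (Nat.card K) ≤ ℓ ^ (1 - 4 * e) := hK
          _ = ℓ * (ℓ ^ (4 * e))⁻¹ := by
              rw [← Real.rpow_neg hℓ.le, sub_eq_add_neg, Real.rpow_add hℓ, Real.rpow_one]
          _ ≤ ℓ * (c / 64) := by
              gcongr
              rw [inv_le_comm₀ (by positivity) (by positivity), inv_div]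
              rw [div_le_iff₀ hc]
              linarith [g.c64]
          _ = (c * s / 8) * (ℓ / (8 * s)) := by
              field_simp
              norm_num
          _ ≤ _ := by gcongr
      have h6 : (j : ℝ) * Real.log F.card ≤ j * (c * s / 4) := by
        calc (j : ℝ) * Real.log F.card ≤ j * (t * Real.log (2 * j)) + Real.log (Nat.card K) := h2
          _ ≤ j * (c * s / 8) + (c * s / 8) * j := by gcongr
          _ = _ := by ring
      exact le_of_mul_le_mul_left h6 hj0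
    calc (F.card : ℝ) * Real.exp (-(c * (s - 1))) ≤
        Real.exp (c * s / 4) * Real.exp (-(c * (s - 1))) := by
          gcongr
          rw [← Real.log_le_iff_le_exp hF0]
          exact hlogF
      _ = Real.exp (c * s / 4 + -(c * (s - 1))) := (Real.exp_add _ _).symm
      _ ≤ _ := by
          apply htarget
          have h1 := g.C
          have h2 : c * (ℓ ^ (4 * e) / 16 - 1) ≤ c * s := by gcongr
          linarith

/-- the set of exceptional primes -/
theorem exists_set {e c : ℝ} {C1 R : ℕ} (he : 0 < e) (he1 : 4 * e < 1) (hR : 1 ≤ e * R)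
    (g : PreR e c C1 R (Real.log q)) (K : Subgroup (ZMod q)ˣ)
    (hK : Real.log (Nat.card K) ≤ Real.log q ^ (1 - 4 * e)) :
    ∃ E : Finset ℕ, (∀ p ∈ E, p.Prime ∧ p < q) ∧ (E.card : ℝ) ≤ Real.log q ^ (1 - e) ∧
      (∀ p : ℕ, p.Prime → p ≤ C1 → p ∈ E) ∧
      (∀ X : ℕ × ℕ, 0 < X.1 → 0 < X.2 → Nat.Coprime X.1 X.2 → ¬ (X.1 = 1 ∧ X.2 = 1) →
        Rel K X.1 X.2 → (∀ p ∈ E, ¬ p ∣ X.1 ∧ ¬ p ∣ X.2) →
        Real.log q ^ (4 * e) / 16 - 1 ≤ Real.log (max X.1 X.2 : ℕ)) ∧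
      (∀ (F : Finset (ℕ × ℕ)) (t Z : ℕ), 1 ≤ t → (∀ X ∈ F, 0 < X.1 ∧ 0 < X.2) →
        (∀ X ∈ F, Nat.Coprime X.1 X.2) → (∀ X ∈ F, Rel K X.1 X.2) →
        (∀ X ∈ F, ArithmeticFunction.cardFactors X.1 + ArithmeticFunction.cardFactors X.2 = t) →
        (∀ X ∈ F, X.1 ≤ Z ∧ X.2 ≤ Z) → (∀ X ∈ F, ∀ p ∈ E, p ∉ pr X) →
        Real.log Z ≤ t * Real.log q ^ e → 8 * Real.log Z ≤ Real.log q → 1 ≤ Z →
        F.card < 4 ^ t) := by
  classical
  set ℓ := Real.log q with hℓdef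
  have hℓ16 := g.big
  have hℓ : 0 < ℓ := by linarith
  have hℓ1 : 1 ≤ ℓ := by linarith
  have hl2 := Real.log_two_gt_d9
  have hq0 : (0 : ℝ) < q := by exact_mod_cast hq.out.pos
  have hKpos : 0 < Nat.card K := Nat.card_pos
  have hd0 : 0 ≤ Real.log (Nat.card K) := Real.log_natCast_nonneg _
  -- the hitting set
  set x : ℝ := ℓ ^ (4 * e) / 16 with hx
  have hx0 : 0 < x := by positivity
  set U : ℕ := ⌊Real.exp x⌋₊ with hU
  have hU1 : 1 ≤ U := by
    apply Nat.le_floor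
    rw [Nat.cast_one]
    exact Real.one_le_exp hx0.le
  have hU0 : (0 : ℝ) < U := by exact_mod_cast hU1
  have hUle : (U : ℝ) ≤ Real.exp x := Nat.floor_le (Real.exp_pos _).le
  have hlogU : Real.log U ≤ x := by
    rw [Real.log_le_iff_le_exp hU0]
    exact hUle
  have hlogU2 : x - 1 ≤ Real.log U := by
    have h1 : Real.exp x < U + 1 := Nat.lt_floor_add_one _
    have h2 : (U : ℝ) + 1 ≤ 2 * U := by
      have : (1 : ℝ) ≤ U := by exact_mod_cast hU1
      linarith
    have h3 := Real.log_le_log (Real.exp_pos _) (h1.le.trans h2)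
    rw [Real.log_exp, Real.log_mul (by norm_num) hU0.ne'] at h3
    have := Real.log_two_lt_d9
    linarith
  set ρ' := Nat.log 2 (Nat.card K) with hρ'
  have hKρ : Nat.card K < 2 ^ (ρ' + 1) := Nat.lt_pow_succ_log_self (by norm_num) _
  have hρle : (ρ' : ℝ) * Real.log 2 ≤ Real.log (Nat.card K) := by
    have h1 : 2 ^ ρ' ≤ Nat.card K := Nat.pow_log_le_self 2 hKpos.ne'
    rw [← Real.log_pow]
    refine Real.log_le_log (by positivity) ?_
    exact_mod_cast h1
  have hρ0 : (0 : ℝ) ≤ ρ' := Nat.cast_nonneg _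
  have hρle2 : (ρ' : ℝ) ≤ 3 / 2 * ℓ ^ (1 - 4 * e) := by nlinarith
  have hsplit : ℓ ^ (1 - 4 * e) * ℓ ^ (4 * e) = ℓ := by
    rw [← Real.rpow_add hℓ]
    norm_num
  have hUq : U ^ (2 * (ρ' + 1)) < q := by
    have h1 : Real.log ((U : ℝ) ^ (2 * (ρ' + 1))) < Real.log q := by
      rw [Real.log_pow]
      push_cast
      have h2 : 2 * ((ρ' : ℝ) + 1) * Real.log U ≤ 2 * (3 / 2 * ℓ ^ (1 - 4 * e) + 1) * x := by
        gcongr
      have h3 : 2 * (3 / 2 * ℓ ^ (1 - 4 * e) + 1) * x =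
          3 / 16 * (ℓ ^ (1 - 4 * e) * ℓ ^ (4 * e)) + ℓ ^ (4 * e) / 8 := by
        rw [hx]
        ring
      rw [h3, hsplit] at h2
      have h4 : ℓ ^ (4 * e) ≤ ℓ := by
        calc ℓ ^ (4 * e) ≤ ℓ ^ (1 : ℝ) := Real.rpow_le_rpow_of_exponent_le hℓ1 he1.le
          _ = ℓ := Real.rpow_one ℓ
      linarith
    have h5 := (Real.log_lt_log_iff (by positivity) hq0).mp h1
    exact_mod_cast h5
  obtain ⟨E1, hE1, hE2, hE3⟩ := exists_E K hU1 hKρ hUq
  have hUltq : U < q := lt_of_le_of_lt (Nat.le_self_pow (by omega) U) hUq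
  -- small primes
  set E2 : Finset ℕ := (Finset.range (C1 + 1)).filter Nat.Prime with hE2def
  have hC1q : C1 < q := by
    have h1 : 4 * ((C1 : ℝ) + 1) ≤ ℓ := by
      refine g.cC1.trans ?_
      calc ℓ ^ (1 - e) ≤ ℓ ^ (1 : ℝ) := Real.rpow_le_rpow_of_exponent_le hℓ1 (by linarith)
        _ = ℓ := Real.rpow_one ℓ
    have h2 : ℓ ≤ q := (Real.log_le_sub_one_of_pos hq0).trans (by linarith)
    have h3 : (C1 : ℝ) < q := by
      have : (0 : ℝ) ≤ C1 := Nat.cast_nonneg _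
      linarith
    exact_mod_cast h3
  -- the structure lemma
  have hlam0 : 0 < ℓ ^ (-e) := by positivity
  obtain ⟨V, hV1, hV2, hV3⟩ := structure_lemma K (E1 ∪ E2) (ℓ ^ (-e)) (ℓ ^ e) (ℓ ^ e) R hlam0
    (by positivity) (Real.one_le_rpow hℓ1 he.le) g.lam (by
      have h1 : Real.log (Nat.card K) / ℓ ^ (-e) ≤ ℓ ^ (1 - 3 * e) := by
        rw [div_le_iff₀ hlam0, ← Real.rpow_add hℓ]
        have e2 : 1 - 3 * e + -e = 1 - 4 * e := by ring
        rw [e2]
        exact hK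
      have h2 : ℓ ^ (1 - 3 * e) + 1 ≤ ℓ := by
        have h3 : ℓ ^ (1 - 3 * e) * ℓ ^ (3 * e) = ℓ := by
          rw [← Real.rpow_add hℓ]
          norm_num
        have h4 : 1 ≤ ℓ ^ (1 - 3 * e) := Real.one_le_rpow hℓ1 (by linarith)
        have h5 := g.rho
        nlinarith
      have h3 : ℓ ≤ (ℓ ^ e) ^ R := by
        rw [← Real.rpow_natCast, ← Real.rpow_mul hℓ.le]
        calc ℓ = ℓ ^ (1 : ℝ) := (Real.rpow_one ℓ).symm
          _ ≤ _ := Real.rpow_le_rpow_of_exponent_le hℓ1 hR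
      linarith) (by
      have h1 : ℓ ^ e / ℓ ^ (-e) = ℓ ^ (2 * e) := by
        rw [← Real.rpow_sub hℓ]
        congr 1
        ring
      rw [h1]
      have h2 : Real.log (Nat.card K) * ℓ ^ (2 * e) ≤ ℓ ^ (1 - 2 * e) := by
        calc Real.log (Nat.card K) * ℓ ^ (2 * e) ≤ ℓ ^ (1 - 4 * e) * ℓ ^ (2 * e) := by gcongr
          _ = ℓ ^ (1 - 2 * e) := by
              rw [← Real.rpow_add hℓ]
              congr 1
              ring
      have h3 : ℓ ^ (1 - 2 * e) * ℓ ^ (2 * e) = ℓ := by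
        rw [← Real.rpow_add hℓ]
        norm_num
      have h4 : 8 ≤ ℓ ^ (2 * e) := by
        refine g.c8.trans ?_
        exact Real.rpow_le_rpow_of_exponent_le hℓ1 (by linarith)
      have h5 : 0 < ℓ ^ (1 - 2 * e) := by positivity
      nlinarith)
  refine ⟨E1 ∪ E2 ∪ V, ?_, ?_, ?_, ?_, ?_⟩
  · intro p hp
    rw [Finset.mem_union, Finset.mem_union] at hp
    rcases hp with (h | h) | h
    · exact ⟨(hE1 p h).1, lt_of_le_of_lt (hE1 p h).2 hUltq⟩
    · rw [hE2def, Finset.mem_filter, Finset.mem_range] at h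
      exact ⟨h.2, by omega⟩
    · exact hV1 p h
  · -- the size
    have h1 : ((E1 ∪ E2 ∪ V).card : ℝ) ≤ E1.card + E2.card + V.card := by
      have := (Finset.card_union_le (E1 ∪ E2) V).trans
        (Nat.add_le_add_right (Finset.card_union_le E1 E2) _)
      exact_mod_cast this
    have h2 : (E1.card : ℝ) ≤ 3 / 2 * ℓ ^ (1 - 4 * e) := by
      refine le_trans ?_ hρle2
      exact_mod_cast hE2
    have h3 : (E2.card : ℝ) ≤ C1 + 1 := by
      have : E2.card ≤ C1 + 1 := (Finset.card_filter_le _ _).trans (by rw [Finset.card_range])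
      exact_mod_cast this
    have h4 : (V.card : ℝ) ≤ 2 * ℓ ^ (1 - 2 * e) := by
      refine hV2.trans ?_
      have e1 : 2 * ℓ ^ e / ℓ ^ (-e) = 2 * ℓ ^ (2 * e) := by
        rw [mul_div_assoc, ← Real.rpow_sub hℓ]
        congr 2
        ring
      rw [e1]
      calc 2 * ℓ ^ (2 * e) * Real.log (Nat.card K) ≤ 2 * ℓ ^ (2 * e) * ℓ ^ (1 - 4 * e) := by gcongr
        _ = 2 * ℓ ^ (1 - 2 * e) := by
            rw [mul_assoc, ← Real.rpow_add hℓ]
            congr 2
            ring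
    have h5 : ℓ ^ (1 - 4 * e) ≤ ℓ ^ (1 - 2 * e) :=
      Real.rpow_le_rpow_of_exponent_le hℓ1 (by linarith)
    have h6 : 8 * ℓ ^ (1 - 2 * e) ≤ ℓ ^ (1 - e) := by
      have h7 : ℓ ^ (1 - 2 * e) * ℓ ^ e = ℓ ^ (1 - e) := by
        rw [← Real.rpow_add hℓ]
        congr 1
        ring
      rw [← h7]
      have := g.c8
      have h8 : 0 < ℓ ^ (1 - 2 * e) := by positivity
      nlinarith
    have h7 := g.cC1
    have h8 : 0 < ℓ ^ (1 - 2 * e) := by positivity
    linarith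
  · intro p hp hpC
    rw [Finset.mem_union, Finset.mem_union]
    left
    right
    rw [hE2def, Finset.mem_filter, Finset.mem_range]
    exact ⟨by omega, hp⟩
  · intro X h1 h2 h3 h4 h5 h6
    have h7 : U < max X.1 X.2 := by
      by_contra hcon
      push Not at hcon
      obtain ⟨p, hp, hpd⟩ := hE3 X.1 X.2 h1 ((le_max_left _ _).trans hcon) h2
        ((le_max_right _ _).trans hcon) h3 h4 h5
      have := h6 p (by
        rw [Finset.mem_union, Finset.mem_union]
        exact Or.inl (Or.inl hp))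
      rcases hpd with h | h
      · exact this.1 h
      · exact this.2 h
    refine hlogU2.trans ?_
    apply Real.log_le_log hU0
    exact_mod_cast h7.le
  · intro F t Z ht1 hpos hcop hrel hΩ hZ hE hZμ hZq hZ1
    exact hV3 F t Z ht1 hpos hcop hrel hΩ hZ hE hZμ hZq hZ1

end

/-- **The relation bound for index up to `exp ((log q) ^ (1 - ε))`.** -/
theorem exists_relBound {n m : ℕ} (hmn : m + 2 ≤ n) {ε : ℝ} (hε0 : 0 < ε) (hε1 : ε < 1) :
    ∃ q₀ : ℕ, ∀ (q : ℕ) [Fact q.Prime], q₀ ≤ q → ∀ K : Subgroup (ZMod q)ˣ,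
      Real.log (Nat.card K) ≤ Real.log q ^ (1 - ε) →
      ∃ E : Finset ℕ, (∀ p ∈ E, p.Prime ∧ p < q) ∧
        (E.card : ℝ) ≤ Real.log q ^ (1 - ε / 4) ∧ RelBound q K E n m := by
  set e : ℝ := ε / 4 with he
  have he0 : 0 < e := by positivity
  have he1 : 4 * e < 1 := by
    rw [he]
    linarith
  have hn2 : 2 ≤ n := by omega
  have hn0 : (0 : ℝ) < n := by
    have : 0 < n := by omega
    exact_mod_cast this
  have hn1 : (1 : ℝ) < n := by
    exact_mod_cast (by omega : 1 < n)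
  set c : ℝ := 1 / (4 * n) with hc
  have hc0 : 0 < c := by positivity
  have hc1 : c < 1 / 2 := by
    rw [hc, div_lt_div_iff₀ (by positivity) (by norm_num)]
    linarith
  set C1 : ℕ := 8 ^ (4 * n) with hC1
  have hC1c : (8 : ℝ) ≤ (C1 : ℝ) ^ c := by
    rw [hC1]
    push_cast
    rw [← Real.rpow_natCast, ← Real.rpow_mul (by norm_num)]
    have : ((4 * n : ℕ) : ℝ) * c = 1 := by
      rw [hc]
      push_cast
      field_simp
    rw [this, Real.rpow_one]
  set R : ℕ := ⌈1 / e⌉₊ with hR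
  have hR1 : 1 ≤ e * R := by
    have h1 : 1 / e ≤ R := Nat.le_ceil _
    rw [div_le_iff₀ he0] at h1
    linarith
  have hlog : Tendsto (fun q : ℕ => Real.log (q : ℝ)) atTop atTop :=
    Real.tendsto_log_atTop.comp tendsto_natCast_atTop_atTop
  obtain ⟨q₀, hq₀⟩ := Filter.eventually_atTop.mp (hlog.eventually
    ((ev_PreR he0 he1 hc0 C1 R).and (ev_pow 2 (show 0 < 1 / (4 * ((n : ℝ) - 1)) by
      have : 0 < (n : ℝ) - 1 := by linarith
      positivity))))
  refine ⟨q₀, fun q hq hqq K hK => ?_⟩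
  obtain ⟨g, hln⟩ := hq₀ q hqq
  set ℓ := Real.log q with hℓdef
  have hℓ16 := g.big
  have hℓ : 0 < ℓ := by linarith
  have hℓ1 : 1 ≤ ℓ := by linarith
  have hK' : Real.log (Nat.card K) ≤ ℓ ^ (1 - 4 * e) := by
    have : 4 * e = ε := by
      rw [he]
      ring
    rw [this]
    exact hK
  obtain ⟨E, hE1, hE2, hE3, hE4, hE5⟩ := exists_set he0 he1 hR1 g K hK'
  refine ⟨E, hE1, hE2, ?_⟩
  intro P r N C0 hr hP hN
  have hl0 : 0 < Real.log q := hℓ
  have hl : 2 * √(Real.log q) ≤ (Real.log q ^ ((n : ℝ) / (m + 1))) ^ (1 / 2 - c) := by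
    change 2 * √ℓ ≤ (ℓ ^ ((n : ℝ) / (m + 1))) ^ (1 / 2 - c)
    rw [← Real.rpow_mul hℓ.le]
    have h1 : (m : ℝ) + 1 ≤ n - 1 := by
      have : (m : ℝ) + 2 ≤ n := by exact_mod_cast hmn
      linarith
    have hm0 : (0 : ℝ) < (m : ℝ) + 1 := by positivity
    have h2 : (n : ℝ) / (n - 1) * (1 / 2 - c) = 1 / (4 * ((n : ℝ) - 1)) + 1 / 2 := by
      have : (n : ℝ) - 1 ≠ 0 := by linarith
      rw [hc]
      field_simp
      ring
    have h3 : 1 / (4 * ((n : ℝ) - 1)) + 1 / 2 ≤ (n : ℝ) / (m + 1) * (1 / 2 - c) := by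
      rw [← h2]
      apply mul_le_mul_of_nonneg_right _ (by linarith)
      apply div_le_div_of_nonneg_left hn0.le hm0 h1
    calc 2 * √ℓ ≤ ℓ ^ (1 / (4 * ((n : ℝ) - 1))) * ℓ ^ (1 / 2 : ℝ) := by
          rw [Real.sqrt_eq_rpow]
          gcongr
      _ = ℓ ^ (1 / (4 * ((n : ℝ) - 1)) + 1 / 2) := (Real.rpow_add hℓ _ _).symm
      _ ≤ _ := Real.rpow_le_rpow_of_exponent_le hℓ1 h3
  have hP' : ∀ p ∈ P, p.Prime ∧ 2 * r p ≤ (p : ℝ) ^ (-c) := by
    intro p hp
    obtain ⟨h1, -, h3, -, h4⟩ := hP p hp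
    refine ⟨h1, ?_⟩
    have hp0 : (0 : ℝ) < p := by exact_mod_cast h1.pos
    have h5 : r p ≤ √(Real.log q) * (√(p : ℝ))⁻¹ := by
      rw [← div_eq_mul_inv, ← Real.sqrt_div hl0.le]
      exact Real.le_sqrt_of_sq_le h4
    calc 2 * r p ≤ 2 * √(Real.log q) * (√(p : ℝ))⁻¹ := by linarith
      _ ≤ (Real.log q ^ ((n : ℝ) / (m + 1))) ^ (1 / 2 - c) * (√(p : ℝ))⁻¹ := by gcongr
      _ ≤ (p : ℝ) ^ (1 / 2 - c) * (√(p : ℝ))⁻¹ := by
          gcongr
      _ = (p : ℝ) ^ (-c) := by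
          rw [Real.sqrt_eq_rpow, ← Real.rpow_neg hp0.le, ← Real.rpow_add hp0]
          congr 1
          ring
  classical
  set F := RR K P E N C0 with hF
  have hmem : ∀ X ∈ F, (1 ≤ X.1 ∧ X.1 ≤ C0 * N) ∧ (1 ≤ X.2 ∧ X.2 ≤ N) ∧ Nat.Coprime X.1 X.2 ∧
      ¬ (X.1 = 1 ∧ X.2 = 1) ∧ Rel K X.1 X.2 ∧ (∀ p ∈ E, ¬ p ∣ X.1 ∧ ¬ p ∣ X.2) ∧
      Squarefree X.2 ∧ X.2.primeFactors ⊆ P := fun X hX => mem_RR.mp hX
  have hFK : F.card ≤ Nat.card K := RR_card hN
  have hq0 : (0 : ℝ) < q := by exact_mod_cast hq.out.pos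
  -- labels
  set T : ℕ := ⌈3 * ℓ⌉₊ + 2 with hT
  have hT1 : (T : ℝ) ≤ 4 * ℓ := by
    have h1 : (⌈3 * ℓ⌉₊ : ℝ) < 3 * ℓ + 1 := Nat.ceil_lt_add_one (by positivity)
    rw [hT]
    push_cast
    linarith
  have hT2 : 3 * ℓ + 2 ≤ T := by
    rw [hT]
    push_cast
    have := Nat.le_ceil (3 * ℓ)
    linarith
  have hlogle : ∀ X ∈ F, Real.log (max X.1 X.2 : ℕ) ≤ ℓ := by
    intro X hX
    obtain ⟨⟨a1, a2⟩, ⟨a3, a4⟩, -⟩ := hmem X hX
    have hN1 : 1 ≤ N := a3.trans a4
    have hC01 : 1 ≤ C0 * N := a1.trans a2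
    have h1 : X.1 ≤ C0 * N * N := a2.trans (Nat.le_mul_of_pos_right _ hN1)
    have h2 : X.2 ≤ C0 * N * N := a4.trans (Nat.le_mul_of_pos_left _ hC01)
    have h3 : max X.1 X.2 ≤ q := (max_le h1 h2).trans hN.le
    apply Real.log_le_log
    · exact_mod_cast lt_of_lt_of_le a1 (le_max_left _ _)
    · exact_mod_cast h3
  have hΩlt : ∀ X ∈ F, ArithmeticFunction.cardFactors X.1 +
      ArithmeticFunction.cardFactors X.2 < T := by
    intro X hX
    obtain ⟨⟨a1, a2⟩, ⟨a3, a4⟩, -⟩ := hmem X hX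
    have h1 : ∀ y : ℕ, 1 ≤ y → y ≤ max X.1 X.2 →
        (ArithmeticFunction.cardFactors y : ℝ) ≤ 3 / 2 * ℓ := by
      intro y hy1 hy2
      have h2 := pow_Omega_le 2 y (by omega)
        (fun p hp => (Nat.prime_of_mem_primeFactors hp).two_le)
      have h3 : Real.log ((2 : ℝ) ^ (ArithmeticFunction.cardFactors y)) ≤ ℓ := by
        refine le_trans ?_ (hlogle X hX)
        apply Real.log_le_log (by positivity)
        exact_mod_cast h2.trans hy2
      rw [Real.log_pow] at h3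
      have := Real.log_two_gt_d9
      have h4 : (0 : ℝ) ≤ ArithmeticFunction.cardFactors y := Nat.cast_nonneg _
      nlinarith
    have h2 := h1 X.1 a1 (le_max_left _ _)
    have h3 := h1 X.2 a3 (le_max_right _ _)
    have h4 : ((ArithmeticFunction.cardFactors X.1 + ArithmeticFunction.cardFactors X.2 : ℕ) : ℝ) <
        T := by
      push_cast
      linarith
    exact_mod_cast h4
  have hslt : ∀ X ∈ F, ⌈Real.log (max X.1 X.2 : ℕ)⌉₊ < T := by
    intro X hX
    have h1 := hlogle X hX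
    have h2 : (⌈Real.log (max X.1 X.2 : ℕ)⌉₊ : ℝ) < Real.log (max X.1 X.2 : ℕ) + 1 :=
      Nat.ceil_lt_add_one (Real.log_natCast_nonneg _)
    have h3 : (⌈Real.log (max X.1 X.2 : ℕ)⌉₊ : ℝ) < T := by linarith
    exact_mod_cast h3
  have hmaps : ∀ X ∈ F, (⌈Real.log (max X.1 X.2 : ℕ)⌉₊, ArithmeticFunction.cardFactors X.1 +
      ArithmeticFunction.cardFactors X.2) ∈ Finset.range T ×ˢ Finset.range T := by
    intro X hX
    rw [Finset.mem_product, Finset.mem_range, Finset.mem_range]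
    exact ⟨hslt X hX, hΩlt X hX⟩
  have hterm : ∑ X ∈ F, WW P r X.1 X.2 ≤ ∑ X ∈ F, ((X.1 : ℝ) * X.2) ^ (-c) := by
    apply Finset.sum_le_sum
    intro X hX
    obtain ⟨⟨a1, a2⟩, ⟨a3, a4⟩, a5, a6, a7, a8, a9, a10⟩ := hmem X hX
    refine (WW_le hr hc0.le hc1.le hP' a1 a9 a10).trans (le_of_eq ?_)
    rw [Real.mul_rpow (by positivity) (by positivity)]
  refine hterm.trans ?_
  rw [← Finset.sum_fiberwise_of_maps_to hmaps]
  have hfib : ∀ y ∈ Finset.range T ×ˢ Finset.range T,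
      ∑ X ∈ F with (⌈Real.log (max X.1 X.2 : ℕ)⌉₊, ArithmeticFunction.cardFactors X.1 +
        ArithmeticFunction.cardFactors X.2) = y, ((X.1 : ℝ) * X.2) ^ (-c) ≤
        1 / (128 * Real.log q ^ 2) := by
    intro y _
    obtain ⟨s, t⟩ := y
    set G := F.filter fun X => (⌈Real.log (max X.1 X.2 : ℕ)⌉₊, ArithmeticFunction.cardFactors X.1 +
        ArithmeticFunction.cardFactors X.2) = (s, t) with hG
    have hGF : ∀ X ∈ G, X ∈ F ∧ ⌈Real.log (max X.1 X.2 : ℕ)⌉₊ = s ∧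
        ArithmeticFunction.cardFactors X.1 + ArithmeticFunction.cardFactors X.2 = t := by
      intro X hX
      rw [hG, Finset.mem_filter, Prod.mk.injEq] at hX
      exact hX
    rcases G.eq_empty_or_nonempty with hG0 | ⟨X₀, hX₀⟩
    · rw [hG0, Finset.sum_empty]
      positivity
    have hs0 : Real.log q ^ (4 * e) / 16 - 1 ≤ s := by
      obtain ⟨h1, h2, h3⟩ := hGF X₀ hX₀
      obtain ⟨⟨a1, a2⟩, ⟨a3, a4⟩, a5, a6, a7, a8, a9, a10⟩ := hmem X₀ h1
      refine (hE4 X₀ a1 a3 a5 a6 a7 a8).trans ?_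
      rw [← h2]
      exact Nat.le_ceil _
    apply fiber_bound he0 he1 hc0 g hC1c K hK' E hE3 hE5 G s t
      ((Finset.card_le_card (Finset.filter_subset _ _)).trans hFK) hs0
    · intro X hX
      obtain ⟨⟨a1, a2⟩, ⟨a3, a4⟩, -⟩ := hmem X (hGF X hX).1
      exact ⟨a1, a3⟩
    · intro X hX
      exact (hmem X (hGF X hX).1).2.2.1
    · intro X hX
      exact (hmem X (hGF X hX).1).2.2.2.2.1
    · intro X hX
      exact (hGF X hX).2.2
    · intro X hX
      obtain ⟨h1, h2, h3⟩ := hGF X hX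
      obtain ⟨⟨a1, a2⟩, ⟨a3, a4⟩, -⟩ := hmem X h1
      have h4 : ((max X.1 X.2 : ℕ) : ℝ) ≤ Real.exp s := by
        rw [← Real.log_le_iff_le_exp (by exact_mod_cast lt_of_lt_of_le a1 (le_max_left _ _)), ← h2]
        exact Nat.le_ceil _
      constructor
      · refine le_trans ?_ h4
        exact_mod_cast le_max_left _ _
      · refine le_trans ?_ h4
        exact_mod_cast le_max_right _ _
    · intro X hX
      obtain ⟨h1, h2, h3⟩ := hGF X hX
      obtain ⟨⟨a1, a2⟩, ⟨a3, a4⟩, -⟩ := hmem X h1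
      have hmax0 : (0 : ℝ) < ((max X.1 X.2 : ℕ) : ℝ) := by
        exact_mod_cast lt_of_lt_of_le a1 (le_max_left _ _)
      have h4 : (s : ℝ) - 1 ≤ Real.log (max X.1 X.2 : ℕ) := by
        rw [← h2]
        have := Nat.ceil_lt_add_one (Real.log_natCast_nonneg (max X.1 X.2))
        linarith
      have h5 : Real.exp (s - 1) ≤ ((max X.1 X.2 : ℕ) : ℝ) := by
        rw [← Real.le_log_iff_exp_le hmax0]
        exact h4
      refine h5.trans ?_
      have b1 : (1 : ℝ) ≤ X.1 := by exact_mod_cast a1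
      have b2 : (1 : ℝ) ≤ X.2 := by exact_mod_cast a3
      rcases le_total X.1 X.2 with h | h
      · rw [max_eq_right h]
        nlinarith
      · rw [max_eq_left h]
        nlinarith
    · intro X hX p hp hpp
      obtain ⟨⟨a1, a2⟩, ⟨a3, a4⟩, a5, a6, a7, a8, a9, a10⟩ := hmem X (hGF X hX).1
      unfold pr at hpp
      rw [Finset.mem_union] at hpp
      rcases hpp with h | h
      · exact (a8 p hp).1 (Nat.dvd_of_mem_primeFactors h)
      · exact (a8 p hp).2 (Nat.dvd_of_mem_primeFactors h)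
  calc _ ≤ ∑ _y ∈ Finset.range T ×ˢ Finset.range T, 1 / (128 * Real.log q ^ 2) :=
        Finset.sum_le_sum hfib
    _ = (T : ℝ) * T * (1 / (128 * ℓ ^ 2)) := by
        rw [Finset.sum_const, Finset.card_product, Finset.card_range, nsmul_eq_mul]
        push_cast
        ring
    _ ≤ (4 * ℓ) * (4 * ℓ) * (1 / (128 * ℓ ^ 2)) := by gcongr
    _ = 1 / 8 := by
        field_simp
        norm_num

end Pool.Agent.H.MP_3e6494_nt.Str
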