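import Pool.Agent.H.MP_3e6494_nt.Rel

/-!
Counting short relations with a given number of prime factors modulo a small subgroup.
-/

set_option autoImplicit false
set_option linter.unusedVariables false

open Finset

namespace Pool.Agent.H.MP_3e6494_nt

/-- ordered factorisations of `N` into `j` factors -/
def Tj (j N : ℕ) : Finset (Fin j → ℕ) :=
  (Fintype.piFinset (fun _ : Fin j => N.divisors)).filter fun f => ∏ i, f i = N

theorem mem_Tj {j N : ℕ} (hN : N ≠ 0) (f : Fin j → ℕ) : f ∈ Tj j N ↔ ∏ i, f i = N := by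
  unfold Tj
  rw [Finset.mem_filter, Fintype.mem_piFinset]
  constructor
  · exact fun h => h.2
  · intro h
    refine ⟨fun i => ?_, h⟩
    rw [Nat.mem_divisors]
    refine ⟨?_, hN⟩
    rw [← h]
    exact Finset.dvd_prod_of_mem f (Finset.mem_univ i)

theorem card_Tj (j N : ℕ) (hN : N ≠ 0) :
    (Tj j N).card ≤ j ^ (ArithmeticFunction.cardFactors N) := by
  classical
  induction N using induction_on_primes with
  | zero => exact absurd rfl hN
  | one =>
    have h1 : Tj j 1 ⊆ {fun _ => 1} := by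
      intro f hf
      rw [mem_Tj one_ne_zero] at hf
      rw [Finset.mem_singleton]
      ext i
      have h2 : f i ∣ 1 := by
        rw [← hf]
        exact Finset.dvd_prod_of_mem f (Finset.mem_univ i)
      exact Nat.dvd_one.mp h2
    refine (Finset.card_le_card h1).trans ?_
    simp
  | prime_mul p a hp ih =>
    have ha : a ≠ 0 := by
      rintro rfl
      exact hN (mul_zero p)
    have h1 : Tj j (p * a) ⊆ (Finset.univ ×ˢ Tj j a).image
        (fun x : Fin j × (Fin j → ℕ) => Function.update x.2 x.1 (p * x.2 x.1)) := by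
      intro f hf
      rw [mem_Tj hN] at hf
      have h2 : p ∣ ∏ i, f i := by
        rw [hf]
        exact dvd_mul_right p a
      rw [hp.prime.dvd_finsetProd_iff] at h2
      obtain ⟨i, _, c, hc⟩ := h2
      rw [Finset.mem_image]
      refine ⟨(i, Function.update f i c), ?_, ?_⟩
      · rw [Finset.mem_product]
        refine ⟨Finset.mem_univ i, ?_⟩
        rw [mem_Tj ha]
        have h3 : ∏ k, f k = f i * ∏ k ∈ Finset.univ.erase i, f k :=
          (Finset.mul_prod_erase Finset.univ f (Finset.mem_univ i)).symm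
        have h4 : ∏ k, Function.update f i c k = c * ∏ k ∈ Finset.univ.erase i, f k := by
          rw [← Finset.mul_prod_erase Finset.univ _ (Finset.mem_univ i), Function.update_self]
          congr 1
          apply Finset.prod_congr rfl
          intro k hk
          rw [Function.update_of_ne (Finset.ne_of_mem_erase hk)]
        rw [h4]
        rw [h3, hc, mul_assoc] at hf
        exact Nat.eq_of_mul_eq_mul_left hp.pos hf
      · simp only [Function.update_self, Function.update_idem]
        rw [← hc, Function.update_eq_self]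
    refine (Finset.card_le_card h1).trans (Finset.card_image_le.trans ?_)
    rw [Finset.card_product, Finset.card_univ, Fintype.card_fin,
      ArithmeticFunction.cardFactors_mul hp.ne_zero ha,
      ArithmeticFunction.cardFactors_apply_prime hp, pow_add, pow_one]
    exact Nat.mul_le_mul_left j (ih ha)

/-- `(u, v)` is compatible with `A`: the primes of `u` lie in `A`, those of `v` outside -/
def Compat (A : Finset ℕ) (x : ℕ × ℕ) : Prop :=
  (∀ p ∈ x.1.primeFactors, p ∈ A) ∧ ∀ p ∈ x.2.primeFactors, p ∉ A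

instance (A : Finset ℕ) (x : ℕ × ℕ) : Decidable (Compat A x) := by
  unfold Compat
  infer_instance

theorem card_compat (P : Finset ℕ) (x : ℕ × ℕ) (h1 : x.1.primeFactors ⊆ P)
    (h2 : x.2.primeFactors ⊆ P) (hc : Nat.Coprime x.1 x.2) (t : ℕ)
    (ht : x.1.primeFactors.card + x.2.primeFactors.card ≤ t) :
    2 ^ P.card ≤ 2 ^ t * (P.powerset.filter fun A => Compat A x).card := by
  classical
  set R := P \ (x.1.primeFactors ∪ x.2.primeFactors) with hR
  have hdis : Disjoint x.1.primeFactors x.2.primeFactors := hc.disjoint_primeFactors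
  have h3 : R.powerset.image (fun B => B ∪ x.1.primeFactors) ⊆
      P.powerset.filter fun A => Compat A x := by
    intro A hA
    rw [Finset.mem_image] at hA
    obtain ⟨B, hB, rfl⟩ := hA
    rw [Finset.mem_powerset] at hB
    rw [Finset.mem_filter, Finset.mem_powerset]
    refine ⟨?_, ?_, ?_⟩
    · apply Finset.union_subset _ h1
      exact hB.trans Finset.sdiff_subset
    · intro p hp
      exact Finset.mem_union_right _ hp
    · intro p hp hpB
      rw [Finset.mem_union] at hpB
      rcases hpB with h | h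
      · have := hB h
        rw [hR, Finset.mem_sdiff] at this
        exact this.2 (Finset.mem_union_right _ hp)
      · exact (Finset.disjoint_left.mp hdis h) hp
  have h4 : (R.powerset.image (fun B => B ∪ x.1.primeFactors)).card = 2 ^ R.card := by
    rw [Finset.card_image_of_injOn, Finset.card_powerset]
    intro B hB C hC hBC
    rw [Finset.mem_coe, Finset.mem_powerset] at hB hC
    have key : ∀ D ⊆ R, (D ∪ x.1.primeFactors) \ x.1.primeFactors = D := by
      intro D hD
      rw [Finset.union_sdiff_right, Finset.sdiff_eq_self_iff_disjoint]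
      rw [Finset.disjoint_left]
      intro p hp hp'
      have := hD hp
      rw [hR, Finset.mem_sdiff] at this
      exact this.2 (Finset.mem_union_left _ hp')
    have h5 : B ∪ x.1.primeFactors = C ∪ x.1.primeFactors := hBC
    rw [← key B hB, h5, key C hC]
  have h5 : P.card ≤ R.card + t := by
    have h6 : P.card - (x.1.primeFactors ∪ x.2.primeFactors).card ≤ R.card :=
      Finset.le_card_sdiff _ _
    have h7 := Finset.card_union_le x.1.primeFactors x.2.primeFactors
    omega
  calc 2 ^ P.card ≤ 2 ^ (R.card + t) := Nat.pow_le_pow_right (by norm_num) h5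
    _ = 2 ^ t * 2 ^ R.card := by rw [pow_add, mul_comm]
    _ ≤ _ := by
        rw [← h4]
        exact Nat.mul_le_mul_left _ (Finset.card_le_card h3)

theorem exists_compat (S : Finset (ℕ × ℕ)) (t : ℕ) (hc : ∀ x ∈ S, Nat.Coprime x.1 x.2)
    (ht : ∀ x ∈ S, x.1.primeFactors.card + x.2.primeFactors.card ≤ t) :
    ∃ A : Finset ℕ, S.card ≤ 2 ^ t * (S.filter fun x => Compat A x).card := by
  classical
  set P : Finset ℕ := S.biUnion fun x => x.1.primeFactors ∪ x.2.primeFactors with hP
  by_contra hcon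
  push Not at hcon
  have h1 : ∑ A ∈ P.powerset, 2 ^ t * (S.filter fun x => Compat A x).card <
      ∑ A ∈ P.powerset, S.card := by
    apply Finset.sum_lt_sum_of_nonempty ⟨∅, Finset.empty_mem_powerset P⟩
    intro A _
    exact hcon A
  rw [Finset.sum_const, Finset.card_powerset, smul_eq_mul, ← Finset.mul_sum] at h1
  have h2 : ∑ A ∈ P.powerset, (S.filter fun x => Compat A x).card =
      ∑ x ∈ S, (P.powerset.filter fun A => Compat A x).card := by
    simp only [Finset.card_filter]
    rw [Finset.sum_comm]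
  rw [h2, Finset.mul_sum] at h1
  have h3 : ∑ x ∈ S, 2 ^ P.card ≤ ∑ x ∈ S, 2 ^ t * (P.powerset.filter fun A => Compat A x).card := by
    apply Finset.sum_le_sum
    intro x hx
    apply card_compat P x _ _ (hc x hx) t (ht x hx)
    · intro p hp
      rw [hP, Finset.mem_biUnion]
      exact ⟨x, hx, Finset.mem_union_left _ hp⟩
    · intro p hp
      rw [hP, Finset.mem_biUnion]
      exact ⟨x, hx, Finset.mem_union_right _ hp⟩
  rw [Finset.sum_const, smul_eq_mul, mul_comm] at h3
  omega

/-- a product of numbers with primes in `A` times one with primes outside determines both -/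
theorem sep_eq (A : Finset ℕ) {a b c d : ℕ} (ha : a ≠ 0) (hb : b ≠ 0) (hc : c ≠ 0) (hd : d ≠ 0)
    (ha' : ∀ p ∈ a.primeFactors, p ∈ A) (hb' : ∀ p ∈ b.primeFactors, p ∉ A)
    (hc' : ∀ p ∈ c.primeFactors, p ∈ A) (hd' : ∀ p ∈ d.primeFactors, p ∉ A)
    (h : a * b = c * d) : a = c ∧ b = d := by
  have key : ∀ {a d : ℕ}, a ≠ 0 → d ≠ 0 → (∀ p ∈ a.primeFactors, p ∈ A) →
      (∀ p ∈ d.primeFactors, p ∉ A) → Nat.Coprime a d := by
    intro a d ha hd ha' hd'
    rw [← Nat.disjoint_primeFactors ha hd, Finset.disjoint_left]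
    intro p hp hp'
    exact hd' p hp' (ha' p hp)
  have h1 : a ∣ c := (key ha hd ha' hd').dvd_of_dvd_mul_right (by rw [← h]; exact dvd_mul_right a b)
  have h2 : c ∣ a := (key hc hb hc' hb').dvd_of_dvd_mul_right (by rw [h]; exact dvd_mul_right c d)
  have h3 : a = c := Nat.dvd_antisymm h1 h2
  refine ⟨h3, ?_⟩
  rw [← h3] at h
  exact Nat.eq_of_mul_eq_mul_left (Nat.pos_of_ne_zero ha) h

theorem prime_of_prod {ι : Type} [Fintype ι] (f : ι → ℕ) (p : ℕ)
    (hp : p ∈ (∏ i, f i).primeFactors) : ∃ i, p ∈ (f i).primeFactors := by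
  rw [Nat.mem_primeFactors] at hp
  obtain ⟨h1, h2, h3⟩ := hp
  rw [h1.prime.dvd_finsetProd_iff] at h2
  obtain ⟨i, _, hi⟩ := h2
  refine ⟨i, ?_⟩
  rw [Nat.mem_primeFactors]
  refine ⟨h1, hi, ?_⟩
  exact Finset.prod_ne_zero_iff.mp h3 i (Finset.mem_univ i)

theorem cardFactors_prod {ι : Type} [Fintype ι] [DecidableEq ι] (f : ι → ℕ) (s : Finset ι)
    (hf : ∀ i, f i ≠ 0) :
    ArithmeticFunction.cardFactors (∏ i ∈ s, f i) = ∑ i ∈ s, ArithmeticFunction.cardFactors (f i) := by
  induction s using Finset.induction_on with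
  | empty => simp
  | insert i s hi ih =>
    rw [Finset.prod_insert hi, Finset.sum_insert hi,
      ArithmeticFunction.cardFactors_mul (hf i) (Finset.prod_ne_zero_iff.mpr fun k _ => hf k), ih]

/-- **Counting lemma.** -/
theorem count_rel {q : ℕ} [hq : Fact q.Prime] (K : Subgroup (ZMod q)ˣ) (S : Finset (ℕ × ℕ))
    (t Z j : ℕ) (hj : 1 ≤ j) (hpos : ∀ x ∈ S, 0 < x.1 ∧ 0 < x.2)
    (hcop : ∀ x ∈ S, Nat.Coprime x.1 x.2) (hrel : ∀ x ∈ S, Rel K x.1 x.2)
    (hΩ : ∀ x ∈ S, ArithmeticFunction.cardFactors x.1 + ArithmeticFunction.cardFactors x.2 = t)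
    (hZ : ∀ x ∈ S, x.1 ≤ Z ∧ x.2 ≤ Z) (hZq : Z ^ (2 * j) < q) :
    S.card ^ j ≤ (2 ^ t * j ^ t) ^ j * Nat.card K := by
  classical
  rcases S.eq_empty_or_nonempty with rfl | hne
  · rw [Finset.card_empty, zero_pow (by omega)]
    exact Nat.zero_le _
  obtain ⟨x₀, hx₀⟩ := hne
  have hZ1 : 1 ≤ Z := (hpos x₀ hx₀).1.trans_le (hZ x₀ hx₀).1
  obtain ⟨A, hA⟩ := exists_compat S t hcop (by
    intro x hx
    rw [← hΩ x hx]
    apply Nat.add_le_add
    · exact List.toFinset_card_le _
    · exact List.toFinset_card_le _)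
  set S' := S.filter fun x => Compat A x with hS'
  have hmem : ∀ x ∈ S', x ∈ S ∧ Compat A x := fun x hx => Finset.mem_filter.mp hx
  -- the elements of `K`
  have hrel' : ∀ x : ℕ × ℕ, ∃ y : K, x ∈ S → (x.1 : ZMod q) = ((y : (ZMod q)ˣ) : ZMod q) * (x.2 : ZMod q) := by
    intro x
    by_cases hx : x ∈ S
    · obtain ⟨y, hyK, hy⟩ := hrel x hx
      exact ⟨⟨y, hyK⟩, fun _ => hy⟩
    · exact ⟨1, fun h => absurd h hx⟩
  choose y hy using hrel'
  set Tup : Finset (Fin j → ℕ × ℕ) := Fintype.piFinset (fun _ : Fin j => S') with hTup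
  have hTcard : Tup.card = S'.card ^ j := by
    rw [hTup, Fintype.card_piFinset_const]
  have hmemT : ∀ f ∈ Tup, ∀ i, f i ∈ S' := by
    intro f hf i
    exact (Fintype.mem_piFinset.mp hf) i
  have : Fintype K := Fintype.ofFinite K
  have hfib : ∀ b ∈ Tup.image (fun f => ∏ i, y (f i)),
      (Tup.filter fun f => ∏ i, y (f i) = b).card ≤ j ^ (t * j) := by
    intro b hb
    rw [Finset.mem_image] at hb
    obtain ⟨g, hg, hgb⟩ := hb
    set N : ℕ := ∏ i, ((g i).1 * (g i).2) with hN
    have hne : ∀ f ∈ Tup, ∀ i, (f i).1 ≠ 0 ∧ (f i).2 ≠ 0 := by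
      intro f hf i
      have := hpos _ (hmem _ (hmemT f hf i)).1
      omega
    have hN0 : N ≠ 0 := by
      rw [hN]
      apply Finset.prod_ne_zero_iff.mpr
      intro i _
      exact mul_ne_zero (hne g hg i).1 (hne g hg i).2
    have hΩN : ArithmeticFunction.cardFactors N = t * j := by
      rw [hN, cardFactors_prod _ _ (fun i => mul_ne_zero (hne g hg i).1 (hne g hg i).2)]
      have h1 : ∀ i ∈ (Finset.univ : Finset (Fin j)),
          ArithmeticFunction.cardFactors ((g i).1 * (g i).2) = t := by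
        intro i _
        rw [ArithmeticFunction.cardFactors_mul (hne g hg i).1 (hne g hg i).2]
        exact hΩ _ (hmem _ (hmemT g hg i)).1
      rw [Finset.sum_congr rfl h1, Finset.sum_const, Finset.card_univ, Fintype.card_fin, smul_eq_mul,
        mul_comm]
    rw [← hΩN]
    refine le_trans ?_ (card_Tj j N hN0)
    apply Finset.card_le_card_of_injOn (fun f i => (f i).1 * (f i).2)
    · intro f hf
      rw [Finset.mem_coe, Finset.mem_filter] at hf
      obtain ⟨hfT, hfb⟩ := hf
      rw [Finset.mem_coe, mem_Tj hN0]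
      -- congruence
      have hcong : ∀ f ∈ Tup, ((∏ i, (f i).1 : ℕ) : ZMod q) =
          (((∏ i, y (f i) : K) : (ZMod q)ˣ) : ZMod q) * ((∏ i, (f i).2 : ℕ) : ZMod q) := by
        intro f hf
        rw [Nat.cast_prod, Nat.cast_prod, Subgroup.val_finsetProd, Units.coe_prod,
          ← Finset.prod_mul_distrib]
        exact Finset.prod_congr rfl fun i _ => hy _ (hmem _ (hmemT f hf i)).1
      have h1 : (((∏ i, (f i).1) * (∏ i, (g i).2) : ℕ) : ZMod q) =
          (((∏ i, (g i).1) * (∏ i, (f i).2) : ℕ) : ZMod q) := by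
        rw [Nat.cast_mul, Nat.cast_mul, hcong f hfT, hcong g hg, hfb, hgb]
        ring
      have hle : ∀ f ∈ Tup, ∀ g ∈ Tup, (∏ i, (f i).1) * (∏ i, (g i).2) < q := by
        intro f hf g hg
        refine lt_of_le_of_lt ?_ hZq
        rw [two_mul, pow_add]
        apply Nat.mul_le_mul
        · calc ∏ i, (f i).1 ≤ ∏ _i : Fin j, Z :=
                Finset.prod_le_prod' fun i _ => (hZ _ (hmem _ (hmemT f hf i)).1).1
            _ = Z ^ j := by rw [Finset.prod_const, Finset.card_univ, Fintype.card_fin]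
        · calc ∏ i, (g i).2 ≤ ∏ _i : Fin j, Z :=
                Finset.prod_le_prod' fun i _ => (hZ _ (hmem _ (hmemT g hg i)).1).2
            _ = Z ^ j := by rw [Finset.prod_const, Finset.card_univ, Fintype.card_fin]
      have h2 : (∏ i, (f i).1) * (∏ i, (g i).2) = (∏ i, (g i).1) * (∏ i, (f i).2) :=
        Nat.ModEq.eq_of_lt_of_lt ((ZMod.natCast_eq_natCast_iff _ _ _).mp h1)
          (hle f hfT g hg) (hle g hg f hfT)
      have hA1 : ∀ f ∈ Tup, ∀ p ∈ (∏ i, (f i).1).primeFactors, p ∈ A := by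
        intro f hf p hp
        obtain ⟨i, hi⟩ := prime_of_prod _ p hp
        exact (hmem _ (hmemT f hf i)).2.1 p hi
      have hA2 : ∀ f ∈ Tup, ∀ p ∈ (∏ i, (f i).2).primeFactors, p ∉ A := by
        intro f hf p hp
        obtain ⟨i, hi⟩ := prime_of_prod _ p hp
        exact (hmem _ (hmemT f hf i)).2.2 p hi
      have hp1 : ∀ f ∈ Tup, ∏ i, (f i).1 ≠ 0 := fun f hf =>
        Finset.prod_ne_zero_iff.mpr fun i _ => (hne f hf i).1
      have hp2 : ∀ f ∈ Tup, ∏ i, (f i).2 ≠ 0 := fun f hf =>
        Finset.prod_ne_zero_iff.mpr fun i _ => (hne f hf i).2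
      obtain ⟨h3, h4⟩ := sep_eq A (hp1 f hfT) (hp2 g hg) (hp1 g hg) (hp2 f hfT) (hA1 f hfT)
        (hA2 g hg) (hA1 g hg) (hA2 f hfT) h2
      rw [Finset.prod_mul_distrib, hN, Finset.prod_mul_distrib, h3, h4]
    · intro f hf f' hf' hff
      rw [Finset.mem_coe, Finset.mem_filter] at hf hf'
      ext1 i
      have h1 : (f i).1 * (f i).2 = (f' i).1 * (f' i).2 := congrFun hff i
      have h2 := (hmem _ (hmemT f hf.1 i)).2
      have h3 := (hmem _ (hmemT f' hf'.1 i)).2
      obtain ⟨h4, h5⟩ := sep_eq A (hne f hf.1 i).1 (hne f hf.1 i).2 (hne f' hf'.1 i).1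
        (hne f' hf'.1 i).2 h2.1 h2.2 h3.1 h3.2 h1
      exact Prod.ext h4 h5
  have h1 := Finset.card_le_mul_card_image Tup (j ^ (t * j)) hfib
  have h2 : (Tup.image fun f => ∏ i, y (f i)).card ≤ Nat.card K := by
    rw [Nat.card_eq_fintype_card]
    exact Finset.card_le_univ _
  calc S.card ^ j ≤ (2 ^ t * S'.card) ^ j := Nat.pow_le_pow_left hA j
    _ = (2 ^ t) ^ j * Tup.card := by rw [mul_pow, hTcard]
    _ ≤ (2 ^ t) ^ j * (j ^ (t * j) * Nat.card K) := by
        apply Nat.mul_le_mul_left
        exact h1.trans (Nat.mul_le_mul_left _ h2)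
    _ = (2 ^ t * j ^ t) ^ j * Nat.card K := by
        rw [mul_pow (2 ^ t) (j ^ t) j, ← pow_mul j t j]
        ring

end Pool.Agent.H.MP_3e6494_nt
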