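import Pool.Agent.H.MP_3e6494_nt.helper15.Ext
import Pool.Agent.H.MP_3e6494_nt.helper15.Count

/-!
The structure lemma for short relations modulo a small subgroup.
-/

set_option autoImplicit false
set_option linter.unusedVariables false

open Finset
open scoped Pointwise

namespace Pool.Agent.H.MP_3e6494_nt.Str

variable {q : ℕ} [hq : Fact q.Prime]

theorem Rel_mul {K : Subgroup (ZMod q)ˣ} {X Y : ℕ × ℕ} (hX : Rel K X.1 X.2) (hY : Rel K Y.1 Y.2) :
    Rel K (X * Y).1 (X * Y).2 := by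
  obtain ⟨x, hx, hx2⟩ := hX
  obtain ⟨y, hy, hy2⟩ := hY
  refine ⟨x * y, K.mul_mem hx hy, ?_⟩
  rw [Prod.fst_mul, Prod.snd_mul, Nat.cast_mul, Nat.cast_mul, hx2, hy2]
  push_cast
  ring

theorem Rel_pow {K : Subgroup (ZMod q)ˣ} (S : Finset (ℕ × ℕ)) (hS : ∀ X ∈ S, Rel K X.1 X.2)
    (j : ℕ) : ∀ X ∈ S ^ j, Rel K X.1 X.2 := by
  induction j with
  | zero =>
    intro X hX
    rw [pow_zero, Finset.mem_one] at hX
    subst hX
    exact ⟨1, K.one_mem, by simp⟩
  | succ j ih =>
    intro X hX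
    rw [pow_succ, Finset.mem_mul] at hX
    obtain ⟨a, ha, y, hy, rfl⟩ := hX
    exact Rel_mul (ih a ha) (hS y hy)

theorem le_pow' (S : Finset (ℕ × ℕ)) (Z : ℕ) (hS : ∀ X ∈ S, X.1 ≤ Z ∧ X.2 ≤ Z)
    (j : ℕ) : ∀ X ∈ S ^ j, X.1 ≤ Z ^ j ∧ X.2 ≤ Z ^ j := by
  induction j with
  | zero =>
    intro X hX
    rw [pow_zero, Finset.mem_one] at hX
    subst hX
    simp
  | succ j ih =>
    intro X hX
    rw [pow_succ, Finset.mem_mul] at hX
    obtain ⟨a, ha, y, hy, rfl⟩ := hX
    rw [pow_succ]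
    exact ⟨Nat.mul_le_mul (ih a ha).1 (hS y hy).1, Nat.mul_le_mul (ih a ha).2 (hS y hy).2⟩

theorem compat_pow (S : Finset (ℕ × ℕ)) (A : Finset ℕ) (hpos : ∀ X ∈ S, 0 < X.1 ∧ 0 < X.2)
    (hS : ∀ X ∈ S, Compat A X) (j : ℕ) : ∀ X ∈ S ^ j, Compat A X := by
  induction j with
  | zero =>
    intro X hX
    rw [pow_zero, Finset.mem_one] at hX
    subst hX
    constructor <;> simp
  | succ j ih =>
    intro X hX
    rw [pow_succ, Finset.mem_mul] at hX
    obtain ⟨a, ha, y, hy, rfl⟩ := hX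
    have h1 := pow_pos' S hpos j a ha
    have h2 := hpos y hy
    have h3 := ih a ha
    have h4 := hS y hy
    constructor
    · intro p hp
      rw [Prod.fst_mul, Nat.primeFactors_mul h1.1.ne' h2.1.ne', Finset.mem_union] at hp
      rcases hp with h | h
      · exact h3.1 p h
      · exact h4.1 p h
    · intro p hp
      rw [Prod.snd_mul, Nat.primeFactors_mul h1.2.ne' h2.2.ne', Finset.mem_union] at hp
      rcases hp with h | h
      · exact h3.2 p h
      · exact h4.2 p h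

theorem compat_coprime {A : Finset ℕ} {X : ℕ × ℕ} (h1 : X.1 ≠ 0) (h2 : X.2 ≠ 0)
    (h : Compat A X) : Nat.Coprime X.1 X.2 := by
  rw [← Nat.disjoint_primeFactors h1 h2, Finset.disjoint_left]
  intro p hp hp'
  exact h.2 p hp' (h.1 p hp)

/-- relations of height below the square root of `q` inject into `K` -/
theorem card_le_K (K : Subgroup (ZMod q)ˣ) (S : Finset (ℕ × ℕ)) (Z : ℕ)
    (hpos : ∀ X ∈ S, 0 < X.1 ∧ 0 < X.2) (hcop : ∀ X ∈ S, Nat.Coprime X.1 X.2)
    (hrel : ∀ X ∈ S, Rel K X.1 X.2) (hZ : ∀ X ∈ S, X.1 ≤ Z ∧ X.2 ≤ Z) (hZq : Z * Z < q) :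
    S.card ≤ Nat.card K := by
  classical
  have hch : ∀ X : ℕ × ℕ, ∃ x : K, X ∈ S →
      (X.1 : ZMod q) = ((x : (ZMod q)ˣ) : ZMod q) * (X.2 : ZMod q) := by
    intro X
    by_cases hX : X ∈ S
    · obtain ⟨x, hx, hxe⟩ := hrel X hX
      exact ⟨⟨x, hx⟩, fun _ => hxe⟩
    · exact ⟨1, fun h => absurd h hX⟩
  choose f hf using hch
  rw [Nat.card_eq_fintype_card, ← Finset.card_univ]
  refine Finset.card_le_card_of_injOn f (fun _ _ => Finset.mem_coe.mpr (Finset.mem_univ _)) ?_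
  intro X hX Y hY hXY
  have hX' := Finset.mem_coe.mp hX
  have hY' := Finset.mem_coe.mp hY
  have h1 := hf X hX'
  have h2 := hf Y hY'
  rw [hXY] at h1
  have h3 : ((X.1 * Y.2 : ℕ) : ZMod q) = ((Y.1 * X.2 : ℕ) : ZMod q) := by
    push_cast
    rw [h1, h2]
    ring
  have h4 : X.1 * Y.2 < q := lt_of_le_of_lt (Nat.mul_le_mul (hZ X hX').1 (hZ Y hY').2) hZq
  have h5 : Y.1 * X.2 < q := lt_of_le_of_lt (Nat.mul_le_mul (hZ Y hY').1 (hZ X hX').2) hZq
  have h6 : X.1 * Y.2 = Y.1 * X.2 := by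
    have h7 := (ZMod.natCast_eq_natCast_iff' _ _ _).mp h3
    rwa [Nat.mod_eq_of_lt h4, Nat.mod_eq_of_lt h5] at h7
  have h7 : X.1 ∣ Y.1 := (hcop X hX').dvd_of_dvd_mul_right (Dvd.intro _ h6)
  have h8 : Y.1 ∣ X.1 := (hcop Y hY').dvd_of_dvd_mul_right (Dvd.intro _ h6.symm)
  have h9 : X.1 = Y.1 := Nat.dvd_antisymm h7 h8
  have h10 : X.2 = Y.2 := by
    rw [h9] at h6
    exact (Nat.eq_of_mul_eq_mul_left (hpos Y hY').1 h6).symm
  exact Prod.ext h9 h10

/-- a cluster of relations -/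
structure Obj (K : Subgroup (ZMod q)ˣ) (E0 : Finset ℕ) (M1 M2 : ℝ) (V : Finset ℕ)
    (A : Finset (ℕ × ℕ)) : Prop where
  prime : ∀ p ∈ V, p.Prime ∧ p < q ∧ p ∉ E0
  ne : A.Nonempty
  pos : ∀ a ∈ A, 0 < a.1 ∧ 0 < a.2
  cop : ∀ a ∈ A, Nat.Coprime a.1 a.2
  rel : ∀ a ∈ A, Rel K a.1 a.2
  sup : ∀ a ∈ A, pr a ⊆ V
  ht : ∀ a ∈ A, Real.log a.1 ≤ M1 * Real.log A.card ∧ Real.log a.2 ≤ M1 * Real.log A.card
  cardV : (V.card : ℝ) ≤ M2 * Real.log A.card

theorem Obj.trivial (K : Subgroup (ZMod q)ˣ) (E0 : Finset ℕ) (M1 M2 : ℝ) :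
    Obj K E0 M1 M2 ∅ {(1, 1)} where
  prime := by simp
  ne := Finset.singleton_nonempty _
  pos := by simp
  cop := by simp
  rel := by
    intro a ha
    rw [Finset.mem_singleton] at ha
    subst ha
    exact ⟨1, K.one_mem, by simp⟩
  sup := by simp [pr]
  ht := by simp
  cardV := by simp

theorem Obj.card_le {K : Subgroup (ZMod q)ˣ} {E0 : Finset ℕ} {M1 M2 : ℝ} {V : Finset ℕ}
    {A : Finset (ℕ × ℕ)} (h : Obj K E0 M1 M2 V A)
    (hA : 2 * (M1 * Real.log A.card) < Real.log q) : A.card ≤ Nat.card K := by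
  set Z : ℕ := ⌊Real.exp (M1 * Real.log A.card)⌋₊ with hZ
  have hq0 : (0 : ℝ) < q := by exact_mod_cast hq.out.pos
  refine card_le_K K A Z h.pos h.cop h.rel ?_ ?_
  · intro X hX
    have h1 := h.ht X hX
    have h2 := h.pos X hX
    constructor
    · apply Nat.le_floor
      rw [← Real.log_le_iff_le_exp (by exact_mod_cast h2.1)]
      exact h1.1
    · apply Nat.le_floor
      rw [← Real.log_le_iff_le_exp (by exact_mod_cast h2.2)]
      exact h1.2
  · have h1 : (Z : ℝ) ≤ Real.exp (M1 * Real.log A.card) := Nat.floor_le (Real.exp_pos _).le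
    have h2 : (Z : ℝ) * Z < q := by
      calc (Z : ℝ) * Z ≤ Real.exp (M1 * Real.log A.card) * Real.exp (M1 * Real.log A.card) := by
            gcongr
        _ = Real.exp (2 * (M1 * Real.log A.card)) := by
            rw [← Real.exp_add]
            congr 1
            ring
        _ < Real.exp (Real.log q) := Real.exp_lt_exp.mpr hA
        _ = q := Real.exp_log hq0
    exact_mod_cast h2

theorem Obj.mul {K : Subgroup (ZMod q)ˣ} {E0 : Finset ℕ} {M1 M2 : ℝ} {V V' : Finset ℕ}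
    {A A' : Finset (ℕ × ℕ)} (h : Obj K E0 M1 M2 V A) (h' : Obj K E0 M1 M2 V' A')
    (hV : Disjoint V V') : (A * A').card = A.card * A'.card ∧ Obj K E0 M1 M2 (V ∪ V') (A * A') := by
  have hcross : ∀ a ∈ A, ∀ a' ∈ A', Nat.Coprime a.1 a'.1 ∧ Nat.Coprime a.1 a'.2 ∧
      Nat.Coprime a.2 a'.1 ∧ Nat.Coprime a.2 a'.2 := by
    intro a ha a' ha'
    have h1 := h.pos a ha
    have h2 := h'.pos a' ha'
    have key : ∀ x y : ℕ, x ≠ 0 → y ≠ 0 → x.primeFactors ⊆ V → y.primeFactors ⊆ V' →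
        Nat.Coprime x y := by
      intro x y hx hy hx' hy'
      rw [← Nat.disjoint_primeFactors hx hy]
      exact Finset.disjoint_of_subset_left hx' (Finset.disjoint_of_subset_right hy' hV)
    have s1 : a.1.primeFactors ⊆ V := Finset.subset_union_left.trans (h.sup a ha)
    have s2 : a.2.primeFactors ⊆ V := Finset.subset_union_right.trans (h.sup a ha)
    have s3 : a'.1.primeFactors ⊆ V' := Finset.subset_union_left.trans (h'.sup a' ha')
    have s4 : a'.2.primeFactors ⊆ V' := Finset.subset_union_right.trans (h'.sup a' ha')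
    exact ⟨key _ _ h1.1.ne' h2.1.ne' s1 s3, key _ _ h1.1.ne' h2.2.ne' s1 s4,
      key _ _ h1.2.ne' h2.1.ne' s2 s3, key _ _ h1.2.ne' h2.2.ne' s2 s4⟩
  have hsep : ∀ x y x' y' : ℕ, 0 < x → 0 < x' → Nat.Coprime x y' → Nat.Coprime x' y →
      x * y = x' * y' → x = x' := by
    intro x y x' y' hx hx' h1 h2 h3
    exact Nat.dvd_antisymm (h1.dvd_of_dvd_mul_right (Dvd.intro _ h3))
      (h2.dvd_of_dvd_mul_right (Dvd.intro _ h3.symm))
  have hcard : (A * A').card = A.card * A'.card := by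
    rw [Finset.card_mul_iff]
    intro x hx y hy hxy
    rw [Set.mem_prod, Finset.mem_coe, Finset.mem_coe] at hx hy
    have e : x.1 * x.2 = y.1 * y.2 := hxy
    have e1 : x.1.1 * x.2.1 = y.1.1 * y.2.1 := congrArg Prod.fst e
    have e2 : x.1.2 * x.2.2 = y.1.2 * y.2.2 := congrArg Prod.snd e
    have c1 := hcross x.1 hx.1 y.2 hy.2
    have c2 := hcross y.1 hy.1 x.2 hx.2
    have p1 := h.pos x.1 hx.1
    have p2 := h.pos y.1 hy.1
    have f1 : x.1.1 = y.1.1 := hsep _ _ _ _ p1.1 p2.1 c1.1 c2.1 e1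
    have f2 : x.1.2 = y.1.2 := hsep _ _ _ _ p1.2 p2.2 c1.2.2.2 c2.2.2.2 e2
    rw [f1] at e1
    rw [f2] at e2
    exact Prod.ext (Prod.ext f1 f2) (Prod.ext (Nat.eq_of_mul_eq_mul_left p2.1 e1)
      (Nat.eq_of_mul_eq_mul_left p2.2 e2))
  refine ⟨hcard, ?_⟩
  have hA0 : (0 : ℝ) < A.card := by exact_mod_cast h.ne.card_pos
  have hA0' : (0 : ℝ) < A'.card := by exact_mod_cast h'.ne.card_pos
  have hlog : Real.log ((A * A').card : ℝ) = Real.log A.card + Real.log A'.card := by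
    rw [hcard, Nat.cast_mul, Real.log_mul hA0.ne' hA0'.ne']
  constructor
  · intro p hp
    rw [Finset.mem_union] at hp
    rcases hp with hp | hp
    · exact h.prime p hp
    · exact h'.prime p hp
  · exact h.ne.mul h'.ne
  · intro x hx
    obtain ⟨a, ha, a', ha', rfl⟩ := Finset.mem_mul.mp hx
    exact ⟨Nat.mul_pos (h.pos a ha).1 (h'.pos a' ha').1, Nat.mul_pos (h.pos a ha).2 (h'.pos a' ha').2⟩
  · intro x hx
    obtain ⟨a, ha, a', ha', rfl⟩ := Finset.mem_mul.mp hx
    have c := hcross a ha a' ha'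
    rw [Prod.fst_mul, Prod.snd_mul]
    exact Nat.Coprime.mul_left (Nat.Coprime.mul_right (h.cop a ha) c.2.1)
      (Nat.Coprime.mul_right c.2.2.1.symm (h'.cop a' ha'))
  · intro x hx
    obtain ⟨a, ha, a', ha', rfl⟩ := Finset.mem_mul.mp hx
    exact Rel_mul (h.rel a ha) (h'.rel a' ha')
  · intro x hx
    obtain ⟨a, ha, a', ha', rfl⟩ := Finset.mem_mul.mp hx
    have h1 := h.pos a ha
    have h2 := h'.pos a' ha'
    unfold pr
    rw [Prod.fst_mul, Prod.snd_mul, Nat.primeFactors_mul h1.1.ne' h2.1.ne',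
      Nat.primeFactors_mul h1.2.ne' h2.2.ne']
    have s := h.sup a ha
    have s' := h'.sup a' ha'
    unfold pr at s s'
    apply Finset.union_subset
    · exact Finset.union_subset_union (Finset.subset_union_left.trans s)
        (Finset.subset_union_left.trans s')
    · exact Finset.union_subset_union (Finset.subset_union_right.trans s)
        (Finset.subset_union_right.trans s')
  · intro x hx
    obtain ⟨a, ha, a', ha', rfl⟩ := Finset.mem_mul.mp hx
    have h1 := h.pos a ha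
    have h2 := h'.pos a' ha'
    have h3 := h.ht a ha
    have h4 := h'.ht a' ha'
    have g1 : (0 : ℝ) < a.1 := by exact_mod_cast h1.1
    have g2 : (0 : ℝ) < a.2 := by exact_mod_cast h1.2
    have g3 : (0 : ℝ) < a'.1 := by exact_mod_cast h2.1
    have g4 : (0 : ℝ) < a'.2 := by exact_mod_cast h2.2
    rw [hlog, Prod.fst_mul, Prod.snd_mul, Nat.cast_mul, Nat.cast_mul,
      Real.log_mul g1.ne' g3.ne', Real.log_mul g2.ne' g4.ne', mul_add]
    exact ⟨add_le_add h3.1 h4.1, add_le_add h3.2 h4.2⟩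
  · rw [hlog, mul_add]
    have h1 : ((V ∪ V').card : ℝ) ≤ (V.card : ℝ) + V'.card := by
      exact_mod_cast Finset.card_union_le V V'
    linarith [h.cardV, h'.cardV]

/-- **The structure lemma.** -/
theorem structure_lemma (K : Subgroup (ZMod q)ˣ) (E0 : Finset ℕ) (lam μ ρ : ℝ) (R : ℕ)
    (hlam : 0 < lam) (hμ : 0 ≤ μ) (hρ : 1 ≤ ρ) (hR : (R + 1) * lam < Real.log 2)
    (hρR : Real.log (Nat.card K) / lam + 1 ≤ ρ ^ R)
    (hL : 8 * (Real.log (Nat.card K) * (μ / lam)) ≤ Real.log q) :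
    ∃ V : Finset ℕ, (∀ p ∈ V, p.Prime ∧ p < q) ∧
      (V.card : ℝ) ≤ (2 * ρ / lam) * Real.log (Nat.card K) ∧
      ∀ (F : Finset (ℕ × ℕ)) (t Z : ℕ), 1 ≤ t → (∀ X ∈ F, 0 < X.1 ∧ 0 < X.2) →
        (∀ X ∈ F, Nat.Coprime X.1 X.2) → (∀ X ∈ F, Rel K X.1 X.2) →
        (∀ X ∈ F, ArithmeticFunction.cardFactors X.1 + ArithmeticFunction.cardFactors X.2 = t) →
        (∀ X ∈ F, X.1 ≤ Z ∧ X.2 ≤ Z) → (∀ X ∈ F, ∀ p ∈ E0 ∪ V, p ∉ pr X) →
        Real.log Z ≤ t * μ → 8 * Real.log Z ≤ Real.log q → 1 ≤ Z → F.card < 4 ^ t := by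
  classical
  have hq1 : 1 < q := hq.out.one_lt
  have hq0 : (0 : ℝ) < q := by exact_mod_cast hq.out.pos
  have hlq : 0 < Real.log q := Real.log_pos (by exact_mod_cast hq1)
  set d : ℝ := Real.log (Nat.card K) with hd
  have hKpos : 0 < Nat.card K := Nat.card_pos
  have hK0 : (0 : ℝ) < Nat.card K := by exact_mod_cast hKpos
  have hd0 : 0 ≤ d := Real.log_natCast_nonneg _
  set M1 : ℝ := μ / lam with hM1
  set M2 : ℝ := 2 * ρ / lam with hM2
  have hM10 : 0 ≤ M1 := by positivity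
  have hM20 : 0 < M2 := by positivity
  -- a maximal cluster
  set G : Finset ℕ := (Finset.range (Nat.card K + 1)).filter fun N =>
    ∃ V A, Obj K E0 M1 M2 V A ∧ A.card = N with hG
  have hGne : G.Nonempty := by
    refine ⟨1, ?_⟩
    rw [hG, Finset.mem_filter, Finset.mem_range]
    exact ⟨by omega, ∅, {(1, 1)}, Obj.trivial K E0 M1 M2, by simp⟩
  have hmax := G.max'_mem hGne
  set N := G.max' hGne with hN
  rw [hG, Finset.mem_filter, Finset.mem_range] at hmax
  obtain ⟨hNK, V, A, hO, hAN⟩ := hmax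
  have hlogle : ∀ n : ℕ, 0 < n → n ≤ Nat.card K → Real.log n ≤ d := by
    intro n hn hnK
    apply Real.log_le_log (by exact_mod_cast hn)
    exact_mod_cast hnK
  have hAK : A.card ≤ Nat.card K := by omega
  have hA0 : 0 < A.card := hO.ne.card_pos
  refine ⟨V, fun p hp => ⟨(hO.prime p hp).1, (hO.prime p hp).2.1⟩, ?_, ?_⟩
  · exact hO.cardV.trans (mul_le_mul_of_nonneg_left (hlogle _ hA0 hAK) hM20.le)
  intro F t Z ht1 hpos hcop hrel hΩ hZ hE hZμ hZq hZ1
  by_contra hcon
  push Not at hcon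
  have ht0 : (0 : ℝ) < t := by exact_mod_cast ht1
  have ht1' : (1 : ℝ) ≤ t := by exact_mod_cast ht1
  have hZ0 : (0 : ℝ) < Z := by exact_mod_cast hZ1
  have hlZ : 0 ≤ Real.log Z := Real.log_natCast_nonneg _
  -- a compatible subfamily
  obtain ⟨P, hP⟩ := exists_compat F t hcop (by
    intro x hx
    rw [← hΩ x hx]
    exact Nat.add_le_add (List.toFinset_card_le _) (List.toFinset_card_le _))
  set S := F.filter fun x => Compat P x with hS
  have hScard : 2 ^ t ≤ S.card := by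
    have h1 : 4 ^ t = 2 ^ t * 2 ^ t := by
      rw [← mul_pow]
      norm_num
    have h2 : 2 ^ t * 2 ^ t ≤ 2 ^ t * S.card := by
      rw [← h1]
      exact hcon.trans hP
    exact Nat.le_of_mul_le_mul_left h2 (by positivity)
  have hSF : ∀ X ∈ S, X ∈ F ∧ Compat P X := fun X hX => Finset.mem_filter.mp hX
  have hSpos : ∀ X ∈ S, 0 < X.1 ∧ 0 < X.2 := fun X hX => hpos X (hSF X hX).1
  -- parameters of the extraction
  set b : ℝ := Real.exp (t * lam) with hb
  have hb1 : 1 < b := by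
    rw [hb]
    exact Real.one_lt_exp_iff.mpr (by positivity)
  set k : ℕ := ⌊d / (t * lam)⌋₊ + 1 with hk
  have hk1 : d / (t * lam) < k := by
    rw [hk]
    push_cast
    exact Nat.lt_floor_add_one _
  have hk2 : (k : ℝ) ≤ d / (t * lam) + 1 := by
    rw [hk]
    push_cast
    have := Nat.floor_le (show 0 ≤ d / (t * lam) by positivity)
    linarith
  have hDk : (Nat.card K : ℝ) < b ^ k := by
    rw [hb, ← Real.exp_nat_mul, ← Real.exp_log hK0]
    apply Real.exp_lt_exp.mpr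
    rw [div_lt_iff₀ (by positivity)] at hk1
    linarith
  have hkρ : (k : ℝ) ≤ ρ ^ R := by
    refine hk2.trans (le_trans ?_ hρR)
    have : d / (t * lam) ≤ d / lam := by
      apply div_le_div_of_nonneg_left hd0 hlam
      nlinarith
    linarith
  have hZk : ∀ j ≤ k, Z ^ j * Z ^ j < q := by
    intro j hj
    have h1 : Real.log ((Z : ℝ) ^ j * (Z : ℝ) ^ j) < Real.log q := by
      rw [Real.log_mul (by positivity) (by positivity), Real.log_pow]
      have h2 : (j : ℝ) * Real.log Z ≤ k * Real.log Z := by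
        apply mul_le_mul_of_nonneg_right _ hlZ
        exact_mod_cast hj
      have h3 : (k : ℝ) * Real.log Z ≤ (d / (t * lam) + 1) * Real.log Z :=
        mul_le_mul_of_nonneg_right hk2 hlZ
      have h4 : d / (t * lam) * Real.log Z ≤ d * M1 := by
        calc d / (t * lam) * Real.log Z ≤ d / (t * lam) * (t * μ) := by gcongr
          _ = d * M1 := by
              rw [hM1]
              field_simp
      nlinarith
    have h5 := (Real.log_lt_log_iff (by positivity) hq0).mp h1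
    exact_mod_cast h5
  have hTj : ∀ T ⊆ S, ∀ j ≤ k, (T ^ j).card ≤ Nat.card K := by
    intro T hT j hj
    have hTpos : ∀ X ∈ T, 0 < X.1 ∧ 0 < X.2 := fun X hX => hSpos X (hT hX)
    have c1 := pow_pos' T hTpos j
    have c2 := compat_pow T P hTpos (fun X hX => (hSF X (hT hX)).2) j
    refine card_le_K K (T ^ j) (Z ^ j) c1 (fun X hX => compat_coprime (c1 X hX).1.ne'
      (c1 X hX).2.ne' (c2 X hX)) (Rel_pow T (fun X hX => hrel X (hSF X (hT hX)).1) j)
      (le_pow' T Z (fun X hX => hZ X (hSF X (hT hX)).1) j) (hZk j hj)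
  have hSb : b ^ (R + 1) < S.card := by
    have h1 : b ^ (R + 1) < (2 : ℝ) ^ t := by
      rw [hb, ← Real.exp_nat_mul]
      have h2 : (2 : ℝ) ^ t = Real.exp (t * Real.log 2) := by
        rw [Real.exp_nat_mul, Real.exp_log (by norm_num)]
      rw [h2]
      apply Real.exp_lt_exp.mpr
      push_cast
      calc ((R : ℝ) + 1) * (t * lam) = t * ((R + 1) * lam) := by ring
        _ < t * Real.log 2 := mul_lt_mul_of_pos_left hR ht0
    refine lt_of_lt_of_le h1 ?_
    exact_mod_cast hScard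
  obtain ⟨T, hT, j, hj1, hjk, hbj, V', hsup, hV', hcV'⟩ := extract S hSpos t
    (fun X hX => hΩ X (hSF X hX).1) b (Nat.card K) ρ hb1 hρ k R
    (fun T hT => by exact_mod_cast hTj T hT k le_rfl) hDk hkρ hSb
  -- the new cluster
  have hTpos : ∀ X ∈ T, 0 < X.1 ∧ 0 < X.2 := fun X hX => hSpos X (hT hX)
  have c1 := pow_pos' T hTpos j
  have c2 := compat_pow T P hTpos (fun X hX => (hSF X (hT hX)).2) j
  have hbj1 : (1 : ℝ) < b ^ j := one_lt_pow₀ hb1 (by omega)
  have hTj0 : 0 < (T ^ j).card := by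
    have : (0 : ℝ) < (T ^ j).card := by linarith
    exact_mod_cast this
  have hlogT : (j : ℝ) * (t * lam) ≤ Real.log ((T ^ j).card : ℝ) := by
    have h1 := Real.log_le_log (by positivity) hbj
    rwa [Real.log_pow, hb, Real.log_exp] at h1
  have hVE : ∀ p ∈ V', p ∉ E0 ∪ V := by
    intro p hp hpE
    obtain ⟨Y, hY, hpY⟩ := hV' p hp
    exact hE Y (hSF Y hY).1 p hpE hpY
  have hO' : Obj K E0 M1 M2 V' (T ^ j) := by
    constructor
    · intro p hp
      obtain ⟨Y, hY, hpY⟩ := hV' p hp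
      have hYF := (hSF Y hY).1
      have hYpos := hpos Y hYF
      have hYZ := hZ Y hYF
      have hZltq : Z < q := by
        have := hZk 1 (by omega)
        rw [pow_one] at this
        nlinarith
      unfold pr at hpY
      rw [Finset.mem_union] at hpY
      have hpp : p.Prime ∧ p ≤ Z := by
        rcases hpY with h | h
        · exact ⟨Nat.prime_of_mem_primeFactors h,
            (Nat.le_of_dvd hYpos.1 (Nat.dvd_of_mem_primeFactors h)).trans hYZ.1⟩
        · exact ⟨Nat.prime_of_mem_primeFactors h,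
            (Nat.le_of_dvd hYpos.2 (Nat.dvd_of_mem_primeFactors h)).trans hYZ.2⟩
      refine ⟨hpp.1, lt_of_le_of_lt hpp.2 hZltq, fun h => ?_⟩
      exact hVE p hp (Finset.mem_union_left _ h)
    · exact Finset.card_pos.mp hTj0
    · exact c1
    · exact fun X hX => compat_coprime (c1 X hX).1.ne' (c1 X hX).2.ne' (c2 X hX)
    · exact Rel_pow T (fun X hX => hrel X (hSF X (hT hX)).1) j
    · intro a ha p hp
      obtain ⟨Y, hY, hpY⟩ := pr_pow T hTpos j a ha p hp
      exact hsup Y hY hpY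
    · intro a ha
      have h1 := le_pow' T Z (fun X hX => hZ X (hSF X (hT hX)).1) j a ha
      have h2 := c1 a ha
      have key : (j : ℝ) * Real.log Z ≤ M1 * Real.log ((T ^ j).card : ℝ) := by
        calc (j : ℝ) * Real.log Z ≤ j * (t * μ) := by gcongr
          _ = M1 * (j * (t * lam)) := by
              rw [hM1]
              field_simp
          _ ≤ _ := mul_le_mul_of_nonneg_left hlogT hM10
      constructor
      · refine le_trans ?_ key
        rw [← Real.log_pow]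
        apply Real.log_le_log (by exact_mod_cast h2.1)
        exact_mod_cast h1.1
      · refine le_trans ?_ key
        rw [← Real.log_pow]
        apply Real.log_le_log (by exact_mod_cast h2.2)
        exact_mod_cast h1.2
    · calc (V'.card : ℝ) ≤ 2 * ρ * j * t := hcV'
        _ = M2 * (j * (t * lam)) := by
            rw [hM2]
            field_simp
        _ ≤ _ := mul_le_mul_of_nonneg_left hlogT hM20.le
  have hdisj : Disjoint V V' := by
    rw [Finset.disjoint_right]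
    intro p hp hpV
    exact hVE p hp (Finset.mem_union_right _ hpV)
  obtain ⟨hcard, hO''⟩ := hO.mul hO' hdisj
  have hTK : (T ^ j).card ≤ Nat.card K := hTj T hT j hjk.le
  have hprod : (A * T ^ j).card ≤ Nat.card K := by
    apply hO''.card_le
    have h1 : Real.log ((A * T ^ j).card : ℝ) = Real.log A.card + Real.log ((T ^ j).card : ℝ) := by
      rw [hcard, Nat.cast_mul, Real.log_mul (by exact_mod_cast hA0.ne') (by exact_mod_cast hTj0.ne')]
    rw [h1]
    have h2 := hlogle _ hA0 hAK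
    have h3 := hlogle _ hTj0 hTK
    have h4 : M1 * (Real.log A.card + Real.log ((T ^ j).card : ℝ)) ≤ M1 * (d + d) :=
      mul_le_mul_of_nonneg_left (by linarith) hM10
    have h5 : 8 * (d * M1) ≤ Real.log q := hL
    nlinarith
  have hmem : (A * T ^ j).card ∈ G := by
    rw [hG, Finset.mem_filter, Finset.mem_range]
    exact ⟨by omega, V ∪ V', A * T ^ j, hO'', rfl⟩
  have hle := G.le_max' _ hmem
  rw [← hN, ← hAN, hcard] at hle
  have h2 : 2 ≤ (T ^ j).card := by
    have : (1 : ℝ) < (T ^ j).card := by linarith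
    exact_mod_cast this
  nlinarith

end Pool.Agent.H.MP_3e6494_nt.Str
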