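import Pool.Agent.H.MP_3e6494_nt.helper15.States

/-!
The resonance inequality evaluated on the state space.
-/

set_option autoImplicit false
set_option linter.unusedVariables false
set_option linter.unusedSectionVars false

open Finset

namespace Pool.Agent.H.MP_3e6494_nt.H15

variable {ι : Type} [Fintype ι] [DecidableEq ι]

/-- the integer attached to a state -/
def mm (q : ℕ) (x : ι → Finset ℕ × Finset ℕ) : ℕ := nu x * de x ^ (q - 2)

/-- the weight of a state -/
noncomputable def ff (x : ι → Finset ℕ × Finset ℕ) : ℝ := 1 / Real.sqrt ((nu x : ℝ) * (de x : ℝ))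

theorem ff_nonneg (x : ι → Finset ℕ × Finset ℕ) : 0 ≤ ff x := by
  unfold ff
  positivity

theorem ff_sq (x : ι → Finset ℕ × Finset ℕ) : ff x ^ 2 = 1 / ((nu x : ℝ) * (de x : ℝ)) := by
  unfold ff
  rw [div_pow, Real.sq_sqrt (by positivity), one_pow]

theorem sum_ff_sq (P : ι → Finset ℕ) (j j' : ι → ℕ) :
    ∑ x ∈ FS P j j', ff x ^ 2 = ∏ k, ES (P k) (j k) (j' k) := by
  rw [← sum_FS]
  exact Finset.sum_congr rfl fun x _ => ff_sq x

theorem sum_ff_le (P : ι → Finset ℕ) (j j' : ι → ℕ) :
    ∑ x ∈ FS P j j', ff x ≤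
      Real.sqrt ((FS P j j').card : ℝ) * Real.sqrt (∏ k, ES (P k) (j k) (j' k)) := by
  rw [← sum_ff_sq, ← Real.sqrt_mul (Nat.cast_nonneg _)]
  apply Real.le_sqrt_of_sq_le
  exact sq_sum_le_card_mul_sum_sq

theorem choose_le_choose_of_le {n J i : ℕ} (hJ : 2 * J ≤ n) : n.choose (J - i) ≤ n.choose J := by
  have key : ∀ d, d ≤ J → n.choose (J - d) ≤ n.choose J := by
    intro d
    induction d with
    | zero => intro _; simp
    | succ d ih =>
      intro hd
      have h1 : J - d = (J - (d + 1)) + 1 := by omega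
      have h2 := ih (by omega)
      rw [h1] at h2
      refine le_trans ?_ h2
      apply Nat.choose_le_succ_of_lt_half_left
      omega
  rcases le_total i J with h | h
  · exact key i h
  · have : J - i = J - J := by omega
    rw [this]
    exact key J le_rfl

theorem card_FS_le1 (P : ι → Finset ℕ) (J i : ι → ℕ) (hJ : ∀ k, 2 * J k ≤ (P k).card) :
    ((FS P J (fun k => J k - i k)).card : ℝ) ≤ ∏ k, ((P k).card.choose (J k) : ℝ) ^ 2 := by
  calc ((FS P J (fun k => J k - i k)).card : ℝ)
      ≤ ((∏ k, ((P k).card.choose (J k) * (P k).card.choose (J k - i k)) : ℕ) : ℝ) := by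
        exact_mod_cast card_FS_le P J (fun k => J k - i k)
    _ ≤ ((∏ k, ((P k).card.choose (J k) * (P k).card.choose (J k)) : ℕ) : ℝ) := by
        exact_mod_cast Finset.prod_le_prod' fun k _ =>
          Nat.mul_le_mul_left _ (choose_le_choose_of_le (hJ k))
    _ = ∏ k, ((P k).card.choose (J k) : ℝ) ^ 2 := by
        push_cast
        exact Finset.prod_congr rfl fun k _ => (sq _).symm

theorem card_FS_le2 (P : ι → Finset ℕ) (J i : ι → ℕ) (hJ : ∀ k, 2 * J k ≤ (P k).card) :
    ((FS P (fun k => J k - i k) J).card : ℝ) ≤ ∏ k, ((P k).card.choose (J k) : ℝ) ^ 2 := by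
  calc ((FS P (fun k => J k - i k) J).card : ℝ)
      ≤ ((∏ k, ((P k).card.choose (J k - i k) * (P k).card.choose (J k)) : ℕ) : ℝ) := by
        exact_mod_cast card_FS_le P (fun k => J k - i k) J
    _ ≤ ((∏ k, ((P k).card.choose (J k) * (P k).card.choose (J k)) : ℕ) : ℝ) := by
        exact_mod_cast Finset.prod_le_prod' fun k _ =>
          Nat.mul_le_mul_right _ (choose_le_choose_of_le (hJ k))
    _ = ∏ k, ((P k).card.choose (J k) : ℝ) ^ 2 := by
        push_cast
        exact Finset.prod_congr rfl fun k _ => (sq _).symm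

theorem ES_nonneg (P : Finset ℕ) (j j' : ℕ) : 0 ≤ ES P j j' := by
  unfold ES
  apply Finset.sum_nonneg
  intro x _
  positivity

/-- **Main inequality** -/
theorem main_ineq {q : ℕ} [Fact q.Prime] (H : Subgroup (DirichletCharacter ℂ q)) [Fintype H]
    (P : ι → Finset ℕ) (hP : ∀ k, ∀ p ∈ P k, p.Prime)
    (hdisj : ∀ k l, k ≠ l → Disjoint (P k) (P l)) (hPq : ∀ k, ∀ p ∈ P k, p < q)
    (Y : ι → ℕ) (hY : ∀ k, ∀ p ∈ P k, p ≤ Y k)
    (J i : ι → ℕ) (hJ : ∀ k, 2 * J k ≤ (P k).card)
    (hsize : (∏ k, Y k ^ i k) * (∏ k, Y k ^ i k) < q)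
    (W : ℕ → ℂ)
    (hW : ∀ n ∈ Finset.Icc 1 (q - 1), 1 / Real.sqrt n ≤ (W n).re) (A : ℝ)
    (hA : ∑ n ∈ Finset.Icc 1 (q - 1), ‖W n‖ ≤ A) (B : ℝ) (hB0 : 0 ≤ B)
    (hB : ∀ χ : H, χ ≠ 1 → ‖∑ n ∈ Finset.Icc 1 (q - 1), W n * ev H n χ‖ ≤ B) :
    (Fintype.card H : ℝ) *
        ((∏ k, ((J k).choose (i k) : ℝ) ^ 2) * ∏ k, ES (P k) (J k) (J k)) ≤
      (A * (∏ k, ((P k).card.choose (J k) : ℝ) ^ 2) + B * (Fintype.card H : ℝ)) *
        ∏ k, ES (P k) (J k) (J k - i k) := by
  classical
  have hq : q.Prime := Fact.out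
  have hcop : ∀ (T : ι → Finset ℕ), (∀ k, T k ⊆ P k) → (Phi T).Coprime q := fun T hT =>
    Phi_coprime hP hq hPq hT
  have hmm : ∀ (j j' : ι → ℕ), ∀ x ∈ FS P j j', (mm q x).Coprime q := by
    intro j j' x hx
    have hx' := mem_FS.mp hx
    apply Nat.Coprime.mul_left
    · exact hcop _ fun k => (hx' k).1.1
    · exact Nat.Coprime.pow_left _ (hcop _ fun k => (hx' k).2.1.1)
  have hA0 : 0 ≤ A := le_trans (Finset.sum_nonneg fun n _ => norm_nonneg _) hA
  have key := resonance H (FS P (fun k => J k - i k) J) (FS P J (fun k => J k - i k))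
    (mm q) (mm q) ff ff (hmm _ _) (hmm _ _) (fun s _ => ff_nonneg s) (fun s _ => ff_nonneg s)
    ((ZZ P J i).image tri) ?_ ?_ ?_ W hW A hA B hB0 hB
  · -- evaluate the left side
    have hleft : ∑ ω ∈ (ZZ P J i).image tri, (1 / Real.sqrt ω.1) * (ff ω.2.1 * ff ω.2.2) =
        (∏ k, ((J k).choose (i k) : ℝ) ^ 2) * ∏ k, ES (P k) (J k) (J k) := by
      rw [Finset.sum_image]
      · rw [ZZ, Finset.sum_sigma, ← sum_FS, Finset.mul_sum]
        apply Finset.sum_congr rfl
        intro x hx
        have hterm : ∀ y ∈ YY i x, (1 / Real.sqrt ((tri ⟨x, y⟩).1 : ℕ)) *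
            (ff (tri ⟨x, y⟩).2.1 * ff (tri ⟨x, y⟩).2.2) = 1 / ((nu x : ℝ) * (de x : ℝ)) := by
          intro y hy
          simp only [tri]
          have e1 : nu (tgt x y) = nu x := rfl
          have e2 : de (src x y) = de x := rfl
          have e3 := nu_src hx hy
          have e4 := de_tgt hx hy
          have hx0 := mem_FS.mp hx
          have hy0 := mem_YY.mp hy
          have p1 : 0 < nu x := Phi_pos hP fun k => (hx0 k).1.1
          have p2 : 0 < de x := Phi_pos hP fun k => (hx0 k).2.1.1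
          have p1' : (0 : ℝ) < nu x := by exact_mod_cast p1
          have p2' : (0 : ℝ) < de x := by exact_mod_cast p2
          unfold ff
          rw [e1, e2]
          have e3' : (nu (src x y) : ℝ) * (nu y : ℝ) = nu x := by exact_mod_cast e3
          have e4' : (de (tgt x y) : ℝ) * (de y : ℝ) = de x := by exact_mod_cast e4
          have h5 : Real.sqrt ((nu y * de y : ℕ) : ℝ) *
              (Real.sqrt ((nu (src x y) : ℝ) * (de x : ℝ)) *
                Real.sqrt ((nu x : ℝ) * (de (tgt x y) : ℝ))) = (nu x : ℝ) * (de x : ℝ) := by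
            rw [← Real.sqrt_mul (by positivity), ← Real.sqrt_mul (by positivity)]
            have : ((nu y * de y : ℕ) : ℝ) * ((nu (src x y) : ℝ) * (de x : ℝ) *
                ((nu x : ℝ) * (de (tgt x y) : ℝ))) = ((nu x : ℝ) * (de x : ℝ)) ^ 2 := by
              push_cast
              calc (nu y : ℝ) * de y * (nu (src x y) * de x * (nu x * de (tgt x y))) =
                  (nu (src x y) * nu y) * (de (tgt x y) * de y) * (nu x * de x) := by ring
                _ = _ := by rw [e3', e4']; ring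
            rw [this, Real.sqrt_sq (by positivity)]
          rw [← h5]
          have hne : (nu x : ℝ) * (de x : ℝ) ≠ 0 := (mul_pos p1' p2').ne'
          rw [← h5] at hne
          have n1 := left_ne_zero_of_mul hne
          have n2 := right_ne_zero_of_mul hne
          have n3 := left_ne_zero_of_mul n2
          have n4 := right_ne_zero_of_mul n2
          field_simp
        rw [Finset.sum_congr rfl hterm, Finset.sum_const, card_YY hx, nsmul_eq_mul]
        push_cast
        ring
      · intro z hz w hw hzw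
        exact tri_inj1 hP hdisj hz hw (by rw [hzw]) (by rw [hzw])
    rw [hleft] at key
    refine key.trans ?_
    -- right side
    set E1 := ∏ k, ES (P k) (J k) (J k - i k) with hE1
    have hE0 : 0 ≤ E1 := Finset.prod_nonneg fun k _ => ES_nonneg _ _ _
    have s1 : ∑ s ∈ FS P (fun k => J k - i k) J, ff s ^ 2 = E1 := by
      rw [sum_ff_sq, hE1]
      exact Finset.prod_congr rfl fun k _ => ES_comm _ _ _
    have s2 : ∑ s ∈ FS P J (fun k => J k - i k), ff s ^ 2 = E1 := by
      rw [sum_ff_sq, hE1]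
    rw [s1, s2, Real.mul_self_sqrt hE0]
    set N := ∏ k, ((P k).card.choose (J k) : ℝ) ^ 2 with hN
    have hN0 : 0 ≤ N := Finset.prod_nonneg fun k _ => sq_nonneg _
    have b1 : ∑ s ∈ FS P (fun k => J k - i k) J, ff s ≤ Real.sqrt N * Real.sqrt E1 := by
      have := sum_ff_le P (fun k => J k - i k) J
      rw [← sum_ff_sq, s1] at this
      exact this.trans (by gcongr; exact card_FS_le2 P J i hJ)
    have b2 : ∑ s ∈ FS P J (fun k => J k - i k), ff s ≤ Real.sqrt N * Real.sqrt E1 := by
      have := sum_ff_le P J (fun k => J k - i k)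
      rw [← sum_ff_sq, s2] at this
      exact this.trans (by gcongr; exact card_FS_le1 P J i hJ)
    have c1 : 0 ≤ ∑ s ∈ FS P (fun k => J k - i k) J, ff s :=
      Finset.sum_nonneg fun s _ => ff_nonneg s
    have c2 : 0 ≤ ∑ s ∈ FS P J (fun k => J k - i k), ff s :=
      Finset.sum_nonneg fun s _ => ff_nonneg s
    have hprod : (∑ s ∈ FS P (fun k => J k - i k) J, ff s) *
        (∑ s ∈ FS P J (fun k => J k - i k), ff s) ≤ N * E1 := by
      calc _ ≤ (Real.sqrt N * Real.sqrt E1) * (Real.sqrt N * Real.sqrt E1) := by gcongr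
        _ = (Real.sqrt N * Real.sqrt N) * (Real.sqrt E1 * Real.sqrt E1) := by ring
        _ = N * E1 := by rw [Real.mul_self_sqrt hN0, Real.mul_self_sqrt hE0]
    calc A * ((∑ s ∈ FS P (fun k => J k - i k) J, ff s) *
          (∑ s ∈ FS P J (fun k => J k - i k), ff s)) + B * ((Fintype.card H : ℝ) * E1) ≤
        A * (N * E1) + B * ((Fintype.card H : ℝ) * E1) := by gcongr
      _ = (A * N + B * (Fintype.card H : ℝ)) * E1 := by ring
  · -- membership
    intro ω hω
    rw [Finset.mem_image] at hω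
    obtain ⟨⟨x, y⟩, hz, rfl⟩ := hω
    rw [mem_ZZ] at hz
    obtain ⟨hx, hy⟩ := hz
    simp only at hx hy
    have hx0 := mem_FS.mp hx
    have hy0 := mem_YY.mp hy
    refine ⟨?_, src_mem hx hy, tgt_mem hx hy, ?_⟩
    · simp only [tri]
      rw [Finset.mem_Icc]
      have l1 : nu y ≤ ∏ k, Y k ^ i k := by
        apply Phi_le
        · intro k p hp
          exact hY k p ((hx0 k).1.1 ((hy0 k).1.1 hp))
        · intro k
          exact (hy0 k).1.2
      have l2 : de y ≤ ∏ k, Y k ^ i k := by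
        apply Phi_le
        · intro k p hp
          exact hY k p ((hx0 k).2.1.1 ((hy0 k).2.1 hp))
        · intro k
          exact (hy0 k).2.2
      have l3 : 0 < nu y := Phi_pos hP fun k => (hy0 k).1.1.trans (hx0 k).1.1
      have l4 : 0 < de y := Phi_pos hP fun k => (hy0 k).2.1.trans (hx0 k).2.1.1
      have l5 : nu y * de y ≤ (∏ k, Y k ^ i k) * (∏ k, Y k ^ i k) := Nat.mul_le_mul l1 l2
      have l6 : 0 < nu y * de y := Nat.mul_pos l3 l4
      omega
    · simp only [tri, mm]
      have e1 : nu (tgt x y) = nu x := rfl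
      have e2 : de (src x y) = de x := rfl
      have hyc : (de y).Coprime q := hcop _ fun k => (hy0 k).2.1.trans (hx0 k).2.1.1
      rw [e1, e2]
      have e5 : nu y * de y * (nu (src x y) * de x ^ (q - 2)) =
          (nu x * de (tgt x y) ^ (q - 2)) * (de y * de y ^ (q - 2)) := by
        rw [← nu_src hx hy]
        conv_lhs => rw [← de_tgt hx hy, mul_pow]
        ring
      rw [e5, ev_mul H (nu x * de (tgt x y) ^ (q - 2)) (de y * de y ^ (q - 2)),
        ev_fermat H hyc, mul_one]
  · intro u hu v hv h1 h2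
    rw [Finset.mem_image] at hu hv
    obtain ⟨z, hz, rfl⟩ := hu
    obtain ⟨w, hw, rfl⟩ := hv
    rw [tri_inj1 hP hdisj hz hw h1 h2]
  · intro u hu v hv h1 h2
    rw [Finset.mem_image] at hu hv
    obtain ⟨z, hz, rfl⟩ := hu
    obtain ⟨w, hw, rfl⟩ := hv
    rw [tri_inj2 hP hdisj hz hw h1 h2]

end Pool.Agent.H.MP_3e6494_nt.H15
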