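import Mathlib

/-!
Binomial estimates for one block.
-/

set_option autoImplicit false

open Finset

namespace Pool.Agent.H.MP_3e6494_nt.H15

theorem choose_ratio (n J : ℕ) (hJ : J ≤ n) (i : ℕ) (hi : i ≤ J) :
    n.choose (J - i) * (n - J) ^ i ≤ n.choose J * J ^ i := by
  induction i with
  | zero => simp
  | succ i ih =>
    have ih' := ih (by omega)
    set j := J - (i + 1) with hj
    have hji : J - i = j + 1 := by omega
    rw [hji] at ih'
    have h1 : n.choose j * (n - j) = n.choose (j + 1) * (j + 1) := (Nat.choose_succ_right_eq n j).symm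
    calc n.choose j * (n - J) ^ (i + 1) = (n.choose j * (n - J)) * (n - J) ^ i := by ring
      _ ≤ (n.choose j * (n - j)) * (n - J) ^ i := by gcongr; omega
      _ = (j + 1) * (n.choose (j + 1) * (n - J) ^ i) := by rw [h1]; ring
      _ ≤ J * (n.choose J * J ^ i) := by gcongr; omega
      _ = n.choose J * J ^ (i + 1) := by ring

theorem choose_le_exp (n J : ℕ) (hJ : 0 < J) :
    (n.choose J : ℝ) ≤ (Real.exp 1 * n / J) ^ J := by
  have h1 : (n.choose J : ℝ) ≤ (n : ℝ) ^ J / (J.factorial : ℝ) := Nat.choose_le_pow_div J n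
  have h2 : (J : ℝ) ^ J / (J.factorial : ℝ) ≤ Real.exp J := Real.pow_div_factorial_le_exp _ (by positivity) J
  have hJ' : (0 : ℝ) < J := by exact_mod_cast hJ
  have hf : (0 : ℝ) < (J.factorial : ℝ) := by exact_mod_cast J.factorial_pos
  have hJJ : (0 : ℝ) < (J : ℝ) ^ J := by positivity
  have h3 : 1 / (J.factorial : ℝ) ≤ Real.exp J / (J : ℝ) ^ J := by
    rw [le_div_iff₀ hJJ]
    calc 1 / (J.factorial : ℝ) * (J : ℝ) ^ J = (J : ℝ) ^ J / (J.factorial : ℝ) := by ring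
      _ ≤ Real.exp J := h2
  calc (n.choose J : ℝ) ≤ (n : ℝ) ^ J * (1 / (J.factorial : ℝ)) := by
        rw [mul_one_div]; exact h1
    _ ≤ (n : ℝ) ^ J * (Real.exp J / (J : ℝ) ^ J) := by gcongr
    _ = (Real.exp 1 * n / J) ^ J := by
        rw [div_pow, mul_pow, ← Real.exp_nat_mul, mul_one]
        ring

theorem choose_ge_pow (J i : ℕ) (hi : 1 ≤ i) (hiJ : 2 * i ≤ J) :
    ((J : ℝ) / (2 * i)) ^ i ≤ (J.choose i : ℝ) := by
  have hi' : (0 : ℝ) < i := by exact_mod_cast hi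
  have h1 : ((J + 1 - i : ℕ) ^ i : ℝ) ≤ (i.factorial * J.choose i : ℕ) := by
    have := Nat.pow_sub_le_descFactorial J i
    rw [Nat.descFactorial_eq_factorial_mul_choose] at this
    exact_mod_cast this
  have h2 : (i.factorial : ℝ) ≤ (i : ℝ) ^ i := by exact_mod_cast Nat.factorial_le_pow i
  have h3 : ((J : ℝ) / 2) ≤ ((J + 1 - i : ℕ) : ℝ) := by
    have : (J + 1 - i : ℕ) * 2 ≥ J := by omega
    have h' : (((J + 1 - i : ℕ) : ℝ)) * 2 ≥ J := by exact_mod_cast this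
    linarith
  have h4 : ((J : ℝ) / 2) ^ i ≤ (i : ℝ) ^ i * (J.choose i : ℝ) := by
    calc ((J : ℝ) / 2) ^ i ≤ ((J + 1 - i : ℕ) : ℝ) ^ i := by gcongr
      _ ≤ (i.factorial : ℝ) * (J.choose i : ℝ) := by
          have := h1
          push_cast at this ⊢
          exact this
      _ ≤ _ := by gcongr
  have h5 : ((J : ℝ) / (2 * i)) ^ i = ((J : ℝ) / 2) ^ i / (i : ℝ) ^ i := by
    rw [← div_pow]
    congr 1
    field_simp
  rw [h5, div_le_iff₀ (by positivity)]
  linarith [h4]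

/-- the gain of one block -/
theorem block_gain (n J i Y : ℕ) (hY : 0 < Y) (hi : 1 ≤ i) (hiJ : 2 * i ≤ J) (hJn : 2 * J ≤ n)
    (h : 2 * Real.exp 1 * i ≤ Real.sqrt ((J : ℝ) * n / (2 * Y))) :
    Real.exp i * Real.sqrt ((n.choose (J - i) : ℝ) * (n.choose J : ℝ)) * Real.sqrt Y ^ i ≤
      (n.choose J : ℝ) * (J.choose i : ℝ) := by
  have hJ0 : 0 < J := by omega
  have hn0 : 0 < n := by omega
  have hJr : (0 : ℝ) < J := by exact_mod_cast hJ0
  have hnr : (0 : ℝ) < n := by exact_mod_cast hn0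
  have hir : (0 : ℝ) < i := by exact_mod_cast hi
  have hYr : (0 : ℝ) < Y := by exact_mod_cast hY
  have hsY : 0 < Real.sqrt Y := Real.sqrt_pos.mpr hYr
  set a : ℝ := (n.choose (J - i) : ℝ) with ha
  set b : ℝ := (n.choose J : ℝ) with hb
  set c : ℝ := (J.choose i : ℝ) with hc
  have ha0 : 0 ≤ a := Nat.cast_nonneg _
  have hb0 : 0 ≤ b := Nat.cast_nonneg _
  have h1 : a * ((n : ℝ) / (2 * J)) ^ i ≤ b := by
    have h2 := choose_ratio n J (by omega) i (by omega)
    have h3 : a * ((n - J : ℕ) : ℝ) ^ i ≤ b * (J : ℝ) ^ i := by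
      rw [ha, hb]
      exact_mod_cast h2
    have h4 : (n : ℝ) / 2 ≤ ((n - J : ℕ) : ℝ) := by
      rw [Nat.cast_sub (by omega)]
      have : (2 : ℝ) * J ≤ n := by exact_mod_cast hJn
      linarith
    have h5 : a * ((n : ℝ) / 2) ^ i ≤ b * (J : ℝ) ^ i :=
      le_trans (by gcongr) h3
    have h6 : ((n : ℝ) / (2 * J)) ^ i = ((n : ℝ) / 2) ^ i / (J : ℝ) ^ i := by
      rw [← div_pow]
      congr 1
      field_simp
    rw [h6, ← mul_div_assoc, div_le_iff₀ (by positivity)]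
    exact h5
  -- sqrt (a*b) <= b * (sqrt (2J/n))^i
  set u : ℝ := Real.sqrt ((n : ℝ) / (2 * J)) with hu
  have hu0 : 0 < u := Real.sqrt_pos.mpr (by positivity)
  have hu2 : u ^ 2 = (n : ℝ) / (2 * J) := Real.sq_sqrt (by positivity)
  have h7 : Real.sqrt (a * b) * u ^ i ≤ b := by
    have h8 : Real.sqrt (a * b) * u ^ i = Real.sqrt (a * b * (u ^ i) ^ 2) := by
      have hab0 : 0 ≤ a * b := mul_nonneg ha0 hb0
      rw [Real.sqrt_mul hab0 ((u ^ i) ^ 2), Real.sqrt_sq (by positivity)]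
    rw [h8, Real.sqrt_le_left hb0]
    calc a * b * (u ^ i) ^ 2 = (a * (u ^ 2) ^ i) * b := by ring
      _ = (a * ((n : ℝ) / (2 * J)) ^ i) * b := by rw [hu2]
      _ ≤ b * b := by gcongr
      _ = b ^ 2 := by ring
  have h9 : ((J : ℝ) / (2 * i)) ^ i ≤ c := choose_ge_pow J i hi hiJ
  -- e <= u * J/(2i) / sqrt Y
  have h10 : Real.exp 1 * Real.sqrt Y ≤ u * ((J : ℝ) / (2 * i)) := by
    have h11 : Real.sqrt ((J : ℝ) * n / (2 * Y)) * Real.sqrt Y = u * J := by
      rw [hu, ← Real.sqrt_mul (by positivity)]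
      have : (J : ℝ) = Real.sqrt ((J : ℝ) ^ 2) := (Real.sqrt_sq hJr.le).symm
      conv_rhs => rw [this]
      rw [← Real.sqrt_mul (by positivity)]
      congr 1
      rw [Real.sqrt_sq hJr.le]
      field_simp
    have h12 : 2 * Real.exp 1 * i * Real.sqrt Y ≤ u * J := by
      rw [← h11]
      gcongr
    rw [mul_div_assoc', le_div_iff₀ (by positivity)]
    linarith
  calc Real.exp i * Real.sqrt (a * b) * Real.sqrt Y ^ i =
      Real.sqrt (a * b) * (Real.exp 1 * Real.sqrt Y) ^ i := by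
        rw [mul_pow, ← Real.exp_nat_mul, mul_one]; ring
    _ ≤ Real.sqrt (a * b) * (u * ((J : ℝ) / (2 * i))) ^ i := by gcongr
    _ = (Real.sqrt (a * b) * u ^ i) * ((J : ℝ) / (2 * i)) ^ i := by rw [mul_pow]; ring
    _ ≤ b * c := by gcongr

end Pool.Agent.H.MP_3e6494_nt.H15
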