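import Pool.Agent.H.MP_3e6494_nt.helper15.States
import Pool.Agent.H.MP_3e6494_nt.helper15.Binom

/-!
Elementary symmetric sums of reciprocals of primes, and the gain of one block.
-/

set_option autoImplicit false
set_option linter.unusedVariables false
set_option linter.unusedSectionVars false

open Finset

namespace Pool.Agent.H.MP_3e6494_nt.H15

theorem ES_nonneg' (P : Finset ℕ) (j j' : ℕ) : 0 ≤ ES P j j' := by
  unfold ES
  apply Finset.sum_nonneg
  intro x _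
  positivity

/-- elementary symmetric sum of the reciprocals -/
noncomputable def ee (Q : Finset ℕ) (j : ℕ) : ℝ :=
  ∑ a ∈ Finset.powersetCard j Q, 1 / ((∏ p ∈ a, p : ℕ) : ℝ)

theorem ee_nonneg (Q : Finset ℕ) (j : ℕ) : 0 ≤ ee Q j :=
  Finset.sum_nonneg fun a _ => by positivity

theorem double_count (Q : Finset ℕ) (j : ℕ) (F : Finset ℕ → ℝ) :
    ∑ a' ∈ Finset.powersetCard (j + 1) Q, ((j : ℝ) + 1) * F a' =
      ∑ a ∈ Finset.powersetCard j Q, ∑ p ∈ Q \ a, F (insert p a) := by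
  have h1 : ∀ a' ∈ Finset.powersetCard (j + 1) Q, ((j : ℝ) + 1) * F a' = ∑ p ∈ a', F a' := by
    intro a' ha'
    rw [Finset.mem_powersetCard] at ha'
    rw [Finset.sum_const, ha'.2, nsmul_eq_mul]
    push_cast
    rfl
  rw [Finset.sum_congr rfl h1, Finset.sum_sigma', Finset.sum_sigma']
  apply Finset.sum_bij' (fun (z : (_ : Finset ℕ) × ℕ) _ => (⟨z.1.erase z.2, z.2⟩ : (_ : Finset ℕ) × ℕ))
    (fun (z : (_ : Finset ℕ) × ℕ) _ => (⟨insert z.2 z.1, z.2⟩ : (_ : Finset ℕ) × ℕ))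
  · rintro ⟨a', p⟩ h
    rw [Finset.mem_sigma, Finset.mem_powersetCard] at h
    obtain ⟨⟨h1, h2⟩, h3⟩ := h
    simp only at h1 h2 h3
    rw [Finset.mem_sigma, Finset.mem_powersetCard]
    refine ⟨⟨(Finset.erase_subset _ _).trans h1, ?_⟩, ?_⟩
    · show (a'.erase p).card = j
      rw [Finset.card_erase_of_mem h3, h2]
      rfl
    · show p ∈ Q \ a'.erase p
      rw [Finset.mem_sdiff]
      exact ⟨h1 h3, Finset.notMem_erase _ _⟩
  · rintro ⟨a, p⟩ h
    rw [Finset.mem_sigma, Finset.mem_powersetCard] at h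
    obtain ⟨⟨h1, h2⟩, h3⟩ := h
    simp only at h1 h2 h3
    rw [Finset.mem_sdiff] at h3
    rw [Finset.mem_sigma, Finset.mem_powersetCard]
    refine ⟨⟨Finset.insert_subset h3.1 h1, ?_⟩, ?_⟩
    · show (insert p a).card = j + 1
      rw [Finset.card_insert_of_notMem h3.2, h2]
    · show p ∈ insert p a
      exact Finset.mem_insert_self _ _
  · rintro ⟨a', p⟩ h
    rw [Finset.mem_sigma] at h
    simp only at h ⊢
    rw [Finset.insert_erase h.2]
  · rintro ⟨a, p⟩ h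
    rw [Finset.mem_sigma, Finset.mem_sdiff] at h
    simp only at h ⊢
    rw [Finset.erase_insert h.2.2]
  · rintro ⟨a', p⟩ h
    rw [Finset.mem_sigma] at h
    simp only at h ⊢
    rw [Finset.insert_erase h.2]

theorem ee_step (Q : Finset ℕ) (w : ℝ) (hw : ∀ p ∈ Q, 1 / (p : ℝ) ≤ w) (j : ℕ) :
    ee Q j * ((∑ p ∈ Q, 1 / (p : ℝ)) - j * w) ≤ ((j : ℝ) + 1) * ee Q (j + 1) := by
  rw [ee, ee, Finset.mul_sum, double_count Q j (fun a => 1 / ((∏ p ∈ a, p : ℕ) : ℝ)), Finset.sum_mul]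
  apply Finset.sum_le_sum
  intro a ha
  rw [Finset.mem_powersetCard] at ha
  have h1 : ∀ p ∈ Q \ a, 1 / ((∏ p ∈ insert p a, p : ℕ) : ℝ) =
      (1 / ((∏ p ∈ a, p : ℕ) : ℝ)) * (1 / (p : ℝ)) := by
    intro p hp
    rw [Finset.mem_sdiff] at hp
    rw [Finset.prod_insert hp.2]
    push_cast
    rw [one_div_mul_one_div_rev]
  rw [Finset.sum_congr rfl h1, ← Finset.mul_sum]
  apply mul_le_mul_of_nonneg_left _ (by positivity)
  rw [Finset.sum_sdiff_eq_sub ha.1]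
  have h2 : ∑ p ∈ a, 1 / (p : ℝ) ≤ j * w := by
    rw [← ha.2, ← nsmul_eq_mul]
    exact Finset.sum_le_card_nsmul _ _ _ fun p hp => hw p (ha.1 hp)
  linarith

theorem ES_eq (P : Finset ℕ) (j j' : ℕ) :
    ES P j j' = ∑ b ∈ Finset.powersetCard j P, (1 / ((∏ p ∈ b, p : ℕ) : ℝ)) * ee (P \ b) j' := by
  rw [ES, St, Finset.sum_filter, Finset.sum_product]
  apply Finset.sum_congr rfl
  intro b hb
  rw [ee, Finset.mul_sum, ← Finset.sum_filter]
  have hset : (Finset.powersetCard j' P).filter (fun a => Disjoint b a) =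
      Finset.powersetCard j' (P \ b) := by
    ext a
    rw [Finset.mem_filter, Finset.mem_powersetCard, Finset.mem_powersetCard, Finset.subset_sdiff]
    constructor
    · rintro ⟨⟨h1, h2⟩, h3⟩
      exact ⟨⟨h1, h3.symm⟩, h2⟩
    · rintro ⟨⟨h1, h2⟩, h3⟩
      exact ⟨⟨h1, h3⟩, h2.symm⟩
  rw [hset]
  apply Finset.sum_congr rfl
  intro a _
  rw [one_div_mul_one_div_rev, mul_comm]

/-- passing from size `J - i` to size `J` -/
theorem ES_ratio (P : Finset ℕ) (w : ℝ) (hw : ∀ p ∈ P, 1 / (p : ℝ) ≤ w) (J i : ℕ) (hi : i ≤ J)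
    (σ : ℝ) (hσ0 : 0 ≤ σ) (hσ : σ ≤ (∑ p ∈ P, 1 / (p : ℝ)) - 2 * J * w) :
    σ ^ i * ES P J (J - i) ≤ (J : ℝ) ^ i * ES P J J := by
  rw [ES_eq, ES_eq, Finset.mul_sum, Finset.mul_sum]
  apply Finset.sum_le_sum
  intro b hb
  rw [Finset.mem_powersetCard] at hb
  have hw0 : P.Nonempty → 0 ≤ w := by
    rintro ⟨p, hp⟩
    exact le_trans (by positivity) (hw p hp)
  have key : ∀ d, d ≤ J → σ ^ d * ee (P \ b) (J - d) ≤ (J : ℝ) ^ d * ee (P \ b) J := by
    intro d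
    induction d with
    | zero => intro _; simp
    | succ d ih =>
      intro hd
      have ih' := ih (by omega)
      have hstep := ee_step (P \ b) w (fun p hp => hw p (Finset.mem_sdiff.mp hp).1) (J - (d + 1))
      have hJd : J - (d + 1) + 1 = J - d := by omega
      rw [hJd] at hstep
      have hs : σ ≤ (∑ p ∈ P \ b, 1 / (p : ℝ)) - ((J - (d + 1) : ℕ) : ℝ) * w := by
        rw [Finset.sum_sdiff_eq_sub hb.1]
        have h2 : ∑ p ∈ b, 1 / (p : ℝ) ≤ J * w := by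
          rw [← hb.2, ← nsmul_eq_mul]
          exact Finset.sum_le_card_nsmul _ _ _ fun p hp => hw p (hb.1 hp)
        have h3 : ((J - (d + 1) : ℕ) : ℝ) * w ≤ J * w := by
          have hne : P.Nonempty := by
            rw [Finset.nonempty_iff_ne_empty]
            rintro rfl
            have : b.card = 0 := by
              rw [Finset.subset_empty.mp hb.1]
              rfl
            omega
          apply mul_le_mul_of_nonneg_right _ (hw0 hne)
          exact_mod_cast Nat.sub_le _ _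
        linarith
      have hee := ee_nonneg (P \ b) (J - (d + 1))
      have h4 : σ * ee (P \ b) (J - (d + 1)) ≤ (J : ℝ) * ee (P \ b) (J - d) := by
        calc σ * ee (P \ b) (J - (d + 1)) ≤
            ee (P \ b) (J - (d + 1)) * ((∑ p ∈ P \ b, 1 / (p : ℝ)) - ((J - (d + 1) : ℕ) : ℝ) * w) := by
              rw [mul_comm]
              gcongr
          _ ≤ (((J - (d + 1) : ℕ) : ℝ) + 1) * ee (P \ b) (J - d) := hstep
          _ ≤ (J : ℝ) * ee (P \ b) (J - d) := by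
              apply mul_le_mul_of_nonneg_right _ (ee_nonneg _ _)
              have : (J - (d + 1) : ℕ) + 1 ≤ J := by omega
              exact_mod_cast this
      calc σ ^ (d + 1) * ee (P \ b) (J - (d + 1)) = σ ^ d * (σ * ee (P \ b) (J - (d + 1))) := by ring
        _ ≤ σ ^ d * ((J : ℝ) * ee (P \ b) (J - d)) := by gcongr
        _ = (J : ℝ) * (σ ^ d * ee (P \ b) (J - d)) := by ring
        _ ≤ (J : ℝ) * ((J : ℝ) ^ d * ee (P \ b) J) := by gcongr
        _ = (J : ℝ) ^ (d + 1) * ee (P \ b) J := by ring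
  have h5 := key i hi
  have h6 : (0 : ℝ) ≤ 1 / ((∏ p ∈ b, p : ℕ) : ℝ) := by positivity
  calc σ ^ i * (1 / ((∏ p ∈ b, p : ℕ) : ℝ) * ee (P \ b) (J - i)) =
      (1 / ((∏ p ∈ b, p : ℕ) : ℝ)) * (σ ^ i * ee (P \ b) (J - i)) := by ring
    _ ≤ (1 / ((∏ p ∈ b, p : ℕ) : ℝ)) * ((J : ℝ) ^ i * ee (P \ b) J) := by gcongr
    _ = _ := by ring

/-- upper Stirling bound -/
theorem factorial_le (i : ℕ) (hi : 1 ≤ i) :
    (i.factorial : ℝ) * Real.exp i ≤ Real.exp 1 * (i : ℝ) ^ (i + 1) := by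
  induction i, hi using Nat.le_induction with
  | base => simp
  | succ i hi ih =>
    have hi' : (0 : ℝ) < i := by exact_mod_cast hi
    have h1 : Real.exp 1 * (i : ℝ) ^ (i + 1) ≤ ((i : ℝ) + 1) ^ (i + 1) := by
      have h2 : 1 / ((i : ℝ) + 1) ≤ Real.log (((i : ℝ) + 1) / i) := by
        have := Real.one_sub_inv_le_log_of_pos (x := ((i : ℝ) + 1) / i) (by positivity)
        have e : 1 - (((i : ℝ) + 1) / i)⁻¹ = 1 / ((i : ℝ) + 1) := by
          field_simp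
          ring
        rw [e] at this
        exact this
      have h3 : Real.exp 1 ≤ (((i : ℝ) + 1) / i) ^ (i + 1) := by
        have h4 : (((i : ℝ) + 1) / i) ^ (i + 1) = Real.exp (((i + 1 : ℕ) : ℝ) * Real.log (((i : ℝ) + 1) / i)) := by
          rw [Real.exp_nat_mul, Real.exp_log (by positivity)]
        rw [h4]
        apply Real.exp_le_exp.mpr
        push_cast
        calc (1 : ℝ) = ((i : ℝ) + 1) * (1 / ((i : ℝ) + 1)) := by field_simp
          _ ≤ _ := by gcongr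
      calc Real.exp 1 * (i : ℝ) ^ (i + 1) ≤ (((i : ℝ) + 1) / i) ^ (i + 1) * (i : ℝ) ^ (i + 1) := by gcongr
        _ = ((i : ℝ) + 1) ^ (i + 1) := by
            rw [← mul_pow]
            congr 1
            field_simp
    calc ((i + 1).factorial : ℝ) * Real.exp ((i + 1 : ℕ) : ℝ) =
        ((i : ℝ) + 1) * Real.exp 1 * ((i.factorial : ℝ) * Real.exp i) := by
          rw [Nat.factorial_succ]
          push_cast
          rw [Real.exp_add]
          ring
      _ ≤ ((i : ℝ) + 1) * Real.exp 1 * (Real.exp 1 * (i : ℝ) ^ (i + 1)) := by gcongr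
      _ ≤ ((i : ℝ) + 1) * Real.exp 1 * (((i : ℝ) + 1) ^ (i + 1)) := by gcongr
      _ = Real.exp 1 * (((i + 1 : ℕ) : ℝ)) ^ (i + 1 + 1) := by
          push_cast
          ring

theorem choose_lower (J i : ℕ) (hi : 1 ≤ i) (hiJ : i ≤ J) :
    (Real.exp 1 * ((J : ℝ) - i) / i) ^ i ≤ (J.choose i : ℝ) * (Real.exp 1 * i) := by
  have hi' : (0 : ℝ) < i := by exact_mod_cast hi
  have hJi : (0 : ℝ) ≤ (J : ℝ) - i := by
    have : (i : ℝ) ≤ J := by exact_mod_cast hiJ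
    linarith
  have h1 : ((J : ℝ) - i) ^ i ≤ (i.factorial : ℝ) * (J.choose i : ℝ) := by
    have := Nat.pow_sub_le_descFactorial J i
    rw [Nat.descFactorial_eq_factorial_mul_choose] at this
    calc ((J : ℝ) - i) ^ i ≤ (((J + 1 - i : ℕ) : ℝ)) ^ i := by
          have h : (J : ℝ) - i ≤ ((J + 1 - i : ℕ) : ℝ) := by
            rw [Nat.cast_sub (by omega)]
            push_cast
            linarith
          gcongr
      _ ≤ ((i.factorial * J.choose i : ℕ) : ℝ) := by exact_mod_cast this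
      _ = _ := by push_cast; rfl
  have h2 := factorial_le i hi
  have he : (0 : ℝ) < Real.exp i := Real.exp_pos _
  have h3 : (Real.exp 1 * ((J : ℝ) - i) / i) ^ i = Real.exp i * ((J : ℝ) - i) ^ i / (i : ℝ) ^ i := by
    rw [div_pow, mul_pow, ← Real.exp_nat_mul, mul_one]
  rw [h3, div_le_iff₀ (by positivity)]
  calc Real.exp i * ((J : ℝ) - i) ^ i ≤ Real.exp i * ((i.factorial : ℝ) * (J.choose i : ℝ)) := by gcongr
    _ = ((i.factorial : ℝ) * Real.exp i) * (J.choose i : ℝ) := by ring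
    _ ≤ (Real.exp 1 * (i : ℝ) ^ (i + 1)) * (J.choose i : ℝ) := by gcongr
    _ = _ := by ring

/-- **the gain of one block** -/
theorem block_gain2 (P : Finset ℕ) (w : ℝ) (hw : ∀ p ∈ P, 1 / (p : ℝ) ≤ w) (J i : ℕ) (hi : 1 ≤ i)
    (σ : ℝ) (hσ0 : 0 ≤ σ) (hσ1 : σ ≤ 1 / 4) (hσ : σ ≤ (∑ p ∈ P, 1 / (p : ℝ)) - 2 * J * w)
    (hiσ : (i : ℝ) ^ 2 ≤ J * σ) :
    Real.exp (2 * i) / (2 * (Real.exp 1 * i) ^ 2) * ES P J (J - i) ≤
      (J.choose i : ℝ) ^ 2 * ES P J J := by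
  have hi' : (0 : ℝ) < i := by exact_mod_cast hi
  have hi1 : (1 : ℝ) ≤ i := by exact_mod_cast hi
  have hJ0 : (0 : ℝ) ≤ J := Nat.cast_nonneg _
  have h4 : 4 * (i : ℝ) ^ 2 ≤ J := by nlinarith
  have h4' : 4 * (i : ℝ) ≤ J := by nlinarith
  have hJpos : (0 : ℝ) < J := by nlinarith
  have hiJ : i ≤ J := by
    have : (i : ℝ) ≤ J := by linarith
    exact_mod_cast this
  have hratio := ES_ratio P w hw J i hiJ σ hσ0 hσ
  have hE0 := ES_nonneg' P J (J - i)
  have hc := choose_lower J i hi hiJ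
  have hJi0 : (0 : ℝ) ≤ (J : ℝ) - i := by linarith
  -- sigma^i >= (i^2/J)^i
  have hσi : ((i : ℝ) ^ 2 / J) ^ i ≤ σ ^ i := by
    apply pow_le_pow_left₀ (by positivity)
    rw [div_le_iff₀ hJpos]
    linarith
  -- Bernoulli
  have hbern : (1 : ℝ) / 2 ≤ (1 - (i : ℝ) / J) ^ (2 * i) := by
    have h5 := one_add_mul_le_pow (a := -((i : ℝ) / J)) (by
      have : (i : ℝ) / J ≤ 1 := by
        rw [div_le_one hJpos]; linarith
      linarith) (2 * i)
    have h6 : (2 * i : ℕ) * (-((i : ℝ) / J)) ≥ -(1 / 2) := by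
      push_cast
      have : 2 * (i : ℝ) * ((i : ℝ) / J) ≤ 1 / 2 := by
        rw [mul_div_assoc', div_le_iff₀ hJpos]
        nlinarith
      linarith
    have h7 : (1 + -((i : ℝ) / J)) = 1 - (i : ℝ) / J := by ring
    rw [h7] at h5
    push_cast at h5 h6 ⊢
    linarith
  -- C(J,i)^2 >= ...
  set C : ℝ := (J.choose i : ℝ) with hC
  have hC0 : 0 ≤ C := Nat.cast_nonneg _
  set X : ℝ := Real.exp 1 * ((J : ℝ) - i) / i with hX
  have hX0 : 0 ≤ X := by positivity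
  have hCsq : (X ^ i) ^ 2 ≤ (C * (Real.exp 1 * i)) ^ 2 := by gcongr
  -- combine:  C^2 (e i)^2 * (i^2/J)^i >= X^(2i) (i^2/J)^i = (e^2 (J-i)^2/J)^i
  have hcomb : Real.exp (2 * i) / 2 * (J : ℝ) ^ i ≤ (C * (Real.exp 1 * i)) ^ 2 * ((i : ℝ) ^ 2 / J) ^ i := by
    have h8 : (X ^ i) ^ 2 * ((i : ℝ) ^ 2 / J) ^ i =
        Real.exp (2 * i) * (1 - (i : ℝ) / J) ^ (2 * i) * (J : ℝ) ^ i := by
      have e1 : Real.exp (2 * i) = (Real.exp 1 ^ 2) ^ i := by
        rw [← pow_mul, ← Real.exp_nat_mul, mul_one]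
        push_cast
        rfl
      rw [e1, pow_mul (1 - (i : ℝ) / J) 2 i, ← mul_pow, ← mul_pow, pow_right_comm X i 2, ← mul_pow]
      congr 1
      rw [hX]
      field_simp
    calc Real.exp (2 * i) / 2 * (J : ℝ) ^ i = Real.exp (2 * i) * (1 / 2) * (J : ℝ) ^ i := by ring
      _ ≤ Real.exp (2 * i) * (1 - (i : ℝ) / J) ^ (2 * i) * (J : ℝ) ^ i := by gcongr
      _ = (X ^ i) ^ 2 * ((i : ℝ) ^ 2 / J) ^ i := h8.symm
      _ ≤ _ := by gcongr
  have hJi : (0 : ℝ) < (J : ℝ) ^ i := by positivity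
  have hei : (0 : ℝ) < (Real.exp 1 * i) ^ 2 := by positivity
  -- final
  have hfin : Real.exp (2 * i) / (2 * (Real.exp 1 * i) ^ 2) * (J : ℝ) ^ i ≤ C ^ 2 * σ ^ i := by
    calc Real.exp (2 * i) / (2 * (Real.exp 1 * i) ^ 2) * (J : ℝ) ^ i =
        (Real.exp (2 * i) / 2 * (J : ℝ) ^ i) / (Real.exp 1 * i) ^ 2 := by
          field_simp
      _ ≤ ((C * (Real.exp 1 * i)) ^ 2 * ((i : ℝ) ^ 2 / J) ^ i) / (Real.exp 1 * i) ^ 2 := by gcongr
      _ = C ^ 2 * ((i : ℝ) ^ 2 / J) ^ i := by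
          rw [mul_pow]
          field_simp
      _ ≤ C ^ 2 * σ ^ i := by gcongr
  have h9 : Real.exp (2 * i) / (2 * (Real.exp 1 * i) ^ 2) * ES P J (J - i) * (J : ℝ) ^ i ≤
      (C ^ 2 * ES P J J) * (J : ℝ) ^ i := by
    calc Real.exp (2 * i) / (2 * (Real.exp 1 * i) ^ 2) * ES P J (J - i) * (J : ℝ) ^ i =
        (Real.exp (2 * i) / (2 * (Real.exp 1 * i) ^ 2) * (J : ℝ) ^ i) * ES P J (J - i) := by ring
      _ ≤ (C ^ 2 * σ ^ i) * ES P J (J - i) := by gcongr
      _ = C ^ 2 * (σ ^ i * ES P J (J - i)) := by ring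
      _ ≤ C ^ 2 * ((J : ℝ) ^ i * ES P J J) := by gcongr
      _ = _ := by ring
  exact le_of_mul_le_mul_right h9 hJi

end Pool.Agent.H.MP_3e6494_nt.H15
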