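import Pool.Agent.H.MP_3e6494_nt.helper15.LW
import Pool.Agent.H.MP_3e6494_nt.helper15.Assemble
import Pool.Agent.H.MP_3e6494_nt.helper15.Esym

/-!
From a system of parameters to a large value.
-/

set_option autoImplicit false
set_option linter.unusedVariables false

open Finset

namespace Pool.Agent.H.MP_3e6494_nt.H15

/-- A system of blocks with all the properties needed for the resonance argument;
`G` is the gain, `V` the logarithm of the admissible size. -/
structure Blocks (V G : ℝ) where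
  I : Finset ℕ
  P : ℕ → Finset ℕ
  Y : ℕ → ℕ
  J : ℕ → ℕ
  i : ℕ → ℕ
  w : ℕ → ℝ
  σ : ℝ
  prime : ∀ k ∈ I, ∀ p ∈ P k, p.Prime
  disj : ∀ k ∈ I, ∀ l ∈ I, k ≠ l → Disjoint (P k) (P l)
  leY : ∀ k ∈ I, ∀ p ∈ P k, p ≤ Y k
  Ysmall : ∀ k ∈ I, (Y k : ℝ) ≤ V ^ 2
  Ypos : ∀ k ∈ I, 0 < Y k
  card : ∀ k ∈ I, 2 * J k ≤ (P k).card
  lew : ∀ k ∈ I, ∀ p ∈ P k, 1 / (p : ℝ) ≤ w k
  σ0 : 0 ≤ σ
  σ1 : σ ≤ 1 / 4
  hσ : ∀ k ∈ I, σ ≤ (∑ p ∈ P k, 1 / (p : ℝ)) - 2 * J k * w k
  i1 : ∀ k ∈ I, 1 ≤ i k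
  hi : ∀ k ∈ I, (i k : ℝ) ^ 2 ≤ J k * σ
  size : ∑ k ∈ I, 2 * Real.log ((P k).card.choose (J k)) ≤ V - 3
  length : 2 * ∑ k ∈ I, (i k : ℝ) * Real.log (Y k) < 2 * V
  gain : G ≤ ∑ k ∈ I, (2 * (i k : ℝ) - Real.log (2 * (Real.exp 1 * i k) ^ 2))

theorem ES_pos (P : Finset ℕ) (hP : ∀ p ∈ P, p.Prime) (j j' : ℕ) (h : j + j' ≤ P.card) :
    0 < ES P j j' := by
  obtain ⟨b, hb, hbc⟩ := Finset.exists_subset_card_eq (show j ≤ P.card by omega)
  have hc : j' ≤ (P \ b).card := by
    rw [Finset.card_sdiff_of_subset hb, hbc]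
    omega
  obtain ⟨a, ha, hac⟩ := Finset.exists_subset_card_eq hc
  unfold ES
  apply Finset.sum_pos
  · intro x hx
    rw [mem_St] at hx
    have h1 : 0 < ∏ p ∈ x.1, p := Finset.prod_pos fun p hp => (hP p (hx.1.1 hp)).pos
    have h2 : 0 < ∏ p ∈ x.2, p := Finset.prod_pos fun p hp => (hP p (hx.2.1.1 hp)).pos
    have h1' : (0 : ℝ) < ((∏ p ∈ x.1, p : ℕ) : ℝ) := by exact_mod_cast h1
    have h2' : (0 : ℝ) < ((∏ p ∈ x.2, p : ℕ) : ℝ) := by exact_mod_cast h2
    positivity
  · refine ⟨(b, a), ?_⟩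
    rw [mem_St]
    refine ⟨⟨hb, hbc⟩, ⟨ha.trans Finset.sdiff_subset, hac⟩, ?_⟩
    exact (Finset.disjoint_of_subset_left ha Finset.sdiff_disjoint).symm

theorem conclude {q : ℕ} [Fact q.Prime] (H : Subgroup (DirichletCharacter ℂ q)) (V G : ℝ)
    (hV : V = Real.log ((Nat.card H : ℝ) / Real.sqrt q)) (hV1 : 1 ≤ V) (bl : Blocks V (G + 1))
    (hG : 0 ≤ G) :
    ∃ χ ∈ H, χ ≠ 1 ∧ Real.exp G ≤ ‖DirichletCharacter.LFunction χ (1 / 2)‖ := by
  classical
  by_contra hcon
  push Not at hcon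
  have hq : q.Prime := Fact.out
  have hqpos : (0 : ℝ) < q := by exact_mod_cast hq.pos
  have hsq : 0 < Real.sqrt q := Real.sqrt_pos.mpr hqpos
  haveI : Finite (DirichletCharacter ℂ q) := inferInstance
  haveI : Fintype H := Fintype.ofFinite _
  have hcard : (Nat.card H : ℝ) = (Fintype.card H : ℝ) := by
    rw [Nat.card_eq_fintype_card]
  set h : ℝ := (Fintype.card H : ℝ) with hh
  have hh1 : 0 < h := by
    rw [hh]
    exact_mod_cast Fintype.card_pos
  rw [hcard] at hV
  have hexpV : Real.exp V = h / Real.sqrt q := by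
    rw [hV, Real.exp_log (by positivity)]
  -- card H ≤ q
  have hhq : h ≤ q := by
    have h1 : Fintype.card H ≤ Nat.card (DirichletCharacter ℂ q) := by
      rw [← Nat.card_eq_fintype_card]
      exact Nat.card_le_card_of_injective _ Subtype.val_injective
    have h2 : Nat.card (DirichletCharacter ℂ q) = Nat.card (ZMod q)ˣ := by
      have := DirichletCharacter.card_eq_totient_of_hasEnoughRootsOfUnity ℂ q
      rw [this, Nat.card_eq_fintype_card, ZMod.card_units_eq_totient]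
    have h3 : Nat.card (ZMod q)ˣ ≤ q := by
      rw [Nat.card_eq_fintype_card, ZMod.card_units_eq_totient]
      exact Nat.totient_le q
    rw [hh]
    exact_mod_cast (h1.trans (h2.le.trans h3))
  have hlogq : 2 * V ≤ Real.log q := by
    have h1 : h / Real.sqrt q ≤ Real.sqrt q := by
      rw [div_le_iff₀ hsq, Real.mul_self_sqrt hqpos.le]
      exact hhq
    have h2 : V ≤ Real.log (Real.sqrt q) := by
      rw [hV]
      exact Real.log_le_log (by positivity) h1
    rw [Real.log_sqrt hqpos.le] at h2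
    linarith
  -- the index type
  let ι := bl.I
  have e1 : ∀ (f : ℕ → ℝ), ∏ k : ι, f k = ∏ k ∈ bl.I, f k := fun f => Finset.prod_coe_sort bl.I f
  have e2 : ∀ (f : ℕ → ℕ), ∏ k : ι, f k = ∏ k ∈ bl.I, f k := fun f => Finset.prod_coe_sort bl.I f
  have hYq : ∀ k ∈ bl.I, bl.Y k < q := by
    intro k hk
    have h1 := bl.Ysmall k hk
    have h2 : V ^ 2 < q := by
      have h3 : V ^ 2 < Real.exp (2 * V) := by
        have h4 : V < Real.exp V := by
          have := Real.add_one_le_exp V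
          linarith
        have h5 : Real.exp (2 * V) = Real.exp V ^ 2 := by
          rw [← Real.exp_nat_mul]
          push_cast
          rfl
        rw [h5]
        exact pow_lt_pow_left₀ h4 (by linarith) (by norm_num)
      calc V ^ 2 < Real.exp (2 * V) := h3
        _ ≤ Real.exp (Real.log q) := Real.exp_le_exp.mpr hlogq
        _ = q := Real.exp_log hqpos
    have : (bl.Y k : ℝ) < q := lt_of_le_of_lt h1 h2
    exact_mod_cast this
  have hsize : (∏ k : ι, bl.Y k ^ bl.i k) * (∏ k : ι, bl.Y k ^ bl.i k) < q := by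
    have h1 : (((∏ k : ι, bl.Y k ^ bl.i k) * (∏ k : ι, bl.Y k ^ bl.i k) : ℕ) : ℝ) < q := by
      rw [e2 (fun k => bl.Y k ^ bl.i k)]
      have hpos : (0 : ℝ) < ((∏ k ∈ bl.I, bl.Y k ^ bl.i k : ℕ) : ℝ) := by
        have : 0 < ∏ k ∈ bl.I, bl.Y k ^ bl.i k :=
          Finset.prod_pos fun k hk => pow_pos (bl.Ypos k hk) _
        exact_mod_cast this
      have hlog : Real.log (((∏ k ∈ bl.I, bl.Y k ^ bl.i k : ℕ) : ℝ)) =
          ∑ k ∈ bl.I, (bl.i k : ℝ) * Real.log (bl.Y k) := by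
        push_cast
        rw [Real.log_prod]
        · apply Finset.sum_congr rfl
          intro k _
          rw [Real.log_pow]
        · intro k hk
          have : (0 : ℝ) < bl.Y k := by exact_mod_cast bl.Ypos k hk
          positivity
      rw [Nat.cast_mul, ← Real.log_lt_log_iff (by positivity) hqpos, Real.log_mul hpos.ne' hpos.ne',
        hlog]
      have := bl.length
      linarith
    exact_mod_cast h1
  have key := main_ineq (ι := ι) H (fun k => bl.P k) (fun k p hp => bl.prime k k.2 p hp)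
    (fun k l hkl => bl.disj k k.2 l l.2 (fun h => hkl (Subtype.ext h)))
    (fun k p hp => lt_of_le_of_lt (bl.leY k k.2 p hp) (hYq k k.2))
    (fun k => bl.Y k) (fun k p hp => bl.leY k k.2 p hp)
    (fun k => bl.J k) (fun k => bl.i k) (fun k => bl.card k k.2) hsize (WW q)
    (fun n hn => WW_re q hn) (10 * Real.sqrt q) (sum_norm_WW q) (Real.exp G) (Real.exp_pos _).le
    (by
      intro χ hχ
      have h1 := LFunction_eq_sum_WW q χ.1 (fun h => hχ (Subtype.ext h))
      have h2 : ∑ n ∈ Finset.Icc 1 (q - 1), WW q n * ev H n χ =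
          ∑ n ∈ Finset.Icc 1 (q - 1), WW q n * χ.1 (n : ZMod q) := rfl
      rw [h2, h1]
      exact (hcon χ.1 χ.2 (fun h => hχ (Subtype.ext h))).le)
  rw [e1 (fun k => ((bl.J k).choose (bl.i k) : ℝ) ^ 2), e1 (fun k => ES (bl.P k) (bl.J k) (bl.J k)),
    e1 (fun k => ((bl.P k).card.choose (bl.J k) : ℝ) ^ 2),
    e1 (fun k => ES (bl.P k) (bl.J k) (bl.J k - bl.i k))] at key
  -- the gain
  have hgain : ∏ k ∈ bl.I, (Real.exp (2 * bl.i k) / (2 * (Real.exp 1 * bl.i k) ^ 2) *
      ES (bl.P k) (bl.J k) (bl.J k - bl.i k)) ≤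
      (∏ k ∈ bl.I, ((bl.J k).choose (bl.i k) : ℝ) ^ 2) * ∏ k ∈ bl.I, ES (bl.P k) (bl.J k) (bl.J k) := by
    rw [← Finset.prod_mul_distrib]
    apply Finset.prod_le_prod
    · intro k hk
      exact mul_nonneg (by positivity) (ES_nonneg' _ _ _)
    · intro k hk
      exact block_gain2 (bl.P k) (bl.w k) (bl.lew k hk) (bl.J k) (bl.i k) (bl.i1 k hk) bl.σ bl.σ0
        bl.σ1 (bl.hσ k hk) (bl.hi k hk)
  rw [Finset.prod_mul_distrib] at hgain
  set E1 := ∏ k ∈ bl.I, ES (bl.P k) (bl.J k) (bl.J k - bl.i k) with hE1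
  have hE1pos : 0 < E1 := by
    apply Finset.prod_pos
    intro k hk
    apply ES_pos _ (bl.prime k hk)
    have := bl.card k hk
    omega
  set g := ∏ k ∈ bl.I, (Real.exp (2 * bl.i k) / (2 * (Real.exp 1 * bl.i k) ^ 2)) with hg
  have hgexp : Real.exp (G + 1) ≤ g := by
    have h1 : g = Real.exp (∑ k ∈ bl.I, (2 * (bl.i k : ℝ) - Real.log (2 * (Real.exp 1 * bl.i k) ^ 2))) := by
      rw [Real.exp_sum, hg]
      apply Finset.prod_congr rfl
      intro k hk
      have hi' : (0 : ℝ) < bl.i k := by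
        have := bl.i1 k hk
        exact_mod_cast (by omega : 0 < bl.i k)
      rw [Real.exp_sub, Real.exp_log (by positivity)]
    rw [h1]
    exact Real.exp_le_exp.mpr bl.gain
  set N := ∏ k ∈ bl.I, ((bl.P k).card.choose (bl.J k) : ℝ) ^ 2 with hN
  have hNle : N ≤ Real.exp (V - 3) := by
    have hpos : ∀ k ∈ bl.I, (0 : ℝ) < ((bl.P k).card.choose (bl.J k) : ℝ) := by
      intro k hk
      have := bl.card k hk
      exact_mod_cast Nat.choose_pos (by omega)
    have hNpos : 0 < N := Finset.prod_pos fun k hk => by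
      have := hpos k hk
      positivity
    rw [← Real.log_le_iff_le_exp hNpos, hN, Real.log_prod]
    · calc ∑ k ∈ bl.I, Real.log (((bl.P k).card.choose (bl.J k) : ℝ) ^ 2) =
          ∑ k ∈ bl.I, 2 * Real.log ((bl.P k).card.choose (bl.J k)) := by
            apply Finset.sum_congr rfl
            intro k _
            rw [Real.log_pow]
            push_cast
            rfl
        _ ≤ V - 3 := bl.size
    · intro k hk
      have := hpos k hk
      positivity
  have hfin : h * g * E1 ≤ (10 * Real.sqrt q * N + Real.exp G * h) * E1 := by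
    calc h * g * E1 = h * (g * E1) := by ring
      _ ≤ h * ((∏ k ∈ bl.I, ((bl.J k).choose (bl.i k) : ℝ) ^ 2) *
            ∏ k ∈ bl.I, ES (bl.P k) (bl.J k) (bl.J k)) := by gcongr
      _ ≤ _ := key
  have hfin2 : h * g ≤ 10 * Real.sqrt q * N + Real.exp G * h := le_of_mul_le_mul_right hfin hE1pos
  have hAN : 10 * Real.sqrt q * N ≤ h / 2 := by
    have h3 : Real.exp (V - 3) = Real.exp V / Real.exp 3 := Real.exp_sub _ _
    have h4 : (20 : ℝ) ≤ Real.exp 3 := by
      have : Real.exp 3 = Real.exp 1 ^ 3 := by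
        rw [← Real.exp_nat_mul]; norm_num
      rw [this]
      have := Real.exp_one_gt_d9
      calc (20 : ℝ) ≤ 2.7182818283 ^ 3 := by norm_num
        _ ≤ Real.exp 1 ^ 3 := by gcongr
    calc 10 * Real.sqrt q * N ≤ 10 * Real.sqrt q * (Real.exp V / Real.exp 3) := by
          rw [← h3]; gcongr
      _ = 10 * h / Real.exp 3 := by
          rw [hexpV]; field_simp
      _ ≤ 10 * h / 20 := by gcongr
      _ = h / 2 := by ring
  have hE : (2 : ℝ) * Real.exp G ≤ Real.exp (G + 1) := by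
    rw [Real.exp_add]
    have := Real.exp_one_gt_d9
    have h0 := Real.exp_pos G
    nlinarith
  have hEG : 1 ≤ Real.exp G := Real.one_le_exp hG
  have : h * (2 * Real.exp G) ≤ h / 2 + Real.exp G * h := by
    calc h * (2 * Real.exp G) ≤ h * g := by
          apply mul_le_mul_of_nonneg_left (hE.trans hgexp) hh1.le
      _ ≤ _ := by linarith
  nlinarith

end Pool.Agent.H.MP_3e6494_nt.H15
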