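import Mathlib

/-!
Mertens' estimate for the sum of `log p / p` over the primes in an interval.
-/

set_option autoImplicit false

open Finset ArithmeticFunction

namespace Pool.Agent.H.MP_3e6494_nt.H15

theorem psi_nat_le (N : ℕ) : ∑ d ∈ Ioc 0 N, vonMangoldt d ≤ 6 * (N : ℝ) := by
  have h1 := Chebyshev.psi_le_const_mul_self (x := (N : ℝ)) (Nat.cast_nonneg N)
  unfold Chebyshev.psi at h1
  rw [Nat.floor_natCast] at h1
  have h2 : Real.log 4 ≤ 2 := by
    have : Real.log 4 = 2 * Real.log 2 := by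
      rw [show (4 : ℝ) = 2 ^ 2 by norm_num, Real.log_pow]; norm_num
    rw [this]
    have := Real.log_two_lt_d9
    linarith
  refine h1.trans ?_
  have h3 : (0 : ℝ) ≤ N := Nat.cast_nonneg N
  nlinarith

/-- `∑_{d ≤ N} Λ(d) / d`. -/
noncomputable def Mt (N : ℕ) : ℝ := ∑ d ∈ Ioc 0 N, vonMangoldt d / d

theorem log_factorial_eq (N : ℕ) : Real.log (N.factorial : ℝ) = ∑ n ∈ Ioc 0 N, Real.log n := by
  induction N with
  | zero => simp
  | succ N ih =>
    rw [Finset.sum_Ioc_succ_top (by omega), ← ih, Nat.factorial_succ]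
    push_cast
    rw [Real.log_mul (by positivity) (by positivity)]
    ring

theorem log_factorial_eq' (N : ℕ) :
    Real.log (N.factorial : ℝ) = ∑ d ∈ Ioc 0 N, vonMangoldt d * ((N / d : ℕ) : ℝ) := by
  rw [log_factorial_eq, ← sum_Ioc_mul_zeta_eq_sum vonMangoldt N]
  apply sum_congr rfl
  intro n _
  rw [vonMangoldt_mul_zeta]
  rfl

theorem Mt_lower (N : ℕ) (hN : 1 ≤ N) : Real.log N - 1 ≤ Mt N := by
  have hNpos : (0 : ℝ) < N := by exact_mod_cast hN
  have h1 := Stirling.le_log_factorial_stirling (n := N) (by omega)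
  have h2 : Real.log (N.factorial : ℝ) ≤ N * Mt N := by
    rw [log_factorial_eq']
    unfold Mt
    rw [mul_sum]
    apply sum_le_sum
    intro d hd
    rw [mem_Ioc] at hd
    have hd0 : (0 : ℝ) < d := by exact_mod_cast hd.1
    have h3 : ((N / d : ℕ) : ℝ) ≤ (N : ℝ) / d := Nat.cast_div_le
    have h4 := mul_le_mul_of_nonneg_left h3 (vonMangoldt_nonneg (n := d))
    refine h4.trans (le_of_eq ?_)
    ring
  have h5 : 0 ≤ Real.log N := Real.log_natCast_nonneg N
  have h6 : 0 ≤ Real.log (2 * Real.pi) := by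
    apply Real.log_nonneg
    have := Real.pi_gt_three
    linarith
  have h7 : (N : ℝ) * (Real.log N - 1) ≤ N * Mt N := by
    calc (N : ℝ) * (Real.log N - 1) = N * Real.log N - N := by ring
      _ ≤ _ := by linarith
  exact le_of_mul_le_mul_left h7 hNpos

theorem Mt_upper (N : ℕ) (hN : 1 ≤ N) : Mt N ≤ Real.log N + 6 := by
  have hNpos : (0 : ℝ) < N := by exact_mod_cast hN
  have h1 : (N : ℝ) * Mt N ≤ Real.log (N.factorial : ℝ) + ∑ d ∈ Ioc 0 N, vonMangoldt d := by
    rw [log_factorial_eq', ← sum_add_distrib]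
    unfold Mt
    rw [mul_sum]
    apply sum_le_sum
    intro d hd
    rw [mem_Ioc] at hd
    have hd0 : (0 : ℝ) < d := by exact_mod_cast hd.1
    have h9 : (N : ℝ) / d < ((N / d : ℕ) : ℝ) + 1 := by
      have := Nat.lt_floor_add_one ((N : ℝ) / d)
      rwa [Nat.floor_div_eq_div] at this
    have h4 := mul_le_mul_of_nonneg_left h9.le (vonMangoldt_nonneg (n := d))
    calc (N : ℝ) * (vonMangoldt d / d) = vonMangoldt d * (N / d) := by ring
      _ ≤ vonMangoldt d * (((N / d : ℕ) : ℝ) + 1) := h4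
      _ = _ := by ring
  have h2 : Real.log (N.factorial : ℝ) ≤ N * Real.log N := by
    rw [← Real.log_pow]
    apply Real.log_le_log
    · exact_mod_cast Nat.factorial_pos N
    · exact_mod_cast Nat.factorial_le_pow N
  have h3 := psi_nat_le N
  have h7 : (N : ℝ) * Mt N ≤ N * (Real.log N + 6) := by
    calc (N : ℝ) * Mt N ≤ N * Real.log N + 6 * N := by linarith
      _ = _ := by ring
  exact le_of_mul_le_mul_left h7 hNpos

/-- the constant for proper prime powers -/
noncomputable def Cpp : ℝ := ∑' n : ℕ, 4 / (n : ℝ) ^ (3 / 2 : ℝ)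

theorem log_le_two_sqrt (n : ℕ) (hn : 1 ≤ n) : Real.log n ≤ 2 * (n : ℝ) ^ (1 / 2 : ℝ) := by
  have h := Real.log_natCast_le_rpow_div n (show (0 : ℝ) < 1 / 2 by norm_num)
  refine h.trans (le_of_eq ?_)
  field_simp

theorem pp_bound (N : ℕ) :
    ∑ d ∈ (Ioc 0 N).filter (fun d => ¬ d.Prime), vonMangoldt d / (d : ℝ) ≤ Cpp := by
  have h1 : ∑ d ∈ (Ioc 0 N).filter (fun d => ¬ d.Prime), vonMangoldt d / (d : ℝ) ≤
      ∑ d ∈ (((range (N + 1)).filter Nat.Prime) ×ˢ (Icc 2 (N + 1))).image (fun x : ℕ × ℕ => x.1 ^ x.2),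
        vonMangoldt d / (d : ℝ) := by
    have h2 : ∑ d ∈ (Ioc 0 N).filter (fun d => ¬ d.Prime), vonMangoldt d / (d : ℝ) =
        ∑ d ∈ ((Ioc 0 N).filter (fun d => ¬ d.Prime)).filter (fun d => vonMangoldt d ≠ 0),
          vonMangoldt d / (d : ℝ) := by
      symm
      apply Finset.sum_subset (Finset.filter_subset _ _)
      intro d hd hd'
      rw [mem_filter] at hd'
      have : vonMangoldt d = 0 := by
        by_contra h
        exact hd' ⟨hd, h⟩
      rw [this, zero_div]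
    rw [h2]
    apply Finset.sum_le_sum_of_subset_of_nonneg
    · intro d hd
      rw [mem_filter, mem_filter, mem_Ioc] at hd
      obtain ⟨⟨⟨hd0, hdN⟩, hd2⟩, hd3⟩ := hd
      rw [vonMangoldt_ne_zero_iff] at hd3
      obtain ⟨p, k, hp, hk, hpk⟩ := hd3
      have hp' : p.Prime := Nat.prime_iff.mpr hp
      rw [mem_image]
      refine ⟨(p, k), ?_, hpk⟩
      rw [mem_product, mem_filter, mem_range, mem_Icc]
      have h3 : k < p ^ k := Nat.lt_pow_self hp'.one_lt
      have h4 : p ≤ p ^ k := Nat.le_self_pow hk.ne' p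
      have h5 : k ≠ 1 := by
        rintro rfl
        apply hd2
        rw [← hpk, pow_one]
        exact hp'
      refine ⟨⟨by simp only; omega, hp'⟩, by simp only; omega, by simp only; omega⟩
    · intro d _ _
      exact div_nonneg (vonMangoldt_nonneg (n := d)) (Nat.cast_nonneg d)
  have h2 : ∑ d ∈ (((range (N + 1)).filter Nat.Prime) ×ˢ (Icc 2 (N + 1))).image
        (fun x : ℕ × ℕ => x.1 ^ x.2), vonMangoldt d / (d : ℝ) ≤
      ∑ x ∈ ((range (N + 1)).filter Nat.Prime) ×ˢ (Icc 2 (N + 1)),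
        vonMangoldt (x.1 ^ x.2) / ((x.1 ^ x.2 : ℕ) : ℝ) := by
    apply Finset.sum_image_le_of_nonneg
    intro d _
    exact div_nonneg (vonMangoldt_nonneg) (Nat.cast_nonneg _)
  rw [Finset.sum_product] at h2
  have h3 : ∀ p ∈ (range (N + 1)).filter Nat.Prime, ∑ k ∈ Icc 2 (N + 1),
      vonMangoldt (p ^ k) / ((p ^ k : ℕ) : ℝ) ≤ 4 / (p : ℝ) ^ (3 / 2 : ℝ) := by
    intro p hp
    rw [mem_filter] at hp
    have hpp := hp.2
    have hp0 : (0 : ℝ) < p := by exact_mod_cast hpp.pos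
    have hp2 : (2 : ℝ) ≤ p := by exact_mod_cast hpp.two_le
    have h4 : ∀ k ∈ Icc 2 (N + 1), vonMangoldt (p ^ k) / ((p ^ k : ℕ) : ℝ) =
        (Real.log p / (p : ℝ) ^ 2) * ((p : ℝ)⁻¹) ^ (k - 2) := by
      intro k hk
      rw [mem_Icc] at hk
      rw [vonMangoldt_apply_pow (by omega), vonMangoldt_apply_prime hpp]
      push_cast
      obtain ⟨m, rfl⟩ : ∃ m, k = m + 2 := ⟨k - 2, by omega⟩
      rw [Nat.add_sub_cancel, inv_pow, pow_add]
      field_simp
    rw [Finset.sum_congr rfl h4, ← Finset.mul_sum]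
    have h5 : ∑ k ∈ Icc 2 (N + 1), ((p : ℝ)⁻¹) ^ (k - 2) ≤ 2 := by
      have h6 : ∑ k ∈ Icc 2 (N + 1), ((p : ℝ)⁻¹) ^ (k - 2) = ∑ m ∈ range N, ((p : ℝ)⁻¹) ^ m := by
        rw [Finset.range_eq_Ico]
        symm
        apply Finset.sum_bij (fun m _ => m + 2)
        · intro m hm
          rw [mem_Ico] at hm
          rw [mem_Icc]
          omega
        · intro a _ b _ hab
          omega
        · intro b hb
          rw [mem_Icc] at hb
          exact ⟨b - 2, by rw [mem_Ico]; omega, by omega⟩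
        · intro m _
          rw [Nat.add_sub_cancel]
      rw [h6]
      calc ∑ m ∈ range N, ((p : ℝ)⁻¹) ^ m ≤ ∑ m ∈ range N, (1 / 2 : ℝ) ^ m := by
            apply Finset.sum_le_sum
            intro m _
            apply pow_le_pow_left₀ (by positivity)
            rw [one_div]
            exact inv_anti₀ (by norm_num) hp2
        _ ≤ 2 := by
            have h7 := (summable_geometric_two).sum_le_tsum (range N) (fun i _ => by positivity)
            rw [tsum_geometric_two] at h7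
            exact h7
    have h6 := log_le_two_sqrt p hpp.one_lt.le
    have h7 : Real.log p / (p : ℝ) ^ 2 ≤ 2 / (p : ℝ) ^ (3 / 2 : ℝ) := by
      rw [div_le_div_iff₀ (by positivity) (by positivity)]
      have e : (p : ℝ) ^ 2 = (p : ℝ) ^ (1 / 2 : ℝ) * (p : ℝ) ^ (3 / 2 : ℝ) := by
        rw [← Real.rpow_add hp0]
        norm_num
      rw [e]
      have := Real.rpow_pos_of_pos hp0 (3 / 2)
      nlinarith
    have hlog : 0 ≤ Real.log p := Real.log_natCast_nonneg p
    calc Real.log p / (p : ℝ) ^ 2 * ∑ k ∈ Icc 2 (N + 1), ((p : ℝ)⁻¹) ^ (k - 2) ≤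
        (2 / (p : ℝ) ^ (3 / 2 : ℝ)) * 2 := by
          apply mul_le_mul h7 h5 (Finset.sum_nonneg fun _ _ => by positivity) (by positivity)
      _ = _ := by ring
  have hsum : Summable (fun n : ℕ => 4 / (n : ℝ) ^ (3 / 2 : ℝ)) := by
    have := (Real.summable_one_div_nat_rpow (p := 3 / 2)).mpr (by norm_num)
    have h8 := this.mul_left 4
    simpa [div_eq_mul_inv] using h8
  calc _ ≤ _ := h1
    _ ≤ _ := h2
    _ ≤ ∑ p ∈ (range (N + 1)).filter Nat.Prime, 4 / (p : ℝ) ^ (3 / 2 : ℝ) := Finset.sum_le_sum h3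
    _ ≤ _ := hsum.sum_le_tsum _ (fun i _ => by positivity)

theorem mertens_lower : ∃ C0 : ℝ, ∀ x y : ℕ, 2 ≤ x → x ≤ y → Real.log y - Real.log x - C0 ≤
      ∑ p ∈ (Finset.Ioc x y).filter Nat.Prime, Real.log p / p := by
  refine ⟨7 + Cpp, fun x y hx hxy => ?_⟩
  have h1 := Mt_lower y (by omega)
  have h2 := Mt_upper x (by omega)
  have h3 := pp_bound y
  have h4 : Mt y = Mt x + ∑ d ∈ Ioc x y, vonMangoldt d / (d : ℝ) := by
    unfold Mt
    rw [Finset.sum_Ioc_consecutive _ (by omega) hxy]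
  have h5 : ∑ d ∈ Ioc x y, vonMangoldt d / (d : ℝ) =
      ∑ d ∈ (Ioc x y).filter Nat.Prime, vonMangoldt d / (d : ℝ) +
      ∑ d ∈ (Ioc x y).filter (fun d => ¬ d.Prime), vonMangoldt d / (d : ℝ) :=
    (Finset.sum_filter_add_sum_filter_not _ _ _).symm
  have h6 : ∑ d ∈ (Ioc x y).filter (fun d => ¬ d.Prime), vonMangoldt d / (d : ℝ) ≤
      ∑ d ∈ (Ioc 0 y).filter (fun d => ¬ d.Prime), vonMangoldt d / (d : ℝ) := by
    apply Finset.sum_le_sum_of_subset_of_nonneg
    · apply Finset.filter_subset_filter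
      intro d hd
      rw [mem_Ioc] at hd ⊢
      omega
    · intro d _ _
      exact div_nonneg (vonMangoldt_nonneg) (Nat.cast_nonneg _)
  have h7 : ∑ d ∈ (Ioc x y).filter Nat.Prime, vonMangoldt d / (d : ℝ) =
      ∑ p ∈ (Finset.Ioc x y).filter Nat.Prime, Real.log p / p := by
    apply Finset.sum_congr rfl
    intro p hp
    rw [mem_filter] at hp
    rw [vonMangoldt_apply_prime hp.2]
  rw [← h7]
  linarith

end Pool.Agent.H.MP_3e6494_nt.H15
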