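import Mathlib

/-!
Asymptotic facts used for the choice of parameters.
-/

set_option autoImplicit false

open Finset Filter Topology

namespace Pool.Agent.H.MP_3e6494_nt.H15

/-- first block -/
noncomputable def K0 (η ℓ : ℝ) : ℕ := ⌊ℓ ^ η⌋₊

/-- last block (exclusive) -/
noncomputable def K1 (η ℓ : ℝ) : ℕ := ⌊ℓ ^ (1 - η)⌋₊

/-- harmonic sum over the blocks -/
noncomputable def LL (η ℓ : ℝ) : ℝ := ∑ k ∈ Finset.Ico (K0 η ℓ) (K1 η ℓ), 1 / (k : ℝ)

theorem ev_K0 (η : ℝ) (hη : 0 < η) (k₀ : ℕ) : ∀ᶠ ℓ : ℝ in atTop, k₀ ≤ K0 η ℓ :=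
  (tendsto_nat_floor_atTop.comp (tendsto_rpow_atTop hη)).eventually_ge_atTop k₀

theorem K1_le (η ℓ : ℝ) (hℓ : 0 ≤ ℓ) : (K1 η ℓ : ℝ) ≤ ℓ ^ (1 - η) :=
  Nat.floor_le (Real.rpow_nonneg hℓ _)

theorem ev_rpow_small (η D c : ℝ) (hη : 0 < η) (hD : 0 < D) (hc : 0 < c) :
    ∀ᶠ ℓ : ℝ in atTop, (ℓ ^ (1 - η) + 1) * D ≤ c * ℓ := by
  have h1 : Tendsto (fun ℓ : ℝ => ℓ ^ (-η)) atTop (𝓝 0) := tendsto_rpow_neg_atTop hη
  have h2 := h1.eventually (gt_mem_nhds (show (0 : ℝ) < c / (2 * D) by positivity))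
  filter_upwards [h2, eventually_ge_atTop (1 : ℝ), eventually_ge_atTop (2 * D / c)] with ℓ h3 h4 h5
  have hℓ : 0 < ℓ := by linarith
  have h6 : ℓ ^ (1 - η) = ℓ * ℓ ^ (-η) := by
    rw [sub_eq_add_neg, Real.rpow_add hℓ, Real.rpow_one]
  rw [h6]
  have h7 : ℓ * ℓ ^ (-η) * D ≤ ℓ * (c / (2 * D)) * D := by gcongr
  have h8 : ℓ * (c / (2 * D)) * D = c * ℓ / 2 := by field_simp
  have h9 : D ≤ c * ℓ / 2 := by
    rw [div_le_iff₀ hc] at h5
    linarith
  linarith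

theorem ev_K1 (η D c : ℝ) (hη : 0 < η) (hD : 0 < D) (hc : 0 < c) :
    ∀ᶠ ℓ : ℝ in atTop, ((K1 η ℓ : ℝ) + 1) * D ≤ c * ℓ := by
  filter_upwards [ev_rpow_small η D c hη hD hc, eventually_ge_atTop (0 : ℝ)] with ℓ h1 h2
  have := K1_le η ℓ h2
  refine le_trans ?_ h1
  gcongr

theorem log_K0 (η ℓ : ℝ) (hη : 0 < η) (hℓ : 0 < ℓ) :
    Real.log ℓ ≤ (1 / η) * Real.log ((K0 η ℓ : ℝ) + 1) := by
  have h1 : ℓ ^ η < (K0 η ℓ : ℝ) + 1 := Nat.lt_floor_add_one _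
  have h2 : η * Real.log ℓ < Real.log ((K0 η ℓ : ℝ) + 1) := by
    rw [← Real.log_rpow hℓ]
    exact Real.log_lt_log (Real.rpow_pos_of_pos hℓ _) h1
  rw [one_div, le_inv_mul_iff₀ hη]
  exact h2.le

theorem sum_Ico_lower (a b : ℕ) (ha : 1 ≤ a) (hab : a ≤ b) :
    Real.log b - Real.log a ≤ ∑ k ∈ Finset.Ico a b, 1 / (k : ℝ) := by
  induction b, hab using Nat.le_induction with
  | base => simp
  | succ b hb ih =>
    rw [Finset.sum_Ico_succ_top hb]
    have hb' : (0 : ℝ) < b := by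
      have : 0 < b := by omega
      exact_mod_cast this
    have h1 : Real.log ((b + 1 : ℕ) : ℝ) - Real.log b ≤ 1 / (b : ℝ) := by
      rw [← Real.log_div (by positivity) hb'.ne']
      have := Real.log_le_sub_one_of_pos (x := ((b + 1 : ℕ) : ℝ) / b) (by positivity)
      refine this.trans (le_of_eq ?_)
      push_cast
      field_simp
      ring
    linarith

theorem sum_Ico_upper (a b : ℕ) (ha : 1 ≤ a) :
    ∑ k ∈ Finset.Ico a b, 1 / (k : ℝ) ≤ 1 + Real.log b := by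
  have h := harmonic_le_one_add_log b
  rw [harmonic_eq_sum_Icc] at h
  push_cast at h
  refine le_trans ?_ h
  calc ∑ k ∈ Finset.Ico a b, 1 / (k : ℝ) ≤ ∑ k ∈ Finset.Icc 1 b, 1 / (k : ℝ) := by
        apply Finset.sum_le_sum_of_subset_of_nonneg
        · intro k hk
          rw [Finset.mem_Ico] at hk
          rw [Finset.mem_Icc]
          omega
        · intro k _ _
          positivity
    _ = ∑ k ∈ Finset.Icc 1 b, ((k : ℝ))⁻¹ := by
        apply Finset.sum_congr rfl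
        intro k _
        rw [one_div]

theorem ev_LL_upper (η : ℝ) (hη : 0 < η) (hη1 : η < 1) : ∀ᶠ ℓ : ℝ in atTop, LL η ℓ ≤ Real.log ℓ := by
  filter_upwards [ev_K0 η hη 1, Real.tendsto_log_atTop.eventually_ge_atTop (1 / η),
    eventually_ge_atTop (1 : ℝ)] with ℓ h1 h2 h3
  have hℓ : 0 < ℓ := by linarith
  have h4 := sum_Ico_upper (K0 η ℓ) (K1 η ℓ) h1
  have h5 : Real.log (K1 η ℓ : ℝ) ≤ (1 - η) * Real.log ℓ := by
    rcases Nat.eq_zero_or_pos (K1 η ℓ) with h | h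
    · rw [h]
      simp only [Nat.cast_zero, Real.log_zero]
      exact mul_nonneg (by linarith) (Real.log_nonneg h3)
    · have hk : (0 : ℝ) < (K1 η ℓ : ℝ) := by exact_mod_cast h
      have := Real.log_le_log hk (K1_le η ℓ hℓ.le)
      rwa [Real.log_rpow hℓ] at this
  have h6 : 1 ≤ η * Real.log ℓ := by
    rw [div_le_iff₀ hη] at h2
    linarith
  unfold LL
  nlinarith

theorem ev_LL_lower (η : ℝ) (hη : 0 < η) (hη1 : η < 1 / 2) :
    ∀ᶠ ℓ : ℝ in atTop, (1 - 3 * η) * Real.log ℓ ≤ LL η ℓ := by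
  have h0 : Tendsto (fun ℓ : ℝ => ℓ ^ (1 - η)) atTop atTop := tendsto_rpow_atTop (by linarith)
  filter_upwards [ev_K0 η hη 1, Real.tendsto_log_atTop.eventually_ge_atTop (Real.log 2 / η),
    eventually_ge_atTop (1 : ℝ), h0.eventually_ge_atTop 2] with ℓ h1 h2 h3 h4
  have hℓ : 0 < ℓ := by linarith
  have hle : K0 η ℓ ≤ K1 η ℓ := by
    apply Nat.floor_le_floor
    exact Real.rpow_le_rpow_of_exponent_le h3 (by linarith)
  have h5 := sum_Ico_lower (K0 η ℓ) (K1 η ℓ) h1 hle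
  have h6 : Real.log (K0 η ℓ : ℝ) ≤ η * Real.log ℓ := by
    have hk : (0 : ℝ) < (K0 η ℓ : ℝ) := by exact_mod_cast h1
    have hle' : (K0 η ℓ : ℝ) ≤ ℓ ^ η := Nat.floor_le (Real.rpow_nonneg hℓ.le _)
    have := Real.log_le_log hk hle'
    rwa [Real.log_rpow hℓ] at this
  have h7 : (1 - η) * Real.log ℓ - Real.log 2 ≤ Real.log (K1 η ℓ : ℝ) := by
    have h8 : ℓ ^ (1 - η) / 2 ≤ (K1 η ℓ : ℝ) := by
      have : ℓ ^ (1 - η) < (K1 η ℓ : ℝ) + 1 := Nat.lt_floor_add_one _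
      linarith
    have h9 := Real.log_le_log (by positivity) h8
    rw [Real.log_div (by positivity) (by norm_num), Real.log_rpow hℓ] at h9
    exact h9
  have h10 : Real.log 2 ≤ η * Real.log ℓ := by
    rw [div_le_iff₀ hη] at h2
    linarith
  unfold LL
  nlinarith

theorem ev_pow_K0 (η b C : ℝ) (hη : 0 < η) (hb : 0 < b) (hC : 0 < C) :
    ∀ᶠ ℓ : ℝ in atTop, C * ℓ ≤ Real.exp (b * (K0 η ℓ : ℝ)) := by
  have h1 := tendsto_rpow_mul_exp_neg_mul_atTop_nhds_zero (1 / η) b hb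
  have h2 : Tendsto (fun ℓ : ℝ => (ℓ ^ η) ^ (1 / η) * Real.exp (-b * (ℓ ^ η))) atTop (𝓝 0) :=
    h1.comp (tendsto_rpow_atTop hη)
  have h3 := h2.eventually (gt_mem_nhds (show (0 : ℝ) < Real.exp (-b) / C by positivity))
  filter_upwards [h3, eventually_ge_atTop (1 : ℝ)] with ℓ h4 h5
  have hℓ : 0 < ℓ := by linarith
  have h6 : (ℓ ^ η) ^ (1 / η) = ℓ := by
    rw [← Real.rpow_mul hℓ.le, mul_one_div_cancel hη.ne', Real.rpow_one]
  rw [h6] at h4
  have h7 : ℓ ^ η < (K0 η ℓ : ℝ) + 1 := Nat.lt_floor_add_one _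
  have h8 : Real.exp (b * ℓ ^ η) ≤ Real.exp (b * (K0 η ℓ : ℝ)) * Real.exp b := by
    rw [← Real.exp_add]
    apply Real.exp_le_exp.mpr
    nlinarith
  have h9 : ℓ * Real.exp (-b * ℓ ^ η) * C < Real.exp (-b) := by
    rwa [lt_div_iff₀ hC] at h4
  have h10 : C * ℓ ≤ Real.exp (-b) * Real.exp (b * ℓ ^ η) := by
    have e : Real.exp (-b * ℓ ^ η) * Real.exp (b * ℓ ^ η) = 1 := by
      rw [← Real.exp_add]
      simp
    calc C * ℓ = (ℓ * Real.exp (-b * ℓ ^ η) * C) * Real.exp (b * ℓ ^ η) := by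
          calc C * ℓ = C * ℓ * (Real.exp (-b * ℓ ^ η) * Real.exp (b * ℓ ^ η)) := by rw [e, mul_one]
            _ = _ := by ring
      _ ≤ Real.exp (-b) * Real.exp (b * ℓ ^ η) := by
          apply mul_le_mul_of_nonneg_right h9.le (Real.exp_pos _).le
  calc C * ℓ ≤ Real.exp (-b) * Real.exp (b * ℓ ^ η) := h10
    _ ≤ Real.exp (-b) * (Real.exp (b * (K0 η ℓ : ℝ)) * Real.exp b) := by gcongr
    _ = Real.exp (b * (K0 η ℓ : ℝ)) := by
        rw [mul_comm (Real.exp (b * _)) (Real.exp b), ← mul_assoc, ← Real.exp_add]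
        simp

theorem ev_nat_log (a C : ℝ) (ha : 0 < a) : ∃ k₀ : ℕ, 2 ≤ k₀ ∧ ∀ k : ℕ, k₀ ≤ k →
    C + 3 * Real.log (2 * k) ≤ a * k := by
  have h1 : (fun x : ℝ => Real.log x) =o[atTop] (fun x : ℝ => x) := by
    have := isLittleO_log_rpow_atTop (r := 1) one_pos
    simpa using this
  have h2 := h1.def (show (0 : ℝ) < a / 12 by positivity)
  have h3 : Tendsto (fun k : ℕ => 2 * (k : ℝ)) atTop atTop :=
    Tendsto.const_mul_atTop (by norm_num) tendsto_natCast_atTop_atTop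
  have h4 := h3.eventually h2
  have h5 : ∀ᶠ k : ℕ in atTop, 2 * C / a ≤ (k : ℝ) :=
    tendsto_natCast_atTop_atTop.eventually_ge_atTop _
  obtain ⟨k₁, hk₁⟩ := Filter.eventually_atTop.mp (h4.and (h5.and (eventually_ge_atTop 1)))
  refine ⟨max 2 k₁, le_max_left _ _, fun k hk => ?_⟩
  obtain ⟨h6, h7, h8⟩ := hk₁ k (le_trans (le_max_right _ _) hk)
  have hk0 : (1 : ℝ) ≤ k := by exact_mod_cast h8
  rw [Real.norm_of_nonneg (Real.log_nonneg (by linarith)), Real.norm_of_nonneg (by positivity)] at h6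
  rw [div_le_iff₀ ha] at h7
  nlinarith

theorem ev_pow_log (n : ℕ) (C : ℝ) (hC : 0 < C) : ∀ᶠ V : ℝ in atTop, C * Real.log V ^ n ≤ V := by
  have h1 := Real.isLittleO_pow_log_id_atTop (n := n)
  have h2 := h1.def (show (0 : ℝ) < 1 / C by positivity)
  filter_upwards [h2, eventually_ge_atTop (1 : ℝ)] with V h3 h4
  have h5 : 0 ≤ Real.log V ^ n := pow_nonneg (Real.log_nonneg h4) _
  rw [Real.norm_of_nonneg h5, id, Real.norm_of_nonneg (by linarith)] at h3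
  calc C * Real.log V ^ n ≤ C * (1 / C * V) := by gcongr
    _ = V := by field_simp

theorem ev_log_succ (c : ℝ) (hc : 0 < c) : ∀ᶠ V : ℝ in atTop,
    Real.log (V + 1) ≤ (1 + c) * Real.log V := by
  filter_upwards [Real.tendsto_log_atTop.eventually_ge_atTop (Real.log 2 / c),
    eventually_ge_atTop (1 : ℝ)] with V h1 h2
  have h3 : Real.log (V + 1) ≤ Real.log V + Real.log 2 := by
    rw [← Real.log_mul (by linarith) (by norm_num)]
    apply Real.log_le_log (by linarith)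
    linarith
  rw [div_le_iff₀ hc] at h1
  linarith

end Pool.Agent.H.MP_3e6494_nt.H15
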