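import Pool.Agent.H.MP_3e6494_nt.helper15.RelB

/-!
All cosets of subgroups of index up to `exp ((log q) ^ (1 - ε))`.
-/

set_option autoImplicit false

open Filter Topology

namespace Pool.Agent.H.MP_3e6494_nt.Str

theorem all_cosets {ε : ℝ} (hε : 0 < ε) {η : ℝ} (hη : 0 < η) :
    ∃ q₀ : ℕ, ∀ (q : ℕ) [Fact q.Prime], q₀ ≤ q →
      ∀ (H : Subgroup (DirichletCharacter ℂ q)) (χ₀ : DirichletCharacter ℂ q),
        Real.log H.index ≤ Real.log q ^ (1 - ε) →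
        ∃ ψ ∈ H, Real.exp ((√(Real.log 2 / 2) - η) *
          √(Real.log q / Real.log (Real.log q))) ≤ ‖(χ₀ * ψ).LFunction (1 / 2)‖ := by
  -- reduce to small `ε`
  set ε₁ : ℝ := min ε (1 / 2) with hε₁
  have hε₁0 : 0 < ε₁ := lt_min hε (by norm_num)
  have hε₁1 : ε₁ < 1 := lt_of_le_of_lt (min_le_right _ _) (by norm_num)
  have hε₁ε : ε₁ ≤ ε := min_le_left _ _
  -- auxiliary parameter
  set θ : ℝ := min (η / 8) (ε₁ / 4) with hθ
  have hθ0 : 0 < θ := lt_min (by linarith) (by linarith)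
  have hθ1 : θ ≤ 1 / 4 := (min_le_right _ _).trans (by linarith)
  have hθε : θ ≤ η / 8 := min_le_left _ _
  have hθε₁ : θ ≤ ε₁ / 4 := min_le_right _ _
  obtain ⟨n, hn3, hn⟩ := exists_ZZ (ε := θ ^ 2) (by positivity)
  have hm1 : 1 ≤ n - 2 := by omega
  have hmn : n - 2 + 2 ≤ n := by omega
  obtain ⟨q₁, hgen⟩ := gen (n := n) (m := n - 2) hm1 hmn hθ0 (by linarith : θ < 1)
  obtain ⟨q₂, hrel⟩ := exists_relBound (n := n) (m := n - 2) hmn hε₁0 hε₁1
  -- the constant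
  have hconst : √(Real.log 2 / 2) - η ≤ (1 - θ) ^ 2 * √(ZZ n (n - 2)) - θ := by
    have hl2 := Real.log_two_gt_d9
    have hl2' := Real.log_two_lt_d9
    have h1 : √(Real.log 2 / 2) - θ ≤ √(ZZ n (n - 2)) := by
      have h2 : √(Real.log 2 / 2) ≤ √(ZZ n (n - 2)) + θ := by
        rw [Real.sqrt_le_left (by positivity)]
        have h3 : 0 ≤ ZZ n (n - 2) := by
          have : θ ^ 2 ≤ 1 / 16 := by nlinarith
          linarith
        nlinarith [Real.sq_sqrt h3, Real.sqrt_nonneg (ZZ n (n - 2))]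
      linarith
    have h4 : √(Real.log 2 / 2) ≤ 1 := by
      rw [Real.sqrt_le_one]
      linarith
    have h5 : 0 ≤ √(Real.log 2 / 2) := Real.sqrt_nonneg _
    have h6 : 0 ≤ (1 - θ) ^ 2 := sq_nonneg _
    have h7 : (1 - θ) ^ 2 ≤ 1 := by nlinarith
    have h8 : (1 - θ) ^ 2 * (√(Real.log 2 / 2) - θ) ≤ (1 - θ) ^ 2 * √(ZZ n (n - 2)) :=
      mul_le_mul_of_nonneg_left h1 h6
    nlinarith [mul_nonneg hθ0.le h5]
  have hlog : Tendsto (fun q : ℕ => Real.log (q : ℝ)) atTop atTop :=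
    Real.tendsto_log_atTop.comp tendsto_natCast_atTop_atTop
  obtain ⟨q₃, hq₃⟩ := Filter.eventually_atTop.mp (hlog.eventually (eventually_ge_atTop (1 : ℝ)))
  refine ⟨max q₁ (max q₂ q₃), ?_⟩
  intro q hq hqq H χ₀ hidx
  have hl1 : 1 ≤ Real.log q := hq₃ q ((le_max_right _ _).trans ((le_max_right _ _).trans hqq))
  have hcard : Nat.card (KK H) = H.index := card_KK H
  have hexp : ∀ a : ℝ, a ≤ 1 - θ → Real.log q ^ a ≤ Real.log q ^ (1 - θ) := fun a ha =>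
    Real.rpow_le_rpow_of_exponent_le hl1 ha
  have hidx1 : Real.log H.index ≤ Real.log q ^ (1 - ε₁) :=
    hidx.trans (Real.rpow_le_rpow_of_exponent_le hl1 (by linarith))
  obtain ⟨E, hE1, hE2, hE3⟩ := hrel q ((le_max_left _ _).trans ((le_max_right _ _).trans hqq))
    (KK H) (by rw [hcard]; exact hidx1)
  obtain ⟨ψ, hψ, hψ2⟩ := hgen q ((le_max_left _ _).trans hqq) H χ₀ E hE1
    (hE2.trans (hexp _ (by linarith))) (hidx1.trans (hexp _ (by linarith))) hE3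
  refine ⟨ψ, hψ, le_trans (Real.exp_le_exp.mpr ?_) hψ2⟩
  exact mul_le_mul_of_nonneg_right hconst (Real.sqrt_nonneg _)

end Pool.Agent.H.MP_3e6494_nt.Str
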