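import Mathlib

/-!
Extraction of a cluster: pigeonhole for product sets of pairs of positive integers.
-/

set_option autoImplicit false
set_option linter.unusedVariables false

open Finset
open scoped Pointwise

namespace Pool.Agent.H.MP_3e6494_nt.Str

theorem pow_pos' (S : Finset (ℕ × ℕ)) (hpos : ∀ X ∈ S, 0 < X.1 ∧ 0 < X.2) (j : ℕ) :
    ∀ X ∈ S ^ j, 0 < X.1 ∧ 0 < X.2 := by
  induction j with
  | zero =>
    intro X hX
    rw [pow_zero, Finset.mem_one] at hX
    subst hX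
    exact ⟨one_pos, one_pos⟩
  | succ j ih =>
    intro X hX
    rw [pow_succ, Finset.mem_mul] at hX
    obtain ⟨a, ha, y, hy, rfl⟩ := hX
    exact ⟨Nat.mul_pos (ih a ha).1 (hpos y hy).1, Nat.mul_pos (ih a ha).2 (hpos y hy).2⟩

theorem pow_Omega (S : Finset (ℕ × ℕ)) (hpos : ∀ X ∈ S, 0 < X.1 ∧ 0 < X.2) (t : ℕ)
    (ht : ∀ X ∈ S, ArithmeticFunction.cardFactors X.1 + ArithmeticFunction.cardFactors X.2 = t)
    (j : ℕ) : ∀ X ∈ S ^ j,
      ArithmeticFunction.cardFactors X.1 + ArithmeticFunction.cardFactors X.2 = j * t := by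
  induction j with
  | zero =>
    intro X hX
    rw [pow_zero, Finset.mem_one] at hX
    subst hX
    simp
  | succ j ih =>
    intro X hX
    rw [pow_succ, Finset.mem_mul] at hX
    obtain ⟨a, ha, y, hy, rfl⟩ := hX
    have h1 := pow_pos' S hpos j a ha
    have h2 := hpos y hy
    have h3 := ih a ha
    have h4 := ht y hy
    rw [Prod.fst_mul, Prod.snd_mul, ArithmeticFunction.cardFactors_mul h1.1.ne' h2.1.ne',
      ArithmeticFunction.cardFactors_mul h1.2.ne' h2.2.ne', add_mul, one_mul]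
    omega

theorem step (S : Finset (ℕ × ℕ)) (b : ℝ) (k : ℕ) (D : ℝ)
    (hD : ((S ^ k).card : ℝ) ≤ D) (hbk : D < b ^ k) (hb : 0 ≤ b) :
    ∃ j < k, b ^ j ≤ ((S ^ j).card : ℝ) ∧ ((S ^ (j + 1)).card : ℝ) ≤ b * (S ^ j).card := by
  have key : ∀ i ≤ k, (∃ j < i, b ^ j ≤ ((S ^ j).card : ℝ) ∧
      ((S ^ (j + 1)).card : ℝ) ≤ b * (S ^ j).card) ∨ b ^ i ≤ ((S ^ i).card : ℝ) := by
    intro i
    induction i with
    | zero =>
      intro _
      right
      simp
    | succ i ih =>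
      intro hi
      rcases ih (by omega) with ⟨j, hj, h1⟩ | h1
      · exact Or.inl ⟨j, by omega, h1⟩
      · by_cases h2 : ((S ^ (i + 1)).card : ℝ) ≤ b * (S ^ i).card
        · exact Or.inl ⟨i, by omega, h1, h2⟩
        · right
          push Not at h2
          calc b ^ (i + 1) = b * b ^ i := pow_succ' b i
            _ ≤ b * (S ^ i).card := mul_le_mul_of_nonneg_left h1 hb
            _ ≤ _ := h2.le
  rcases key k le_rfl with h | h
  · exact h
  · linarith

open Classical in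
theorem pigeon (S : Finset (ℕ × ℕ)) (hpos : ∀ X ∈ S, 0 < X.1 ∧ 0 < X.2) (b : ℝ) (hb : 0 < b)
    (j : ℕ) (hj : ((S ^ (j + 1)).card : ℝ) ≤ b * (S ^ j).card) (hS : S.Nonempty) :
    ∃ w ∈ S ^ (j + 1), (S.card : ℝ) ≤ b * (S.filter fun X => X.1 ∣ w.1 ∧ X.2 ∣ w.2).card := by
  by_contra hcon
  push Not at hcon
  have hmaps : ∀ x ∈ (S ^ j) ×ˢ S, x.1 * x.2 ∈ S ^ (j + 1) := by
    intro x hx
    rw [Finset.mem_product] at hx
    rw [pow_succ]
    exact Finset.mul_mem_mul hx.1 hx.2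
  have h1 := Finset.card_eq_sum_card_fiberwise (f := fun x : (ℕ × ℕ) × (ℕ × ℕ) => x.1 * x.2) hmaps
  rw [Finset.card_product] at h1
  have h2 : ∀ w ∈ S ^ (j + 1), (((S ^ j) ×ˢ S).filter fun x => x.1 * x.2 = w).card ≤
      (S.filter fun X => X.1 ∣ w.1 ∧ X.2 ∣ w.2).card := by
    intro w hw
    apply Finset.card_le_card_of_injOn (fun x => x.2)
    · intro x hx
      rw [Finset.mem_coe, Finset.mem_filter, Finset.mem_product] at hx
      rw [Finset.mem_coe, Finset.mem_filter]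
      refine ⟨hx.1.2, ?_, ?_⟩
      · rw [← hx.2]
        exact dvd_mul_left _ _
      · rw [← hx.2]
        exact dvd_mul_left _ _
    · intro x hx y hy hxy
      rw [Finset.mem_coe, Finset.mem_filter, Finset.mem_product] at hx hy
      have hxy' : x.2 = y.2 := hxy
      have h3 := hpos x.2 hx.1.2
      have h4 : x.1 * x.2 = y.1 * x.2 := by
        rw [hx.2, hxy', hy.2]
      have h5 : x.1.1 * x.2.1 = y.1.1 * x.2.1 := congrArg Prod.fst h4
      have h6 : x.1.2 * x.2.2 = y.1.2 * x.2.2 := congrArg Prod.snd h4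
      exact Prod.ext (Prod.ext (Nat.eq_of_mul_eq_mul_right h3.1 h5)
        (Nat.eq_of_mul_eq_mul_right h3.2 h6)) hxy'
  have hSj : (S ^ j).Nonempty := hS.pow
  have hSj1 : (S ^ (j + 1)).Nonempty := hS.pow
  have h3 : (((S ^ j).card * S.card : ℕ) : ℝ) * b < ((S ^ (j + 1)).card : ℝ) * S.card := by
    rw [h1, Nat.cast_sum, Finset.sum_mul]
    rw [← nsmul_eq_mul, ← Finset.sum_const]
    apply Finset.sum_lt_sum_of_nonempty hSj1
    intro w hw
    have h4 := hcon w hw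
    have h5 : ((((S ^ j) ×ˢ S).filter fun x => x.1 * x.2 = w).card : ℝ) ≤
      ((S.filter fun X => X.1 ∣ w.1 ∧ X.2 ∣ w.2).card : ℝ) := by exact_mod_cast h2 w hw
    nlinarith
  have h4 : (0 : ℝ) < S.card := by exact_mod_cast hS.card_pos
  push_cast at h3
  nlinarith

/-- the primes of a pair -/
def pr (w : ℕ × ℕ) : Finset ℕ := w.1.primeFactors ∪ w.2.primeFactors

theorem card_pr (w : ℕ × ℕ) :
    (pr w).card ≤ ArithmeticFunction.cardFactors w.1 + ArithmeticFunction.cardFactors w.2 := by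
  refine (Finset.card_union_le _ _).trans (Nat.add_le_add ?_ ?_)
  · exact List.toFinset_card_le _
  · exact List.toFinset_card_le _

theorem pr_mono {X w : ℕ × ℕ} (h1 : X.1 ∣ w.1) (h2 : X.2 ∣ w.2) (hw1 : w.1 ≠ 0) (hw2 : w.2 ≠ 0) :
    pr X ⊆ pr w :=
  Finset.union_subset_union (Nat.primeFactors_mono h1 hw1) (Nat.primeFactors_mono h2 hw2)

/-- primes of products come from the factors -/
theorem pr_pow (S : Finset (ℕ × ℕ)) (hpos : ∀ X ∈ S, 0 < X.1 ∧ 0 < X.2) (j : ℕ) :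
    ∀ X ∈ S ^ j, ∀ p ∈ pr X, ∃ Y ∈ S, p ∈ pr Y := by
  induction j with
  | zero =>
    intro X hX
    rw [pow_zero, Finset.mem_one] at hX
    subst hX
    intro p hp
    simp [pr] at hp
  | succ j ih =>
    intro X hX p hp
    rw [pow_succ, Finset.mem_mul] at hX
    obtain ⟨a, ha, y, hy, rfl⟩ := hX
    have h1 := pow_pos' S hpos j a ha
    have h2 := hpos y hy
    unfold pr at hp
    rw [Prod.fst_mul, Prod.snd_mul, Nat.primeFactors_mul h1.1.ne' h2.1.ne',
      Nat.primeFactors_mul h1.2.ne' h2.2.ne', Finset.mem_union, Finset.mem_union,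
      Finset.mem_union] at hp
    rcases hp with (h | h) | (h | h)
    · exact ih a ha p (Finset.mem_union_left _ h)
    · exact ⟨y, hy, Finset.mem_union_left _ h⟩
    · exact ih a ha p (Finset.mem_union_right _ h)
    · exact ⟨y, hy, Finset.mem_union_right _ h⟩

/-- **Extraction of a cluster.** -/
theorem extract (S : Finset (ℕ × ℕ)) (hpos : ∀ X ∈ S, 0 < X.1 ∧ 0 < X.2) (t : ℕ)
    (ht : ∀ X ∈ S, ArithmeticFunction.cardFactors X.1 + ArithmeticFunction.cardFactors X.2 = t)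
    (b D ρ : ℝ) (hb : 1 < b) (hρ : 1 ≤ ρ) (k R : ℕ)
    (hD : ∀ T ⊆ S, ((T ^ k).card : ℝ) ≤ D) (hbk : D < b ^ k) (hR : (k : ℝ) ≤ ρ ^ R)
    (hS : b ^ (R + 1) < S.card) :
    ∃ T ⊆ S, ∃ j : ℕ, 1 ≤ j ∧ j < k ∧ b ^ j ≤ ((T ^ j).card : ℝ) ∧
      ∃ V : Finset ℕ, (∀ X ∈ T, pr X ⊆ V) ∧ (∀ p ∈ V, ∃ Y ∈ S, p ∈ pr Y) ∧
        (V.card : ℝ) ≤ 2 * ρ * j * t := by
  classical
  by_contra hcon
  push Not at hcon
  have hb0 : 0 < b := by linarith
  -- one round
  have round : ∀ T ⊆ S, b < T.card → ∃ j : ℕ, 1 ≤ j ∧ j < k ∧ b ^ j ≤ ((T ^ j).card : ℝ) ∧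
      ∃ T' ⊆ T, ∃ V : Finset ℕ, (T.card : ℝ) ≤ b * T'.card ∧ (∀ X ∈ T', pr X ⊆ V) ∧
        (∀ p ∈ V, ∃ Y ∈ S, p ∈ pr Y) ∧ V.card ≤ (j + 1) * t := by
    intro T hT hbT
    have hposT : ∀ X ∈ T, 0 < X.1 ∧ 0 < X.2 := fun X hX => hpos X (hT hX)
    have htT : ∀ X ∈ T,
        ArithmeticFunction.cardFactors X.1 + ArithmeticFunction.cardFactors X.2 = t :=
      fun X hX => ht X (hT hX)
    have hTne : T.Nonempty := by
      rw [Finset.nonempty_iff_ne_empty]
      rintro rfl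
      simp at hbT
      linarith
    obtain ⟨j, hjk, h1, h2⟩ := step T b k D (hD T hT) hbk hb0.le
    have hj1 : 1 ≤ j := by
      by_contra hj
      have hj0 : j = 0 := by omega
      subst hj0
      simp at h2
      linarith
    obtain ⟨w, hw, hw2⟩ := pigeon T hposT b hb0 j h2 hTne
    have hwpos := pow_pos' T hposT (j + 1) w hw
    refine ⟨j, hj1, hjk, h1, T.filter fun X => X.1 ∣ w.1 ∧ X.2 ∣ w.2, Finset.filter_subset _ _,
      pr w, hw2, ?_, ?_, ?_⟩
    · intro X hX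
      rw [Finset.mem_filter] at hX
      exact pr_mono hX.2.1 hX.2.2 hwpos.1.ne' hwpos.2.ne'
    · intro p hp
      obtain ⟨Y, hY, hpY⟩ := pr_pow T hposT (j + 1) w hw p hp
      exact ⟨Y, hT hY, hpY⟩
    · refine (card_pr w).trans (le_of_eq ?_)
      exact pow_Omega T hposT t htT (j + 1) w hw
  -- iterate
  have iter : ∀ i ≤ R, ∃ T ⊆ S, (S.card : ℝ) ≤ b ^ (i + 1) * T.card ∧ ∃ J : ℕ, 1 ≤ J ∧
      (J : ℝ) * ρ ^ i < k ∧ ∃ V : Finset ℕ, (∀ X ∈ T, pr X ⊆ V) ∧
        (∀ p ∈ V, ∃ Y ∈ S, p ∈ pr Y) ∧ V.card ≤ (J + 1) * t := by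
    intro i
    induction i with
    | zero =>
      intro _
      have hbS : b < S.card := by
        refine lt_of_le_of_lt ?_ hS
        calc b = b ^ 1 := (pow_one b).symm
          _ ≤ b ^ (R + 1) := pow_le_pow_right₀ hb.le (by omega)
      obtain ⟨j, hj1, hjk, h1, T', hT', V, h2, h3, h4, h5⟩ := round S (Finset.Subset.refl S) hbS
      refine ⟨T', hT', by rw [zero_add, pow_one]; exact h2, j, hj1, ?_, V, h3, h4, h5⟩
      rw [pow_zero, mul_one]
      exact_mod_cast hjk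
    | succ i ih =>
      intro hi
      obtain ⟨T, hT, h1, J, hJ, hJk, V, h2, h3, h4⟩ := ih (by omega)
      have hbT : b < T.card := by
        have h5 : b ^ (R + 1) < b ^ (i + 1) * T.card := lt_of_lt_of_le hS h1
        have h6 : b ^ (i + 1) * b ≤ b ^ (R + 1) := by
          rw [← pow_succ]
          exact pow_le_pow_right₀ hb.le (by omega)
        have h7 : (0 : ℝ) < b ^ (i + 1) := by positivity
        by_contra h8
        push Not at h8
        nlinarith
      obtain ⟨j, hj1, hjk, h5, T', hT', V', h6, h7, h8, h9⟩ := round T hT hbT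
      -- either success or a large drop
      have hlt : 2 * ρ * j * t < (V.card : ℝ) := hcon T hT j hj1 hjk h5 V h2 h3
      have h10 : ρ * j < J := by
        have h11 : (V.card : ℝ) ≤ ((J : ℝ) + 1) * t := by exact_mod_cast h4
        have h12 : ((J : ℝ) + 1) * t ≤ 2 * J * t := by
          have : (1 : ℝ) ≤ J := by exact_mod_cast hJ
          have ht0 : (0 : ℝ) ≤ t := Nat.cast_nonneg t
          nlinarith
        by_contra h13
        push Not at h13
        have ht0 : (0 : ℝ) ≤ t := Nat.cast_nonneg t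
        nlinarith
      refine ⟨T', hT'.trans hT, ?_, j, hj1, ?_, V', h7, h8, h9⟩
      · calc (S.card : ℝ) ≤ b ^ (i + 1) * T.card := h1
          _ ≤ b ^ (i + 1) * (b * T'.card) := by gcongr
          _ = b ^ (i + 1 + 1) * T'.card := by ring
      · calc (j : ℝ) * ρ ^ (i + 1) = (ρ * j) * ρ ^ i := by ring
          _ ≤ J * ρ ^ i := by gcongr
          _ < k := hJk
  obtain ⟨T, hT, h1, J, hJ, hJk, -⟩ := iter R le_rfl
  have h2 : (1 : ℝ) ≤ J := by exact_mod_cast hJ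
  have h3 : (0 : ℝ) < ρ ^ R := by positivity
  nlinarith

end Pool.Agent.H.MP_3e6494_nt.Str
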