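import Mathlib

/-!
The resonance inequality for a subgroup of characters modulo a prime.  The resonator
coefficients are grouped according to the evaluation functional on the subgroup.
-/

set_option autoImplicit false
set_option linter.unusedVariables false
set_option linter.unusedSectionVars false

open Finset
open scoped ComplexConjugate

namespace Pool.Agent.H.MP_3e6494_nt.H15

variable {q : ℕ} [Fact q.Prime] (H : Subgroup (DirichletCharacter ℂ q)) [Fintype H]

/-- evaluation of the characters in `H` at `m` -/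
noncomputable def ev (m : ℕ) : H → ℂ := fun χ => χ.1 (m : ZMod q)

theorem ev_mul (m n : ℕ) : ev H (m * n) = ev H m * ev H n := by
  funext χ
  simp [ev]

theorem ev_one : ev H 1 = 1 := by
  funext χ
  simp [ev]

theorem norm_ev {m : ℕ} (hm : m.Coprime q) (χ : H) : ‖ev H m χ‖ = 1 := by
  have : (m : ZMod q) = ((ZMod.unitOfCoprime m hm : (ZMod q)ˣ) : ZMod q) := by simp
  rw [ev, this]
  exact DirichletCharacter.unit_norm_eq_one _ _

theorem ev_mod (m : ℕ) : ev H (m % q) = ev H m := by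
  funext χ
  simp [ev]

/-- Fermat -/
theorem ev_fermat {m : ℕ} (hm : m.Coprime q) : ev H (m * m ^ (q - 2)) = 1 := by
  have hq : q.Prime := Fact.out
  have h2 := hq.two_le
  funext χ
  have h1 : ((m * m ^ (q - 2) : ℕ) : ZMod q) = 1 := by
    have e : m * m ^ (q - 2) = m ^ (q - 1) := by
      rw [← pow_succ']
      congr 1
      omega
    rw [e]
    push_cast
    apply ZMod.pow_card_sub_one_eq_one
    intro h
    rw [ZMod.natCast_eq_zero_iff] at h
    exact ((Nat.Prime.coprime_iff_not_dvd hq).1 hm.symm) h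
  rw [ev, h1]
  simp

theorem orth {m n : ℕ} (hm : m.Coprime q) (hn : n.Coprime q) [Decidable (ev H m = ev H n)] :
    ∑ χ : H, ev H m χ * conj (ev H n χ) = if ev H m = ev H n then (Fintype.card H : ℂ) else 0 := by
  split_ifs with h
  · rw [h]
    have : ∀ χ : H, ev H n χ * conj (ev H n χ) = 1 := by
      intro χ
      rw [Complex.mul_conj, Complex.normSq_eq_norm_sq, norm_ev H hn]
      simp
    rw [Finset.sum_congr rfl (fun χ _ => this χ)]
    simp
  · obtain ⟨ψ, hψ⟩ : ∃ ψ : H, ev H m ψ ≠ ev H n ψ := by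
      by_contra hcon
      push Not at hcon
      exact h (funext hcon)
    set S := ∑ χ : H, ev H m χ * conj (ev H n χ) with hS
    have h1 : S = (ev H m ψ * conj (ev H n ψ)) * S := by
      conv_lhs => rw [hS, ← Equiv.sum_comp (Equiv.mulLeft ψ)]
      rw [hS, Finset.mul_sum]
      apply Finset.sum_congr rfl
      intro χ _
      simp only [Equiv.coe_mulLeft, ev, Subgroup.coe_mul, MulChar.coeToFun_mul, Pi.mul_apply, map_mul]
      ring
    have h2 : ev H m ψ * conj (ev H n ψ) ≠ 1 := by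
      intro hcon
      apply hψ
      have h3 : conj (ev H n ψ) * ev H n ψ = 1 := by
        rw [mul_comm, Complex.mul_conj, Complex.normSq_eq_norm_sq, norm_ev H hn]
        simp
      calc ev H m ψ = ev H m ψ * (conj (ev H n ψ) * ev H n ψ) := by rw [h3, mul_one]
        _ = (ev H m ψ * conj (ev H n ψ)) * ev H n ψ := by ring
        _ = ev H n ψ := by rw [hcon, one_mul]
    have h4 : (1 - ev H m ψ * conj (ev H n ψ)) * S = 0 := by
      rw [sub_mul, one_mul, ← h1, sub_self]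
    rcases mul_eq_zero.mp h4 with h5 | h5
    · exact absurd (sub_eq_zero.mp h5).symm h2
    · exact h5

open Classical in
/-- the finite set of all evaluation functionals -/
noncomputable def KK : Finset (H → ℂ) := (Finset.Icc 1 (q - 1)).image (ev H)

theorem coprime_of_mem {m : ℕ} (hm : m ∈ Finset.Icc 1 (q - 1)) : m.Coprime q := by
  have hq : q.Prime := Fact.out
  rw [Finset.mem_Icc] at hm
  have := hq.pos
  exact ((Nat.Prime.coprime_iff_not_dvd hq).2 (Nat.not_dvd_of_pos_of_lt (by omega) (by omega))).symm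

theorem ev_mem_KK {m : ℕ} (hm : m.Coprime q) : ev H m ∈ KK H := by
  have hq : q.Prime := Fact.out
  have hpos := hq.pos
  rw [KK, Finset.mem_image]
  refine ⟨m % q, ?_, ev_mod H m⟩
  rw [Finset.mem_Icc]
  have h1 : m % q < q := Nat.mod_lt _ hpos
  have h2 : m % q ≠ 0 := by
    intro h
    have : q ∣ m := Nat.dvd_of_mod_eq_zero h
    exact ((Nat.Prime.coprime_iff_not_dvd hq).1 hm.symm) this
  omega

theorem exists_of_mem_KK {κ : H → ℂ} (hκ : κ ∈ KK H) : ∃ m : ℕ, m.Coprime q ∧ ev H m = κ := by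
  rw [KK, Finset.mem_image] at hκ
  obtain ⟨m, hm, rfl⟩ := hκ
  exact ⟨m, coprime_of_mem hm, rfl⟩

theorem mul_mem_KK {m : ℕ} (hm : m.Coprime q) {κ : H → ℂ} (hκ : κ ∈ KK H) :
    ev H m * κ ∈ KK H := by
  obtain ⟨n, hn, rfl⟩ := exists_of_mem_KK H hκ
  rw [← ev_mul]
  exact ev_mem_KK H (Nat.Coprime.mul_left hm hn)

section weights

variable {α : Type*} (S : Finset α) (m : α → ℕ) (f : α → ℝ)

open Classical in
/-- total weight of the elements of `S` with evaluation functional `κ` -/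
noncomputable def wt (κ : H → ℂ) : ℝ := ∑ s ∈ S.filter (fun s => ev H (m s) = κ), f s ^ 2

/-- resonator coefficients -/
noncomputable def EE (κ : H → ℂ) : ℝ := Real.sqrt (wt H S m f κ)

theorem wt_nonneg (κ : H → ℂ) : 0 ≤ wt H S m f κ := Finset.sum_nonneg fun _ _ => sq_nonneg _

theorem EE_nonneg (κ : H → ℂ) : 0 ≤ EE H S m f κ := Real.sqrt_nonneg _

theorem EE_sq (κ : H → ℂ) : EE H S m f κ ^ 2 = wt H S m f κ :=
  Real.sq_sqrt (wt_nonneg H S m f κ)

open Classical in
theorem EE_le (hf : ∀ s ∈ S, 0 ≤ f s) (κ : H → ℂ) :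
    EE H S m f κ ≤ ∑ s ∈ S.filter (fun s => ev H (m s) = κ), f s := by
  have h0 : 0 ≤ ∑ s ∈ S.filter (fun s => ev H (m s) = κ), f s :=
    Finset.sum_nonneg fun s hs => hf s (Finset.mem_filter.mp hs).1
  rw [EE, Real.sqrt_le_left h0, wt]
  exact Finset.sum_sq_le_sq_sum_of_nonneg fun s hs => hf s (Finset.mem_filter.mp hs).1

open Classical in
theorem sum_fiber (hm : ∀ s ∈ S, (m s).Coprime q) (g : α → ℝ) :
    ∑ κ ∈ KK H, ∑ s ∈ S.filter (fun s => ev H (m s) = κ), g s = ∑ s ∈ S, g s :=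
  Finset.sum_fiberwise_of_maps_to (fun s hs => ev_mem_KK H (hm s hs)) g

/-- the resonator -/
noncomputable def RR (χ : H) : ℂ := ∑ κ ∈ KK H, (EE H S m f κ : ℂ) * κ χ

theorem norm_RR_one (hm : ∀ s ∈ S, (m s).Coprime q) (hf : ∀ s ∈ S, 0 ≤ f s) :
    ‖RR H S m f 1‖ ≤ ∑ s ∈ S, f s := by
  rw [RR]
  calc ‖∑ κ ∈ KK H, (EE H S m f κ : ℂ) * κ 1‖ ≤ ∑ κ ∈ KK H, ‖(EE H S m f κ : ℂ) * κ 1‖ :=
        norm_sum_le _ _
    _ ≤ ∑ κ ∈ KK H, EE H S m f κ := by
        apply Finset.sum_le_sum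
        intro κ hκ
        obtain ⟨n, hn, rfl⟩ := exists_of_mem_KK H hκ
        rw [norm_mul, norm_ev H hn, mul_one, Complex.norm_real,
          Real.norm_of_nonneg (EE_nonneg H S m f _)]
    _ ≤ _ := by
        classical
        rw [← sum_fiber H S m hm f]
        exact Finset.sum_le_sum fun κ _ => EE_le H S m f hf κ

end weights

open Classical in
theorem orth' {κ κ' : H → ℂ} (h : κ ∈ KK H) (h' : κ' ∈ KK H) :
    ∑ χ : H, κ χ * conj (κ' χ) = if κ = κ' then (Fintype.card H : ℂ) else 0 := by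
  obtain ⟨m, hm, rfl⟩ := exists_of_mem_KK H h
  obtain ⟨n, hn, rfl⟩ := exists_of_mem_KK H h'
  exact orth H hm hn

section two

variable {α β : Type*} (S : Finset α) (T : Finset β) (m : α → ℕ) (m' : β → ℕ)
  (f : α → ℝ) (g : β → ℝ)

open Classical in
/-- bilinear orthogonality -/
theorem sum_bilinear {n : ℕ} (hn : n.Coprime q) :
    ∑ χ : H, ev H n χ * RR H S m f χ * conj (RR H T m' g χ) =
      (Fintype.card H : ℂ) *
        ∑ κ ∈ KK H, (EE H S m f κ : ℂ) * (EE H T m' g (ev H n * κ) : ℂ) := by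
  have h1 : ∀ χ : H, ev H n χ * RR H S m f χ * conj (RR H T m' g χ) =
      ∑ κ ∈ KK H, ∑ κ' ∈ KK H, ((EE H S m f κ : ℂ) * (EE H T m' g κ' : ℂ)) *
        ((ev H n * κ) χ * conj (κ' χ)) := by
    intro χ
    have e : conj (RR H T m' g χ) = ∑ κ' ∈ KK H, conj ((EE H T m' g κ' : ℂ) * κ' χ) := by
      rw [RR, map_sum]
    have e' : RR H S m f χ = ∑ κ ∈ KK H, (EE H S m f κ : ℂ) * κ χ := rfl
    rw [e, e', mul_assoc, Finset.sum_mul_sum, Finset.mul_sum]
    apply Finset.sum_congr rfl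
    intro κ _
    rw [Finset.mul_sum]
    apply Finset.sum_congr rfl
    intro κ' _
    rw [map_mul, Complex.conj_ofReal, Pi.mul_apply]
    ring
  rw [Finset.sum_congr rfl (fun χ _ => h1 χ), Finset.sum_comm, Finset.mul_sum]
  apply Finset.sum_congr rfl
  intro κ hκ
  rw [Finset.sum_comm]
  have h2 : ∀ κ' ∈ KK H, ∑ χ : H, ((EE H S m f κ : ℂ) * (EE H T m' g κ' : ℂ)) *
        ((ev H n * κ) χ * conj (κ' χ)) = ((EE H S m f κ : ℂ) * (EE H T m' g κ' : ℂ)) *
        (if ev H n * κ = κ' then (Fintype.card H : ℂ) else 0) := by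
    intro κ' hκ'
    rw [← Finset.mul_sum, orth' H (mul_mem_KK H hn hκ) hκ']
  rw [Finset.sum_congr rfl h2]
  simp only [mul_ite, mul_zero]
  rw [Finset.sum_ite_eq, if_pos (mul_mem_KK H hn hκ)]
  ring

theorem sum_norm_sq (hm : ∀ s ∈ S, (m s).Coprime q) :
    ∑ χ : H, ‖RR H S m f χ‖ ^ 2 = (Fintype.card H : ℝ) * ∑ s ∈ S, f s ^ 2 := by
  classical
  have h := sum_bilinear H S S m m f f (n := 1) (Nat.coprime_one_left q)
  rw [ev_one] at h
  simp only [Pi.one_apply, one_mul] at h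
  have h2 : ((∑ χ : H, ‖RR H S m f χ‖ ^ 2 : ℝ) : ℂ) =
      ((Fintype.card H : ℝ) * ∑ s ∈ S, f s ^ 2 : ℝ) := by
    rw [← sum_fiber H S m hm (fun s => f s ^ 2)]
    push_cast
    have e1 : ∀ χ : H, ((‖RR H S m f χ‖ : ℂ)) ^ 2 = RR H S m f χ * conj (RR H S m f χ) := by
      intro χ
      rw [Complex.mul_conj, Complex.normSq_eq_norm_sq]
      push_cast
      rfl
    rw [Finset.sum_congr rfl (fun χ _ => e1 χ), h]
    congr 1
    apply Finset.sum_congr rfl
    intro κ _
    rw [← Complex.ofReal_mul, ← sq, EE_sq, wt]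
    push_cast
    rfl
  exact_mod_cast h2

open Classical in
/-- the contribution of a fixed `n` -/
theorem count_le (hm : ∀ s ∈ S, (m s).Coprime q) {n : ℕ} (U : Finset (α × β))
    (hU : ∀ u ∈ U, u.1 ∈ S ∧ u.2 ∈ T ∧ ev H (m' u.2) = ev H (n * m u.1))
    (h1 : ∀ u ∈ U, ∀ v ∈ U, u.1 = v.1 → u = v) (h2 : ∀ u ∈ U, ∀ v ∈ U, u.2 = v.2 → u = v) :
    ∑ u ∈ U, f u.1 * g u.2 ≤
      ∑ κ ∈ KK H, EE H S m f κ * EE H T m' g (ev H n * κ) := by
  rw [← Finset.sum_fiberwise_of_maps_to (s := U) (t := KK H) (g := fun u => ev H (m u.1))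
    (fun u hu => ev_mem_KK H (hm u.1 (hU u hu).1))]
  apply Finset.sum_le_sum
  intro κ _
  set V := U.filter (fun u => ev H (m u.1) = κ) with hV
  calc ∑ u ∈ V, f u.1 * g u.2 ≤
      Real.sqrt (∑ u ∈ V, f u.1 ^ 2) * Real.sqrt (∑ u ∈ V, g u.2 ^ 2) :=
        Real.sum_mul_le_sqrt_mul_sqrt _ _ _
    _ ≤ EE H S m f κ * EE H T m' g (ev H n * κ) := by
        apply mul_le_mul _ _ (Real.sqrt_nonneg _) (EE_nonneg _ _ _ _ _)
        · apply Real.sqrt_le_sqrt
          have e : ∑ u ∈ V, f u.1 ^ 2 = ∑ s ∈ V.image Prod.fst, f s ^ 2 := by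
            rw [Finset.sum_image]
            intro u hu v hv huv
            exact h1 u (Finset.mem_filter.mp hu).1 v (Finset.mem_filter.mp hv).1 huv
          rw [e, wt]
          apply Finset.sum_le_sum_of_subset_of_nonneg
          · intro s hs
            rw [Finset.mem_image] at hs
            obtain ⟨u, hu, rfl⟩ := hs
            rw [hV, Finset.mem_filter] at hu
            exact Finset.mem_filter.mpr ⟨(hU u hu.1).1, hu.2⟩
          · intro s _ _
            exact sq_nonneg _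
        · apply Real.sqrt_le_sqrt
          have e : ∑ u ∈ V, g u.2 ^ 2 = ∑ s ∈ V.image Prod.snd, g s ^ 2 := by
            rw [Finset.sum_image]
            intro u hu v hv huv
            exact h2 u (Finset.mem_filter.mp hu).1 v (Finset.mem_filter.mp hv).1 huv
          rw [e, wt]
          apply Finset.sum_le_sum_of_subset_of_nonneg
          · intro s hs
            rw [Finset.mem_image] at hs
            obtain ⟨u, hu, rfl⟩ := hs
            rw [hV, Finset.mem_filter] at hu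
            refine Finset.mem_filter.mpr ⟨(hU u hu.1).2.1, ?_⟩
            rw [(hU u hu.1).2.2, ev_mul, hu.2]
          · intro s _ _
            exact sq_nonneg _

/-- **The resonance inequality.** -/
theorem resonance (hm : ∀ s ∈ S, (m s).Coprime q) (hm' : ∀ t ∈ T, (m' t).Coprime q)
    (hf : ∀ s ∈ S, 0 ≤ f s) (hg : ∀ t ∈ T, 0 ≤ g t)
    (Ω : Finset (ℕ × α × β))
    (hΩ : ∀ ω ∈ Ω, ω.1 ∈ Finset.Icc 1 (q - 1) ∧ ω.2.1 ∈ S ∧ ω.2.2 ∈ T ∧
      ev H (m' ω.2.2) = ev H (ω.1 * m ω.2.1))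
    (h1 : ∀ u ∈ Ω, ∀ v ∈ Ω, u.1 = v.1 → u.2.1 = v.2.1 → u = v)
    (h2 : ∀ u ∈ Ω, ∀ v ∈ Ω, u.1 = v.1 → u.2.2 = v.2.2 → u = v)
    (W : ℕ → ℂ)
    (hW : ∀ n ∈ Finset.Icc 1 (q - 1), 1 / Real.sqrt n ≤ (W n).re) (A : ℝ)
    (hA : ∑ n ∈ Finset.Icc 1 (q - 1), ‖W n‖ ≤ A) (B : ℝ) (hB0 : 0 ≤ B)
    (hB : ∀ χ : H, χ ≠ 1 → ‖∑ n ∈ Finset.Icc 1 (q - 1), W n * ev H n χ‖ ≤ B) :
    (Fintype.card H : ℝ) * ∑ ω ∈ Ω, (1 / Real.sqrt ω.1) * (f ω.2.1 * g ω.2.2) ≤
      A * ((∑ s ∈ S, f s) * (∑ t ∈ T, g t)) +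
        B * ((Fintype.card H : ℝ) *
          (Real.sqrt (∑ s ∈ S, f s ^ 2) * Real.sqrt (∑ t ∈ T, g t ^ 2))) := by
  classical
  set h : ℝ := (Fintype.card H : ℝ) with hh
  have hh0 : 0 ≤ h := Nat.cast_nonneg _
  set Λ : H → ℂ := fun χ => ∑ n ∈ Finset.Icc 1 (q - 1), W n * ev H n χ with hΛ
  have hW0 : ∀ n ∈ Finset.Icc 1 (q - 1), 0 ≤ (W n).re := fun n hn =>
    le_trans (by positivity) (hW n hn)
  set G : ℕ → ℝ := fun n => ∑ κ ∈ KK H, EE H S m f κ * EE H T m' g (ev H n * κ) with hG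
  have hG0 : ∀ n, 0 ≤ G n := by
    intro n
    apply Finset.sum_nonneg
    intro κ _
    exact mul_nonneg (EE_nonneg _ _ _ _ _) (EE_nonneg _ _ _ _ _)
  -- the bilinear sum
  have hsum : ∑ χ : H, Λ χ * RR H S m f χ * conj (RR H T m' g χ) =
      (h : ℂ) * ∑ n ∈ Finset.Icc 1 (q - 1), W n * (G n : ℂ) := by
    have e1 : ∀ χ : H, Λ χ * RR H S m f χ * conj (RR H T m' g χ) =
        ∑ n ∈ Finset.Icc 1 (q - 1), W n * (ev H n χ * RR H S m f χ * conj (RR H T m' g χ)) := by
      intro χ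
      rw [hΛ]
      simp only
      rw [Finset.sum_mul, Finset.sum_mul]
      apply Finset.sum_congr rfl
      intro n _
      ring
    rw [Finset.sum_congr rfl (fun χ _ => e1 χ), Finset.sum_comm, Finset.mul_sum]
    apply Finset.sum_congr rfl
    intro n hn
    rw [← Finset.mul_sum, sum_bilinear H S T m m' f g (coprime_of_mem hn), hh, hG]
    push_cast
    ring
  have hre : (∑ χ : H, Λ χ * RR H S m f χ * conj (RR H T m' g χ)).re =
      h * ∑ n ∈ Finset.Icc 1 (q - 1), (W n).re * G n := by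
    rw [hsum, Complex.re_ofReal_mul, Complex.re_sum]
    congr 1
    apply Finset.sum_congr rfl
    intro n _
    rw [Complex.re_mul_ofReal]
  -- lower bound
  have hlow : h * ∑ ω ∈ Ω, (1 / Real.sqrt ω.1) * (f ω.2.1 * g ω.2.2) ≤
      h * ∑ n ∈ Finset.Icc 1 (q - 1), (W n).re * G n := by
    apply mul_le_mul_of_nonneg_left _ hh0
    rw [← Finset.sum_fiberwise_of_maps_to (s := Ω) (t := Finset.Icc 1 (q - 1))
      (g := fun ω => ω.1) (fun ω hω => (hΩ ω hω).1)]
    apply Finset.sum_le_sum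
    intro n hn
    have e2 : ∑ ω ∈ Ω.filter (fun ω => ω.1 = n), (1 / Real.sqrt ω.1) * (f ω.2.1 * g ω.2.2) =
        (1 / Real.sqrt n) * ∑ u ∈ (Ω.filter (fun ω => ω.1 = n)).image Prod.snd, f u.1 * g u.2 := by
      rw [Finset.sum_image, Finset.mul_sum]
      · apply Finset.sum_congr rfl
        intro ω hω
        rw [(Finset.mem_filter.mp hω).2]
      · intro u hu v hv huv
        have hu' := Finset.mem_filter.mp hu
        have hv' := Finset.mem_filter.mp hv
        exact Prod.ext (hu'.2.trans hv'.2.symm) huv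
    rw [e2]
    have e3 : ∑ u ∈ (Ω.filter (fun ω => ω.1 = n)).image Prod.snd, f u.1 * g u.2 ≤ G n := by
      apply count_le H S T m m' f g hm
      · intro u hu
        rw [Finset.mem_image] at hu
        obtain ⟨ω, hω, rfl⟩ := hu
        have hω' := Finset.mem_filter.mp hω
        have := hΩ ω hω'.1
        refine ⟨this.2.1, this.2.2.1, ?_⟩
        rw [this.2.2.2, hω'.2]
      · intro u hu v hv huv
        rw [Finset.mem_image] at hu hv
        obtain ⟨ω, hω, rfl⟩ := hu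
        obtain ⟨ω', hω', rfl⟩ := hv
        have a := Finset.mem_filter.mp hω
        have b := Finset.mem_filter.mp hω'
        rw [h1 ω a.1 ω' b.1 (a.2.trans b.2.symm) huv]
      · intro u hu v hv huv
        rw [Finset.mem_image] at hu hv
        obtain ⟨ω, hω, rfl⟩ := hu
        obtain ⟨ω', hω', rfl⟩ := hv
        have a := Finset.mem_filter.mp hω
        have b := Finset.mem_filter.mp hω'
        rw [h2 ω a.1 ω' b.1 (a.2.trans b.2.symm) huv]
    calc (1 / Real.sqrt n) * ∑ u ∈ (Ω.filter (fun ω => ω.1 = n)).image Prod.snd, f u.1 * g u.2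
        ≤ (1 / Real.sqrt n) * G n := by gcongr
      _ ≤ (W n).re * G n := mul_le_mul_of_nonneg_right (hW n hn) (hG0 n)
  -- upper bound
  have hup : ‖∑ χ : H, Λ χ * RR H S m f χ * conj (RR H T m' g χ)‖ ≤
      A * ((∑ s ∈ S, f s) * (∑ t ∈ T, g t)) +
        B * (h * (Real.sqrt (∑ s ∈ S, f s ^ 2) * Real.sqrt (∑ t ∈ T, g t ^ 2))) := by
    rw [← Finset.add_sum_erase _ _ (Finset.mem_univ (1 : H))]
    refine (norm_add_le _ _).trans (add_le_add ?_ ?_)
    · rw [norm_mul, norm_mul, Complex.norm_conj]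
      have a1 : ‖Λ 1‖ ≤ A := by
        rw [hΛ]
        calc ‖∑ n ∈ Finset.Icc 1 (q - 1), W n * ev H n 1‖ ≤
            ∑ n ∈ Finset.Icc 1 (q - 1), ‖W n * ev H n 1‖ := norm_sum_le _ _
          _ = ∑ n ∈ Finset.Icc 1 (q - 1), ‖W n‖ := by
              apply Finset.sum_congr rfl
              intro n hn
              rw [norm_mul, norm_ev H (coprime_of_mem hn), mul_one]
          _ ≤ A := hA
      have a2 := norm_RR_one H S m f hm hf
      have a3 := norm_RR_one H T m' g hm' hg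
      have hA0 : 0 ≤ A := le_trans (norm_nonneg _) a1
      have hS0 : 0 ≤ ∑ s ∈ S, f s := Finset.sum_nonneg hf
      calc ‖Λ 1‖ * ‖RR H S m f 1‖ * ‖RR H T m' g 1‖ ≤ A * (∑ s ∈ S, f s) * (∑ t ∈ T, g t) := by
            gcongr
        _ = A * ((∑ s ∈ S, f s) * (∑ t ∈ T, g t)) := by ring
    · calc ‖∑ χ ∈ Finset.univ.erase (1 : H), Λ χ * RR H S m f χ * conj (RR H T m' g χ)‖ ≤
          ∑ χ ∈ Finset.univ.erase (1 : H), ‖Λ χ * RR H S m f χ * conj (RR H T m' g χ)‖ :=
            norm_sum_le _ _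
        _ ≤ ∑ χ ∈ Finset.univ.erase (1 : H), B * (‖RR H S m f χ‖ * ‖RR H T m' g χ‖) := by
            apply Finset.sum_le_sum
            intro χ hχ
            rw [norm_mul, norm_mul, Complex.norm_conj, mul_assoc]
            apply mul_le_mul_of_nonneg_right _ (by positivity)
            exact hB χ (Finset.ne_of_mem_erase hχ)
        _ ≤ ∑ χ : H, B * (‖RR H S m f χ‖ * ‖RR H T m' g χ‖) := by
            apply Finset.sum_le_sum_of_subset_of_nonneg (Finset.erase_subset _ _)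
            intro χ _ _
            positivity
        _ = B * ∑ χ : H, ‖RR H S m f χ‖ * ‖RR H T m' g χ‖ := by rw [Finset.mul_sum]
        _ ≤ B * (Real.sqrt (∑ χ : H, ‖RR H S m f χ‖ ^ 2) *
              Real.sqrt (∑ χ : H, ‖RR H T m' g χ‖ ^ 2)) := by
            apply mul_le_mul_of_nonneg_left _ hB0
            exact Real.sum_mul_le_sqrt_mul_sqrt _ _ _
        _ = B * (h * (Real.sqrt (∑ s ∈ S, f s ^ 2) * Real.sqrt (∑ t ∈ T, g t ^ 2))) := by
            rw [sum_norm_sq H S m f hm, sum_norm_sq H T m' g hm', Real.sqrt_mul hh0,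
              Real.sqrt_mul hh0]
            have : Real.sqrt h * Real.sqrt h = h := Real.mul_self_sqrt hh0
            calc B * (Real.sqrt h * Real.sqrt (∑ s ∈ S, f s ^ 2) *
                  (Real.sqrt h * Real.sqrt (∑ t ∈ T, g t ^ 2))) =
                B * ((Real.sqrt h * Real.sqrt h) * (Real.sqrt (∑ s ∈ S, f s ^ 2) *
                  Real.sqrt (∑ t ∈ T, g t ^ 2))) := by ring
              _ = _ := by rw [this]
  refine hlow.trans (le_trans ?_ hup)
  rw [← hre]
  exact Complex.re_le_norm _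

end two

end Pool.Agent.H.MP_3e6494_nt.H15
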