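import Pool.Agent.H.MP_3e6494_nt.LHalf
import Pool.Agent.H.MP_3e6494_nt.helper15.Reson

/-!
Positive coefficients for the central value.
-/

set_option autoImplicit false

open Finset

namespace Pool.Agent.H.MP_3e6494_nt.H15

variable (q : ℕ) [Fact q.Prime]

/-- positive coefficients: `L(χ, 1/2) = ∑ χ(n) WW(n)` for `χ ≠ 1` -/
noncomputable def WW (n : ℕ) : ℂ := V0 q (n : ZMod q) + ((4 * (Real.sqrt q)⁻¹ : ℝ) : ℂ)

theorem cast_ne_zero_of_mem {n : ℕ} (hn : n ∈ Finset.Icc 1 (q - 1)) : (n : ZMod q) ≠ 0 := by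
  have hq : q.Prime := Fact.out
  have := hq.pos
  rw [Finset.mem_Icc] at hn
  intro h
  rw [ZMod.natCast_eq_zero_iff] at h
  exact Nat.not_dvd_of_pos_of_lt (by omega) (by omega) h

theorem val_of_mem {n : ℕ} (hn : n ∈ Finset.Icc 1 (q - 1)) : ((n : ZMod q)).val = n := by
  have hq : q.Prime := Fact.out
  have := hq.pos
  rw [Finset.mem_Icc] at hn
  rw [ZMod.val_natCast, Nat.mod_eq_of_lt (by omega)]

theorem norm_WW_sub {n : ℕ} (hn : n ∈ Finset.Icc 1 (q - 1)) :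
    ‖V0 q (n : ZMod q) - (((Real.sqrt (n : ℝ))⁻¹ : ℝ) : ℂ)‖ ≤ 4 * (Real.sqrt q)⁻¹ := by
  have h := norm_V0_sub (n : ZMod q) (cast_ne_zero_of_mem q hn)
  rw [val_of_mem q hn] at h
  exact h

theorem WW_re {n : ℕ} (hn : n ∈ Finset.Icc 1 (q - 1)) : 1 / Real.sqrt n ≤ (WW q n).re := by
  have h := norm_WW_sub q hn
  have h2 := (Complex.abs_re_le_norm _).trans h
  rw [Complex.sub_re, Complex.ofReal_re] at h2
  rw [WW, Complex.add_re, Complex.ofReal_re, one_div]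
  have := (abs_le.mp h2).1
  linarith

theorem norm_WW_le {n : ℕ} (hn : n ∈ Finset.Icc 1 (q - 1)) :
    ‖WW q n‖ ≤ 1 / Real.sqrt n + 8 * (Real.sqrt q)⁻¹ := by
  have h := norm_WW_sub q hn
  have e : WW q n = (V0 q (n : ZMod q) - (((Real.sqrt (n : ℝ))⁻¹ : ℝ) : ℂ)) +
      ((((Real.sqrt (n : ℝ))⁻¹ : ℝ) : ℂ) + ((4 * (Real.sqrt q)⁻¹ : ℝ) : ℂ)) := by
    rw [WW]; ring
  rw [e]
  refine (norm_add_le _ _).trans ?_
  have h3 : ‖(((Real.sqrt (n : ℝ))⁻¹ : ℝ) : ℂ) + ((4 * (Real.sqrt q)⁻¹ : ℝ) : ℂ)‖ ≤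
      (Real.sqrt n)⁻¹ + 4 * (Real.sqrt q)⁻¹ := by
    refine (norm_add_le _ _).trans ?_
    rw [Complex.norm_real, Complex.norm_real, Real.norm_of_nonneg (by positivity),
      Real.norm_of_nonneg (by positivity)]
  rw [one_div]
  linarith

theorem sum_inv_sqrt (N : ℕ) : ∑ n ∈ Finset.Icc 1 N, 1 / Real.sqrt n ≤ 2 * Real.sqrt N := by
  induction N with
  | zero => simp
  | succ N ih =>
    rw [Finset.sum_Icc_succ_top (by omega)]
    have h1 : 0 ≤ Real.sqrt N := Real.sqrt_nonneg _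
    have h2 : 0 < Real.sqrt ((N + 1 : ℕ) : ℝ) := Real.sqrt_pos.mpr (by positivity)
    have h3 : Real.sqrt N ^ 2 = N := Real.sq_sqrt (Nat.cast_nonneg _)
    have h4 : Real.sqrt ((N + 1 : ℕ) : ℝ) ^ 2 = (N : ℝ) + 1 := by
      rw [Real.sq_sqrt (Nat.cast_nonneg _)]
      push_cast
      rfl
    have h5 : 1 / Real.sqrt ((N + 1 : ℕ) : ℝ) ≤ 2 * (Real.sqrt ((N + 1 : ℕ) : ℝ) - Real.sqrt N) := by
      rw [div_le_iff₀ h2]
      nlinarith [sq_nonneg (Real.sqrt ((N + 1 : ℕ) : ℝ) - Real.sqrt N)]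
    linarith

theorem sum_norm_WW : ∑ n ∈ Finset.Icc 1 (q - 1), ‖WW q n‖ ≤ 10 * Real.sqrt q := by
  have hq : q.Prime := Fact.out
  have hqpos : (0 : ℝ) < q := by exact_mod_cast hq.pos
  have hs : 0 < Real.sqrt q := Real.sqrt_pos.mpr hqpos
  calc ∑ n ∈ Finset.Icc 1 (q - 1), ‖WW q n‖ ≤
      ∑ n ∈ Finset.Icc 1 (q - 1), (1 / Real.sqrt n + 8 * (Real.sqrt q)⁻¹) :=
        Finset.sum_le_sum fun n hn => norm_WW_le q hn
    _ = ∑ n ∈ Finset.Icc 1 (q - 1), 1 / Real.sqrt n + ((q - 1 : ℕ) : ℝ) * (8 * (Real.sqrt q)⁻¹) := by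
        rw [Finset.sum_add_distrib, Finset.sum_const, Nat.card_Icc, nsmul_eq_mul]
        congr 2
    _ ≤ 2 * Real.sqrt ((q - 1 : ℕ) : ℝ) + (q : ℝ) * (8 * (Real.sqrt q)⁻¹) := by
        apply add_le_add (sum_inv_sqrt (q - 1))
        apply mul_le_mul_of_nonneg_right _ (by positivity)
        exact_mod_cast Nat.sub_le q 1
    _ ≤ 2 * Real.sqrt q + 8 * Real.sqrt q := by
        apply add_le_add
        · apply mul_le_mul_of_nonneg_left _ (by norm_num)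
          apply Real.sqrt_le_sqrt
          exact_mod_cast Nat.sub_le q 1
        · have : (q : ℝ) * (Real.sqrt q)⁻¹ = Real.sqrt q := by
            rw [← div_eq_mul_inv, Real.div_sqrt]
          nlinarith
    _ = 10 * Real.sqrt q := by ring

theorem sum_icc_eq (g : ZMod q → ℂ) (h0 : g 0 = 0) :
    ∑ n ∈ Finset.Icc 1 (q - 1), g (n : ZMod q) = ∑ c : ZMod q, g c := by
  have hq : q.Prime := Fact.out
  have hpos := hq.pos
  have e3 : ∑ a : ZMod q, g a = ∑ a ∈ Finset.range q, g (a : ZMod q) := by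
    symm
    apply Finset.sum_bij (fun (a : ℕ) _ => (a : ZMod q))
    · intro a _; exact Finset.mem_univ _
    · intro a ha b hb hab
      rw [ZMod.natCast_eq_natCast_iff'] at hab
      rwa [Nat.mod_eq_of_lt (Finset.mem_range.mp ha), Nat.mod_eq_of_lt (Finset.mem_range.mp hb)] at hab
    · intro b _
      exact ⟨b.val, Finset.mem_range.mpr (ZMod.val_lt b), by simp⟩
    · intro a _; rfl
  rw [e3]
  have e4 : Finset.range q = insert 0 (Finset.Icc 1 (q - 1)) := by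
    ext x
    simp only [Finset.mem_range, Finset.mem_insert, Finset.mem_Icc]
    omega
  rw [e4, Finset.sum_insert (by simp)]
  simp [h0]

theorem LFunction_eq_sum_WW (χ : DirichletCharacter ℂ q) (hχ : χ ≠ 1) :
    ∑ n ∈ Finset.Icc 1 (q - 1), WW q n * χ (n : ZMod q) = χ.LFunction (1 / 2) := by
  refine (sum_icc_eq q (fun c : ZMod q =>
        (V0 q c + ((4 * (Real.sqrt q)⁻¹ : ℝ) : ℂ)) * χ c)
        (by simp only [MulChar.map_zero, mul_zero])).trans ?_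
  rw [LFunction_half]
  have h2 : ∀ c : ZMod q, (V0 q c + ((4 * (Real.sqrt q)⁻¹ : ℝ) : ℂ)) * χ c =
      χ c * V0 q c + ((4 * (Real.sqrt q)⁻¹ : ℝ) : ℂ) * χ c := by
    intro c; ring
  rw [Finset.sum_congr rfl (fun c _ => h2 c), Finset.sum_add_distrib, ← Finset.mul_sum,
    MulChar.sum_eq_zero_of_ne_one hχ, mul_zero, add_zero]

end Pool.Agent.H.MP_3e6494_nt.H15
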