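import Pool.Agent.H.MP_3e6494_nt.helper15.Asym
import Pool.Agent.H.MP_3e6494_nt.helper15.Conclude

/-!
Choice of the parameters.
-/

set_option autoImplicit false
set_option linter.unusedVariables false

open Finset Filter Topology

namespace Pool.Agent.H.MP_3e6494_nt.H15

/-- the numerical facts needed for a given size parameter `V` -/
structure Pre (η ε C0 : ℝ) (B : ℕ) (V : ℝ) : Prop where
  η0 : 0 < η
  η1 : η ≤ 1 / 20
  ηε : 16 * η ≤ ε
  ε0 : 0 < ε
  B2 : 2 ≤ B
  LB1 : 1 ≤ Real.log B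
  hC0 : C0 ≤ (η / 4) * Real.log B
  V1 : 10 ≤ V
  ℓ1 : 10 ≤ Real.log V
  ll1 : 1 ≤ Real.log (Real.log V)
  hk : ∀ k : ℕ, K0 η (Real.log V) ≤ k →
    (Real.log (16 * Real.exp 1 * Real.log B * B) + Real.log (1 / η)) + 3 * Real.log (2 * k) ≤
      η * Real.log B * k
  K02 : 2 ≤ K0 η (Real.log V)
  K1b : ((K1 η (Real.log V) : ℝ) + 1) * Real.log B ≤ (η / 8) * Real.log V
  lV : Real.log (V + 1) ≤ (1 + η / 8) * Real.log V
  Lup : LL η (Real.log V) ≤ Real.log (Real.log V)
  Llow : (1 - 3 * η) * Real.log (Real.log V) ≤ LL η (Real.log V)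
  pK0 : (16 / η) * Real.log V ≤ Real.exp (Real.log B * (K0 η (Real.log V) : ℝ))
  big : (100 / η ^ 2 + 1000 / ε ^ 2) * Real.log V ^ 6 ≤ V

theorem ev_Pre (η ε C0 : ℝ) (B : ℕ) (η0 : 0 < η) (η1 : η ≤ 1 / 20) (ηε : 16 * η ≤ ε)
    (ε0 : 0 < ε) (B2 : 2 ≤ B) (LB1 : 1 ≤ Real.log B) (hC0 : C0 ≤ (η / 4) * Real.log B) :
    ∀ᶠ V : ℝ in atTop, Pre η ε C0 B V := by
  have hlog := Real.tendsto_log_atTop
  obtain ⟨k₀, hk₀2, hk₀⟩ := ev_nat_log (η * Real.log B)
    (Real.log (16 * Real.exp 1 * Real.log B * B) + Real.log (1 / η)) (by positivity)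
  filter_upwards [eventually_ge_atTop (10 : ℝ), hlog.eventually_ge_atTop 10,
    hlog.eventually (Real.tendsto_log_atTop.eventually_ge_atTop 1),
    hlog.eventually (ev_K0 η η0 k₀),
    hlog.eventually (ev_K1 η (Real.log B) (η / 8) η0 (by linarith) (by positivity)),
    ev_log_succ (η / 8) (by positivity),
    hlog.eventually (ev_LL_upper η η0 (by linarith)),
    hlog.eventually (ev_LL_lower η η0 (by linarith)),
    hlog.eventually (ev_pow_K0 η (Real.log B) (16 / η) η0 (by linarith) (by positivity)),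
    ev_pow_log 6 (100 / η ^ 2 + 1000 / ε ^ 2) (by positivity)] with
    V h1 h2 h3 h4 h5 h6 h7 h8 h9 h10
  exact
    { η0 := η0, η1 := η1, ηε := ηε, ε0 := ε0, B2 := B2, LB1 := LB1, hC0 := hC0, V1 := h1, ℓ1 := h2
      ll1 := h3
      hk := fun k hk => hk₀ k (h4.trans hk)
      K02 := hk₀2.trans h4
      K1b := h5, lV := h6, Lup := h7, Llow := h8, pK0 := h9, big := h10 }

section build

variable {η ε C0 : ℝ} {B : ℕ} {V : ℝ} (h : Pre η ε C0 B V)

/-- the constant `c` -/
noncomputable def cc (η : ℝ) (B : ℕ) (V : ℝ) : ℝ :=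
  (1 - η) * V / (2 * Real.log B * LL η (Real.log V))

/-- base point of the blocks -/
noncomputable def Mb (V : ℝ) : ℕ := ⌈V⌉₊

/-- block boundaries -/
noncomputable def Yb (B : ℕ) (V : ℝ) (k : ℕ) : ℕ := Mb V * B ^ k

/-- blocks of primes -/
noncomputable def Pb (B : ℕ) (V : ℝ) (k : ℕ) : Finset ℕ :=
  (Finset.Ioc (Yb B V k) (Yb B V (k + 1))).filter Nat.Prime

/-- numbers of primes -/
noncomputable def Jb (η : ℝ) (B : ℕ) (V : ℝ) (k : ℕ) : ℕ := ⌊cc η B V / (k : ℝ) ^ 2⌋₊

/-- density of the blocks -/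
noncomputable def σb (η : ℝ) (B : ℕ) (V : ℝ) : ℝ := (1 - η) * Real.log B / Real.log V

/-- numbers of moved primes -/
noncomputable def ib (η : ℝ) (B : ℕ) (V : ℝ) (k : ℕ) : ℕ :=
  ⌊Real.sqrt ((Jb η B V k : ℝ) * σb η B V)⌋₊

include h

theorem ℓpos : 0 < Real.log V := by linarith [h.ℓ1]

theorem L_half : 1 / 2 ≤ LL η (Real.log V) := by
  have h1 := h.Llow
  have h2 := h.ll1
  have h3 := h.η1
  have h4 := h.η0
  nlinarith

theorem L_le : LL η (Real.log V) ≤ Real.log V := by
  refine h.Lup.trans ?_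
  have := Real.log_le_sub_one_of_pos (ℓpos h)
  linarith

theorem LB_le : Real.log B ≤ (η / 8) * Real.log V := by
  have h1 := h.K1b
  have h2 : (0 : ℝ) ≤ (K1 η (Real.log V) : ℝ) := Nat.cast_nonneg _
  have h3 := h.LB1
  nlinarith

theorem K1_le' : (K1 η (Real.log V) : ℝ) ≤ Real.log V := by
  have h1 := h.K1b
  have h2 : (0 : ℝ) ≤ (K1 η (Real.log V) : ℝ) := Nat.cast_nonneg _
  have h3 := h.LB1
  have h4 := h.η1
  have h5 := h.η0
  have h6 := ℓpos h
  nlinarith

theorem cc_pos : 0 < cc η B V := by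
  have h1 := L_half h
  have h2 := h.LB1
  have h3 := h.η1
  have h4 := h.V1
  unfold cc
  apply div_pos
  · nlinarith
  · nlinarith

theorem cc_le : cc η B V ≤ V := by
  have h1 := L_half h
  have h2 := h.LB1
  have h3 := h.η1
  have h4 := h.V1
  have h5 := h.η0
  unfold cc
  rw [div_le_iff₀ (by nlinarith)]
  have h6 : 1 ≤ 2 * Real.log B * LL η (Real.log V) := by nlinarith
  nlinarith

/-- `c / k^2` is large -/
theorem cc_div_ge {k : ℕ} (hk0 : K0 η (Real.log V) ≤ k) (hk1 : k < K1 η (Real.log V)) :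
    40 / η ≤ cc η B V / (k : ℝ) ^ 2 := by
  have h1 := L_half h
  have h1' := L_le h
  have h2 := h.LB1
  have h2' := LB_le h
  have h3 := h.η1
  have h4 := h.V1
  have h5 := h.η0
  have h6 := h.ℓ1
  have hkpos : (0 : ℝ) < k := by
    have := h.K02
    have : 0 < k := by omega
    exact_mod_cast this
  have hkle : (k : ℝ) ≤ Real.log V := by
    have h7 := K1_le' h
    have h8 : (k : ℝ) ≤ (K1 η (Real.log V) : ℝ) := by exact_mod_cast hk1.le
    linarith
  have hLB : Real.log B ≤ Real.log V := by nlinarith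
  have hbig := h.big
  have hℓ6 : 100 / η ^ 2 * Real.log V ^ 6 ≤ V := by
    have : 0 ≤ 1000 / ε ^ 2 * Real.log V ^ 6 := by positivity
    linarith
  have hη2 : 100 / η ≤ 100 / η ^ 2 := by
    apply div_le_div_of_nonneg_left (by norm_num) (by positivity)
    nlinarith
  have hV : 100 / η * Real.log V ^ 4 ≤ V := by
    calc 100 / η * Real.log V ^ 4 ≤ 100 / η ^ 2 * Real.log V ^ 6 := by
          apply mul_le_mul hη2 _ (by positivity) (by positivity)
          apply pow_le_pow_right₀ (by linarith) (by norm_num)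
      _ ≤ V := hℓ6
  have hden : 0 < 2 * Real.log B * LL η (Real.log V) := by nlinarith
  rw [le_div_iff₀ (by positivity)]
  unfold cc
  rw [le_div_iff₀ hden]
  have hk2 : (k : ℝ) ^ 2 ≤ Real.log V ^ 2 := by gcongr
  calc 40 / η * (k : ℝ) ^ 2 * (2 * Real.log B * LL η (Real.log V)) ≤
      40 / η * Real.log V ^ 2 * (2 * Real.log V * Real.log V) := by gcongr
    _ = (80 / 100) * (100 / η * Real.log V ^ 4) := by ring
    _ ≤ (80 / 100) * V := by gcongr
    _ ≤ (1 - η) * V := by nlinarith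

theorem kpos {k : ℕ} (hk0 : K0 η (Real.log V) ≤ k) : (0 : ℝ) < k := by
  have := h.K02
  have : 0 < k := by omega
  exact_mod_cast this

theorem Jb_le {k : ℕ} (hk0 : K0 η (Real.log V) ≤ k) :
    (Jb η B V k : ℝ) ≤ cc η B V / (k : ℝ) ^ 2 := by
  have := cc_pos h
  have hk := kpos h hk0
  exact Nat.floor_le (by positivity)

theorem Jb_ge {k : ℕ} (hk0 : K0 η (Real.log V) ≤ k) (hk1 : k < K1 η (Real.log V)) :
    (1 - η) ^ 2 * (cc η B V / (k : ℝ) ^ 2) ≤ (Jb η B V k : ℝ) := by
  have h1 := cc_div_ge h hk0 hk1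
  have h2 : cc η B V / (k : ℝ) ^ 2 < (Jb η B V k : ℝ) + 1 := Nat.lt_floor_add_one _
  have h3 := h.η0
  have h4 := h.η1
  rw [div_le_iff₀ h3] at h1
  nlinarith

theorem σb_pos : 0 < σb η B V := by
  have := h.LB1
  have := ℓpos h
  have := h.η1
  unfold σb
  apply div_pos
  · nlinarith
  · assumption

theorem σb_le : σb η B V ≤ 1 / 4 := by
  have h1 := LB_le h
  have h2 := ℓpos h
  have h3 := h.η1
  have h4 := h.η0
  have h5 := h.LB1
  unfold σb
  rw [div_le_iff₀ h2]
  nlinarith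

theorem M_ge : V ≤ (Mb V : ℝ) := Nat.le_ceil _

theorem M_le : (Mb V : ℝ) ≤ V + 1 := by
  have := h.V1
  exact (Nat.ceil_lt_add_one (by linarith)).le

theorem log_Y {k : ℕ} (hk1 : k < K1 η (Real.log V)) :
    Real.log (Yb B V (k + 1)) ≤ (1 + η / 4) * Real.log V := by
  have hM := M_ge h
  have hM' := M_le h
  have hV := h.V1
  have hB := h.B2
  have hBr : (0 : ℝ) < B := by
    have : 0 < B := by omega
    exact_mod_cast this
  unfold Yb
  push_cast
  rw [Real.log_mul (by linarith) (by positivity), Real.log_pow]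
  have h1 : Real.log (Mb V : ℝ) ≤ (1 + η / 8) * Real.log V := by
    refine le_trans (Real.log_le_log (by linarith) hM') h.lV
  have h2 : ((k + 1 : ℕ) : ℝ) * Real.log B ≤ (η / 8) * Real.log V := by
    have h3 : ((k + 1 : ℕ) : ℝ) ≤ (K1 η (Real.log V) : ℝ) := by exact_mod_cast hk1
    have h4 := h.K1b
    have h5 := h.LB1
    nlinarith
  linarith

theorem Y_pos (k : ℕ) : 0 < Yb B V k := by
  have hM := M_ge h
  have hV := h.V1
  have hB := h.B2
  have hMpos : 0 < Mb V := by
    have : (0 : ℝ) < Mb V := by linarith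
    exact_mod_cast this
  unfold Yb
  have : 0 < B := by omega
  positivity

theorem log_Y_le2 {k : ℕ} (hk1 : k < K1 η (Real.log V)) :
    Real.log (Yb B V (k + 1)) ≤ 2 * Real.log V := by
  have h1 := log_Y h hk1
  have := h.η1
  have := ℓpos h
  nlinarith

theorem density (hM : ∀ x y : ℕ, 2 ≤ x → x ≤ y → Real.log y - Real.log x - C0 ≤
      ∑ p ∈ (Finset.Ioc x y).filter Nat.Prime, Real.log p / p)
    {k : ℕ} (hk0 : K0 η (Real.log V) ≤ k) (hk1 : k < K1 η (Real.log V)) :
    (1 - η / 2) * Real.log B / Real.log V ≤ ∑ p ∈ Pb B V k, 1 / (p : ℝ) := by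
  have hB := h.B2
  have hBr : (2 : ℝ) ≤ B := by exact_mod_cast hB
  have hV := h.V1
  have hMg := M_ge h
  have hY2 : 2 ≤ Yb B V k := by
    have h1 := Y_pos h k
    have h2 : (2 : ℝ) ≤ Yb B V k := by
      unfold Yb
      push_cast
      have : (1 : ℝ) ≤ (B : ℝ) ^ k := one_le_pow₀ (by linarith)
      nlinarith
    exact_mod_cast h2
  have hYle : Yb B V k ≤ Yb B V (k + 1) := by
    unfold Yb
    apply Nat.mul_le_mul_left
    exact Nat.pow_le_pow_right (by omega) (by omega)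
  have h1 := hM (Yb B V k) (Yb B V (k + 1)) hY2 hYle
  have hYr : (0 : ℝ) < Yb B V k := by exact_mod_cast Y_pos h k
  have h2 : Real.log (Yb B V (k + 1)) - Real.log (Yb B V k) = Real.log B := by
    have : (Yb B V (k + 1) : ℝ) = Yb B V k * B := by
      unfold Yb
      push_cast
      ring
    rw [this, Real.log_mul hYr.ne' (by linarith)]
    ring
  rw [h2] at h1
  set lY := Real.log (Yb B V (k + 1)) with hlY
  have hlYpos : 0 < lY := by
    apply Real.log_pos
    have : 2 ≤ Yb B V (k + 1) := hY2.trans hYle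
    exact_mod_cast (by omega : 1 < Yb B V (k + 1))
  have h3 : ∑ p ∈ (Finset.Ioc (Yb B V k) (Yb B V (k + 1))).filter Nat.Prime, Real.log p / p ≤
      lY * ∑ p ∈ Pb B V k, 1 / (p : ℝ) := by
    rw [Finset.mul_sum]
    apply Finset.sum_le_sum
    intro p hp
    rw [Finset.mem_filter, Finset.mem_Ioc] at hp
    have hp0 : (0 : ℝ) < p := by exact_mod_cast hp.2.pos
    rw [mul_one_div]
    apply div_le_div_of_nonneg_right _ hp0.le
    apply Real.log_le_log hp0
    exact_mod_cast hp.1.2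
  have h4 := log_Y h hk1
  have h5 := h.hC0
  have h6 := h.LB1
  have h7 := h.η0
  have h8 := h.η1
  have h9 := ℓpos h
  have hS0 : 0 ≤ ∑ p ∈ Pb B V k, 1 / (p : ℝ) := Finset.sum_nonneg fun p _ => by positivity
  have h10 : (1 - η / 4) * Real.log B ≤ ((1 + η / 4) * Real.log V) * ∑ p ∈ Pb B V k, 1 / (p : ℝ) := by
    calc (1 - η / 4) * Real.log B ≤ Real.log B - C0 := by linarith
      _ ≤ lY * ∑ p ∈ Pb B V k, 1 / (p : ℝ) := h1.trans h3
      _ ≤ _ := mul_le_mul_of_nonneg_right h4 hS0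
  rw [div_le_iff₀ h9]
  set S := ∑ p ∈ Pb B V k, 1 / (p : ℝ) with hS
  have h11 : (1 - η / 2) * (1 + η / 4) ≤ 1 - η / 4 := by nlinarith
  have h12 : 0 < 1 + η / 4 := by linarith
  have h13 : (1 + η / 4) * ((1 - η / 2) * Real.log B) ≤ (1 + η / 4) * (S * Real.log V) := by
    calc (1 + η / 4) * ((1 - η / 2) * Real.log B) = ((1 - η / 2) * (1 + η / 4)) * Real.log B := by ring
      _ ≤ (1 - η / 4) * Real.log B := by
          apply mul_le_mul_of_nonneg_right h11 (by linarith)
      _ ≤ _ := h10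
      _ = _ := by ring
  exact le_of_mul_le_mul_left h13 h12

theorem BK_ge {k : ℕ} (hk0 : K0 η (Real.log V) ≤ k) :
    (16 / η) * Real.log V ≤ (B : ℝ) ^ k := by
  have hB := h.B2
  have hBr : (2 : ℝ) ≤ B := by exact_mod_cast hB
  refine h.pK0.trans ?_
  have h1 : Real.exp (Real.log B * (K0 η (Real.log V) : ℝ)) = (B : ℝ) ^ (K0 η (Real.log V)) := by
    rw [mul_comm, Real.exp_nat_mul, Real.exp_log (by linarith)]
  rw [h1]
  exact pow_le_pow_right₀ (by linarith) hk0

theorem σ_ok (hM : ∀ x y : ℕ, 2 ≤ x → x ≤ y → Real.log y - Real.log x - C0 ≤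
      ∑ p ∈ (Finset.Ioc x y).filter Nat.Prime, Real.log p / p)
    {k : ℕ} (hk0 : K0 η (Real.log V) ≤ k) (hk1 : k < K1 η (Real.log V)) :
    σb η B V ≤ (∑ p ∈ Pb B V k, 1 / (p : ℝ)) - 2 * (Jb η B V k) * (1 / (Yb B V k : ℝ)) := by
  have h1 := density h hM hk0 hk1
  have h2 := Jb_le h hk0
  have h3 := BK_ge h hk0
  have hc := cc_le h
  have hc0 := cc_pos h
  have hk := kpos h hk0
  have hk1' : (1 : ℝ) ≤ k := by
    have := h.K02
    exact_mod_cast (by omega : 1 ≤ k)
  have hℓ := ℓpos h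
  have hη := h.η0
  have hη1 := h.η1
  have hLB := h.LB1
  have hV := h.V1
  have hMg := M_ge h
  have hJV : (Jb η B V k : ℝ) ≤ V := by
    refine h2.trans ?_
    rw [div_le_iff₀ (by positivity)]
    have : (1 : ℝ) ≤ (k : ℝ) ^ 2 := one_le_pow₀ hk1'
    nlinarith
  have hY : V * ((16 / η) * Real.log V) ≤ (Yb B V k : ℝ) := by
    unfold Yb
    push_cast
    apply mul_le_mul hMg h3 (by positivity) (by linarith)
  have hYpos : (0 : ℝ) < Yb B V k := by exact_mod_cast Y_pos h k
  have h4 : 2 * (Jb η B V k : ℝ) * (1 / (Yb B V k : ℝ)) ≤ (η / 2) * Real.log B / Real.log V := by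
    rw [mul_one_div, div_le_div_iff₀ hYpos hℓ]
    have h5 : 2 * (Jb η B V k : ℝ) * Real.log V ≤ 2 * V * Real.log V := by gcongr
    have h6 : 2 * V * Real.log V ≤ η / 2 * Real.log B * (V * ((16 / η) * Real.log V)) := by
      have : η / 2 * Real.log B * (V * ((16 / η) * Real.log V)) = 8 * Real.log B * (V * Real.log V) := by
        field_simp
        ring
      rw [this]
      have : 0 < V * Real.log V := by positivity
      nlinarith
    calc 2 * (Jb η B V k : ℝ) * Real.log V ≤ 2 * V * Real.log V := h5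
      _ ≤ η / 2 * Real.log B * (V * ((16 / η) * Real.log V)) := h6
      _ ≤ η / 2 * Real.log B * (Yb B V k : ℝ) := by gcongr
  have h7 : σb η B V = (1 - η / 2) * Real.log B / Real.log V - (η / 2) * Real.log B / Real.log V := by
    unfold σb
    ring
  rw [h7]
  linarith

theorem card_ok (hM : ∀ x y : ℕ, 2 ≤ x → x ≤ y → Real.log y - Real.log x - C0 ≤
      ∑ p ∈ (Finset.Ioc x y).filter Nat.Prime, Real.log p / p)
    {k : ℕ} (hk0 : K0 η (Real.log V) ≤ k) (hk1 : k < K1 η (Real.log V)) :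
    2 * Jb η B V k ≤ (Pb B V k).card := by
  have h1 := density h hM hk0 hk1
  have h2 := Jb_le h hk0
  have h3 := BK_ge h hk0
  have hc := cc_le h
  have hc0 := cc_pos h
  have hk1' : (1 : ℝ) ≤ k := by
    have := h.K02
    exact_mod_cast (by omega : 1 ≤ k)
  have hℓ := ℓpos h
  have hη := h.η0
  have hη1 := h.η1
  have hLB := h.LB1
  have hV := h.V1
  have hMg := M_ge h
  have hJV : (Jb η B V k : ℝ) ≤ V := by
    refine h2.trans ?_
    rw [div_le_iff₀ (by positivity)]
    have : (1 : ℝ) ≤ (k : ℝ) ^ 2 := one_le_pow₀ hk1'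
    nlinarith
  have hY : V * ((16 / η) * Real.log V) ≤ (Yb B V k : ℝ) := by
    unfold Yb
    push_cast
    apply mul_le_mul hMg h3 (by positivity) (by linarith)
  have hYpos : (0 : ℝ) < Yb B V k := by exact_mod_cast Y_pos h k
  have h4 : ∑ p ∈ Pb B V k, 1 / (p : ℝ) ≤ ((Pb B V k).card : ℝ) * (1 / (Yb B V k : ℝ)) := by
    rw [← nsmul_eq_mul]
    apply Finset.sum_le_card_nsmul
    intro p hp
    rw [Pb, Finset.mem_filter, Finset.mem_Ioc] at hp
    apply one_div_le_one_div_of_le hYpos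
    exact_mod_cast hp.1.1.le
  have h5 : (1 - η / 2) * Real.log B / Real.log V * (Yb B V k : ℝ) ≤ ((Pb B V k).card : ℝ) := by
    have := h1.trans h4
    rw [mul_one_div, le_div_iff₀ hYpos] at this
    exact this
  have h6 : 2 * V ≤ (1 - η / 2) * Real.log B / Real.log V * (Yb B V k : ℝ) := by
    calc 2 * V ≤ (1 - η / 2) * Real.log B / Real.log V * (V * ((16 / η) * Real.log V)) := by
          have e : (1 - η / 2) * Real.log B / Real.log V * (V * ((16 / η) * Real.log V)) =
              (1 - η / 2) * Real.log B * V * (16 / η) := by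
            field_simp
          rw [e]
          have h16 : (16 : ℝ) ≤ 16 / η := by
            rw [le_div_iff₀ hη]
            nlinarith
          have : (1 / 2 : ℝ) * V ≤ (1 - η / 2) * Real.log B * V := by
            apply mul_le_mul_of_nonneg_right _ (by linarith)
            nlinarith
          nlinarith
      _ ≤ _ := by
          apply mul_le_mul_of_nonneg_left hY
          apply div_nonneg _ hℓ.le
          nlinarith
  have h7 : (2 : ℝ) * (Jb η B V k : ℝ) ≤ ((Pb B V k).card : ℝ) := by linarith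
  exact_mod_cast h7

end build

end Pool.Agent.H.MP_3e6494_nt.H15
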