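import Pool.Agent.H.MP_3e6494_nt.helper15.Params

/-!
Size, length and gain of the chosen system.
-/

set_option autoImplicit false
set_option linter.unusedVariables false

open Finset Filter Topology

namespace Pool.Agent.H.MP_3e6494_nt.H15

section build

variable {η ε C0 : ℝ} {B : ℕ} {V : ℝ} (h : Pre η ε C0 B V)

/-- the size contribution of one block -/
noncomputable def szb (η : ℝ) (B : ℕ) (V : ℝ) (k : ℕ) : ℝ :=
  2 * Real.log ((Pb B V k).card.choose (Jb η B V k))

include h

theorem big1 : 100 * Real.log V ^ 6 ≤ η ^ 2 * V := by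
  have hbig := h.big
  have h5 := h.η0
  have h6 := h.ℓ1
  have hℓ6 : 100 / η ^ 2 * Real.log V ^ 6 ≤ V := by
    have : 0 ≤ 1000 / ε ^ 2 * Real.log V ^ 6 := by positivity
    linarith
  rw [div_mul_eq_mul_div, div_le_iff₀ (by positivity)] at hℓ6
  linarith

theorem big2 : 1000 * Real.log V ^ 6 ≤ ε ^ 2 * V := by
  have hbig := h.big
  have h5 := h.ε0
  have h6 := h.ℓ1
  have hℓ6 : 1000 / ε ^ 2 * Real.log V ^ 6 ≤ V := by
    have : 0 ≤ 100 / η ^ 2 * Real.log V ^ 6 := by positivity
    linarith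
  rw [div_mul_eq_mul_div, div_le_iff₀ (by positivity)] at hℓ6
  linarith

theorem big3 : 100 * Real.log V ^ 6 ≤ V := by
  have h1 := big1 h
  have h2 := h.η0
  have h3 := h.η1
  have h4 := h.V1
  have : η ^ 2 * V ≤ 1 * V := by
    apply mul_le_mul_of_nonneg_right _ (by linarith)
    nlinarith
  linarith

theorem Jb_pos {k : ℕ} (hk0 : K0 η (Real.log V) ≤ k) (hk1 : k < K1 η (Real.log V)) :
    0 < Jb η B V k := by
  have h1 := Jb_ge h hk0 hk1
  have h2 := cc_div_ge h hk0 hk1
  have h3 := h.η0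
  have h4 := h.η1
  have h5 : 0 < 40 / η := by positivity
  have h6 : (0 : ℝ) < (Jb η B V k : ℝ) := by
    refine lt_of_lt_of_le ?_ h1
    apply mul_pos
    · have : 0 < 1 - η := by linarith
      positivity
    · linarith
  exact_mod_cast h6

theorem logLL_le {k : ℕ} (hk0 : K0 η (Real.log V) ≤ k) :
    Real.log (LL η (Real.log V)) ≤ Real.log (1 / η) + Real.log (2 * k) := by
  have h1 := L_half h
  have h2 := h.Lup
  have h3 := log_K0 η (Real.log V) h.η0 (ℓpos h)
  have hk := kpos h hk0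
  have hη := h.η0
  rw [← Real.log_mul (by positivity) (by positivity)]
  apply Real.log_le_log (by linarith)
  refine h2.trans (h3.trans ?_)
  apply mul_le_mul_of_nonneg_left _ (by positivity)
  have h4 : (K0 η (Real.log V) : ℝ) ≤ (k : ℝ) := by exact_mod_cast hk0
  have h5 : (1 : ℝ) ≤ (k : ℝ) := by
    have := h.K02
    exact_mod_cast (by omega : 1 ≤ k)
  have h6 : (0 : ℝ) ≤ (K0 η (Real.log V) : ℝ) := Nat.cast_nonneg _
  have h7 := Real.log_le_sub_one_of_pos (x := (K0 η (Real.log V) : ℝ) + 1) (by positivity)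
  linarith

theorem size_one {k : ℕ} (hk0 : K0 η (Real.log V) ≤ k) (hk1 : k < K1 η (Real.log V)) :
    szb η B V k ≤ 2 * cc η B V * (1 + η) * Real.log B * (1 / (k : ℝ)) := by
  have hJ := Jb_pos h hk0 hk1
  have hJr : (0 : ℝ) < (Jb η B V k : ℝ) := by exact_mod_cast hJ
  have hk := kpos h hk0
  have hη := h.η0
  have hη1 := h.η1
  have hLB := h.LB1
  have hV := h.V1
  have hMle := M_le h
  have hc0 := cc_pos h
  have hL := L_half h
  have hBr : (2 : ℝ) ≤ B := by exact_mod_cast h.B2
  have hcard : 0 < (Pb B V k).card.choose (Jb η B V k) ∨ (Pb B V k).card.choose (Jb η B V k) = 0 := by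
    omega
  have hrhs : 0 ≤ 2 * cc η B V * (1 + η) * Real.log B * (1 / (k : ℝ)) := by
    have : 0 ≤ Real.log B := by linarith
    positivity
  rcases hcard with hc | hc
  swap
  · unfold szb
    rw [hc]
    simpa using hrhs
  have h1 := choose_le_exp (Pb B V k).card (Jb η B V k) hJ
  have h2 : Real.log ((Pb B V k).card.choose (Jb η B V k) : ℝ) ≤
      (Jb η B V k : ℝ) * Real.log (Real.exp 1 * ((Pb B V k).card : ℝ) / (Jb η B V k : ℝ)) := by
    rw [← Real.log_pow]
    apply Real.log_le_log _ h1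
    exact_mod_cast hc
  -- bound on the ratio
  have hcardle : ((Pb B V k).card : ℝ) ≤ (Yb B V (k + 1) : ℝ) := by
    have : (Pb B V k).card ≤ Yb B V (k + 1) := by
      refine (Finset.card_filter_le _ _).trans ?_
      rw [Nat.card_Ioc]
      omega
    exact_mod_cast this
  have hcardpos : (0 : ℝ) < ((Pb B V k).card : ℝ) := by
    have : Jb η B V k ≤ (Pb B V k).card := by
      by_contra hlt
      push Not at hlt
      rw [Nat.choose_eq_zero_of_lt hlt] at hc
      omega
    exact_mod_cast (lt_of_lt_of_le hJ this)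
  have hJge := Jb_ge h hk0 hk1
  have hJge2 : cc η B V / (2 * (k : ℝ) ^ 2) ≤ (Jb η B V k : ℝ) := by
    refine le_trans ?_ hJge
    have e : cc η B V / (2 * (k : ℝ) ^ 2) = (1 / 2) * (cc η B V / (k : ℝ) ^ 2) := by
      field_simp
    rw [e]
    apply mul_le_mul_of_nonneg_right _ (by positivity)
    nlinarith
  have hccge : V / (4 * Real.log B * LL η (Real.log V)) ≤ cc η B V := by
    unfold cc
    rw [div_le_div_iff₀ (by positivity) (by positivity)]
    have : 0 < Real.log B * LL η (Real.log V) := by positivity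
    nlinarith [mul_pos (show 0 < V by linarith) this]
  have hYle : (Yb B V (k + 1) : ℝ) ≤ 2 * V * (B : ℝ) ^ (k + 1) := by
    unfold Yb
    push_cast
    apply mul_le_mul_of_nonneg_right _ (by positivity)
    linarith
  have hratio : Real.exp 1 * ((Pb B V k).card : ℝ) / (Jb η B V k : ℝ) ≤
      (16 * Real.exp 1 * Real.log B * B) * LL η (Real.log V) * (k : ℝ) ^ 2 * (B : ℝ) ^ k := by
    rw [div_le_iff₀ hJr]
    have hlow : V / (8 * Real.log B * LL η (Real.log V) * (k : ℝ) ^ 2) ≤ (Jb η B V k : ℝ) := by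
      refine le_trans ?_ hJge2
      have e : V / (8 * Real.log B * LL η (Real.log V) * (k : ℝ) ^ 2) =
          (V / (4 * Real.log B * LL η (Real.log V))) / (2 * (k : ℝ) ^ 2) := by
        field_simp
        ring
      rw [e]
      apply div_le_div_of_nonneg_right hccge (by positivity)
    calc Real.exp 1 * ((Pb B V k).card : ℝ) ≤ Real.exp 1 * (2 * V * (B : ℝ) ^ (k + 1)) := by
          apply mul_le_mul_of_nonneg_left (hcardle.trans hYle) (Real.exp_pos _).le
      _ = (16 * Real.exp 1 * Real.log B * B) * LL η (Real.log V) * (k : ℝ) ^ 2 * (B : ℝ) ^ k *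
          (V / (8 * Real.log B * LL η (Real.log V) * (k : ℝ) ^ 2)) := by
          field_simp
          ring
      _ ≤ _ := by
          apply mul_le_mul_of_nonneg_left hlow
          positivity
  have hlog : Real.log (Real.exp 1 * ((Pb B V k).card : ℝ) / (Jb η B V k : ℝ)) ≤
      (1 + η) * Real.log B * k := by
    have h3 := Real.log_le_log (by positivity) hratio
    have hC : (0 : ℝ) < 16 * Real.exp 1 * Real.log B * B := by positivity
    rw [Real.log_mul (by positivity) (by positivity), Real.log_mul (by positivity) (by positivity),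
      Real.log_mul (by positivity) (by positivity), Real.log_pow, Real.log_pow] at h3
    have h4 := logLL_le h hk0
    have h5 := h.hk k hk0
    have h6 : Real.log (k : ℝ) ≤ Real.log (2 * k) := Real.log_le_log hk (by linarith)
    push_cast at h3
    linarith
  have h4 : Real.log ((Pb B V k).card.choose (Jb η B V k) : ℝ) ≤
      (Jb η B V k : ℝ) * ((1 + η) * Real.log B * k) :=
    h2.trans (mul_le_mul_of_nonneg_left hlog hJr.le)
  have h5 : (Jb η B V k : ℝ) * ((1 + η) * Real.log B * k) ≤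
      (cc η B V / (k : ℝ) ^ 2) * ((1 + η) * Real.log B * k) := by
    apply mul_le_mul_of_nonneg_right (Jb_le h hk0)
    positivity
  have h6 : (cc η B V / (k : ℝ) ^ 2) * ((1 + η) * Real.log B * k) =
      cc η B V * (1 + η) * Real.log B * (1 / (k : ℝ)) := by
    field_simp
  unfold szb
  linarith

theorem size_ok :
    ∑ k ∈ Finset.Ico (K0 η (Real.log V)) (K1 η (Real.log V)), szb η B V k ≤ V - 3 := by
  have h1 : ∑ k ∈ Finset.Ico (K0 η (Real.log V)) (K1 η (Real.log V)), szb η B V k ≤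
      ∑ k ∈ Finset.Ico (K0 η (Real.log V)) (K1 η (Real.log V)),
        2 * cc η B V * (1 + η) * Real.log B * (1 / (k : ℝ)) := by
    apply Finset.sum_le_sum
    intro k hk
    rw [Finset.mem_Ico] at hk
    exact size_one h hk.1 hk.2
  rw [← Finset.mul_sum] at h1
  change _ ≤ 2 * cc η B V * (1 + η) * Real.log B * LL η (Real.log V) at h1
  have hL := L_half h
  have hLB := h.LB1
  have e : 2 * cc η B V * (1 + η) * Real.log B * LL η (Real.log V) = (1 - η ^ 2) * V := by
    unfold cc
    have h2 : Real.log B ≠ 0 := by linarith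
    have h3 : LL η (Real.log V) ≠ 0 := by linarith
    field_simp
    ring
  rw [e] at h1
  have h2 := big1 h
  have h3 := h.ℓ1
  have h4 : 1 ≤ Real.log V ^ 6 := one_le_pow₀ (by linarith)
  linarith

theorem ccσ : cc η B V * σb η B V = (1 - η) ^ 2 * (V / (2 * LL η (Real.log V) * Real.log V)) := by
  unfold cc σb
  have h2 : Real.log B ≠ 0 := by linarith [h.LB1]
  have h3 : LL η (Real.log V) ≠ 0 := by linarith [L_half h]
  have h4 : Real.log V ≠ 0 := by linarith [h.ℓ1]
  field_simp

theorem sqrt_ccσ : Real.sqrt (cc η B V * σb η B V) =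
    (1 - η) * Real.sqrt (V / (2 * LL η (Real.log V) * Real.log V)) := by
  rw [ccσ h, Real.sqrt_mul (by positivity), Real.sqrt_sq (by linarith [h.η1])]

theorem ib_le {k : ℕ} (hk0 : K0 η (Real.log V) ≤ k) :
    (ib η B V k : ℝ) ≤ Real.sqrt (cc η B V * σb η B V) * (1 / (k : ℝ)) := by
  have hk := kpos h hk0
  have h1 : (ib η B V k : ℝ) ≤ Real.sqrt ((Jb η B V k : ℝ) * σb η B V) :=
    Nat.floor_le (Real.sqrt_nonneg _)
  refine h1.trans ?_
  have h2 := Jb_le h hk0
  have h3 := σb_pos h
  have h4 := cc_pos h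
  have h5 : Real.sqrt (cc η B V * σb η B V) * (1 / (k : ℝ)) =
      Real.sqrt (cc η B V / (k : ℝ) ^ 2 * σb η B V) := by
    rw [show cc η B V / (k : ℝ) ^ 2 * σb η B V = (cc η B V * σb η B V) / (k : ℝ) ^ 2 by ring,
      Real.sqrt_div (by positivity), Real.sqrt_sq hk.le]
    ring
  rw [h5]
  apply Real.sqrt_le_sqrt
  apply mul_le_mul_of_nonneg_right h2 h3.le

theorem ib_ge {k : ℕ} (hk0 : K0 η (Real.log V) ≤ k) (hk1 : k < K1 η (Real.log V)) :
    (1 - η) * Real.sqrt (cc η B V * σb η B V) * (1 / (k : ℝ)) - 1 ≤ (ib η B V k : ℝ) := by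
  have hk := kpos h hk0
  have h1 : Real.sqrt ((Jb η B V k : ℝ) * σb η B V) < (ib η B V k : ℝ) + 1 :=
    Nat.lt_floor_add_one _
  have h2 := Jb_ge h hk0 hk1
  have h3 := σb_pos h
  have h4 := cc_pos h
  have hη1 := h.η1
  have h5 : (1 - η) * Real.sqrt (cc η B V * σb η B V) * (1 / (k : ℝ)) =
      Real.sqrt ((1 - η) ^ 2 * (cc η B V / (k : ℝ) ^ 2) * σb η B V) := by
    rw [show (1 - η) ^ 2 * (cc η B V / (k : ℝ) ^ 2) * σb η B V =
      (cc η B V * σb η B V) * ((1 - η) * (1 / (k : ℝ))) ^ 2 by ring]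
    rw [Real.sqrt_mul (mul_nonneg h4.le h3.le) (((1 - η) * (1 / (k : ℝ))) ^ 2),
      Real.sqrt_sq (mul_nonneg (by linarith) (by positivity))]
    ring
  have h6 : Real.sqrt ((1 - η) ^ 2 * (cc η B V / (k : ℝ) ^ 2) * σb η B V) ≤
      Real.sqrt ((Jb η B V k : ℝ) * σb η B V) := by
    apply Real.sqrt_le_sqrt
    exact mul_le_mul_of_nonneg_right h2 h3.le
  rw [h5]
  linarith

theorem hi_ok (k : ℕ) : (ib η B V k : ℝ) ^ 2 ≤ (Jb η B V k : ℝ) * σb η B V := by
  have h1 : (ib η B V k : ℝ) ≤ Real.sqrt ((Jb η B V k : ℝ) * σb η B V) :=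
    Nat.floor_le (Real.sqrt_nonneg _)
  have h3 := σb_pos h
  calc (ib η B V k : ℝ) ^ 2 ≤ Real.sqrt ((Jb η B V k : ℝ) * σb η B V) ^ 2 := by gcongr
    _ = _ := Real.sq_sqrt (by positivity)

theorem i1_ok {k : ℕ} (hk0 : K0 η (Real.log V) ≤ k) (hk1 : k < K1 η (Real.log V)) :
    1 ≤ ib η B V k := by
  apply Nat.le_floor
  rw [Nat.cast_one, Real.one_le_sqrt]
  have h2 := Jb_ge h hk0 hk1
  have h3 := σb_pos h
  have h4 := ccσ h
  have h5 := L_half h
  have h6 := L_le h
  have h7 := ℓpos h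
  have h8 := big3 h
  have hη0 := h.η0
  have hη1 := h.η1
  have hℓ := h.ℓ1
  have hV := h.V1
  have hk := kpos h hk0
  have hkle : (k : ℝ) ≤ Real.log V := by
    have h7 := K1_le' h
    have h8 : (k : ℝ) ≤ (K1 η (Real.log V) : ℝ) := by exact_mod_cast hk1.le
    linarith
  have h9 : 1 ≤ ((1 - η) ^ 2 * (cc η B V / (k : ℝ) ^ 2)) * σb η B V := by
    have e : ((1 - η) ^ 2 * (cc η B V / (k : ℝ) ^ 2)) * σb η B V =
        ((1 - η) ^ 4 * V) / (2 * LL η (Real.log V) * Real.log V * (k : ℝ) ^ 2) := by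
      rw [show ((1 - η) ^ 2 * (cc η B V / (k : ℝ) ^ 2)) * σb η B V =
        ((1 - η) ^ 2 * (cc η B V * σb η B V)) / (k : ℝ) ^ 2 by ring, h4]
      field_simp
    rw [e, le_div_iff₀ (by positivity), one_mul]
    have h10 : 2 * LL η (Real.log V) * Real.log V * (k : ℝ) ^ 2 ≤
        2 * Real.log V * Real.log V * Real.log V ^ 2 := by gcongr
    have h11 : (1 / 2 : ℝ) ≤ (1 - η) ^ 4 := by
      have : (19 / 20 : ℝ) ^ 4 ≤ (1 - η) ^ 4 := by
        apply pow_le_pow_left₀ (by norm_num)
        linarith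
      refine le_trans ?_ this
      norm_num
    have h12 : Real.log V ^ 4 ≤ Real.log V ^ 6 := pow_le_pow_right₀ (by linarith) (by norm_num)
    nlinarith
  refine h9.trans ?_
  exact mul_le_mul_of_nonneg_right h2 h3.le

theorem length_ok :
    2 * ∑ k ∈ Finset.Ico (K0 η (Real.log V)) (K1 η (Real.log V)),
      (ib η B V k : ℝ) * Real.log (Yb B V (k + 1)) < 2 * V := by
  have h1 : ∑ k ∈ Finset.Ico (K0 η (Real.log V)) (K1 η (Real.log V)),
      (ib η B V k : ℝ) * Real.log (Yb B V (k + 1)) ≤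
      ∑ k ∈ Finset.Ico (K0 η (Real.log V)) (K1 η (Real.log V)),
        (Real.sqrt (cc η B V * σb η B V) * (2 * Real.log V)) * (1 / (k : ℝ)) := by
    apply Finset.sum_le_sum
    intro k hk
    rw [Finset.mem_Ico] at hk
    have h2 := ib_le h hk.1
    have h3 := log_Y_le2 h hk.2
    have hkp := kpos h hk.1
    have h4 : 0 ≤ Real.log (Yb B V (k + 1)) := by
      apply Real.log_nonneg
      exact_mod_cast Y_pos h (k + 1)
    calc (ib η B V k : ℝ) * Real.log (Yb B V (k + 1)) ≤
        (Real.sqrt (cc η B V * σb η B V) * (1 / (k : ℝ))) * (2 * Real.log V) := by gcongr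
      _ = _ := by ring
  rw [← Finset.mul_sum] at h1
  change _ ≤ (Real.sqrt (cc η B V * σb η B V) * (2 * Real.log V)) * LL η (Real.log V) at h1
  have hL := L_half h
  have hL' := L_le h
  have hℓ := ℓpos h
  have hη0 := h.η0
  have hη1 := h.η1
  have hV := h.V1
  have h8 := big3 h
  have hℓ1 := h.ℓ1
  have h2 : (Real.sqrt (cc η B V * σb η B V) * (2 * Real.log V)) * LL η (Real.log V) < V := by
    have h3 : (Real.sqrt (cc η B V * σb η B V) * (2 * Real.log V)) * LL η (Real.log V) =
        Real.sqrt ((cc η B V * σb η B V) * ((2 * Real.log V) * LL η (Real.log V)) ^ 2) := by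
      rw [Real.sqrt_mul (mul_nonneg (cc_pos h).le (σb_pos h).le)
        (((2 * Real.log V) * LL η (Real.log V)) ^ 2), Real.sqrt_sq (by positivity)]
      ring
    rw [h3, Real.sqrt_lt' (by linarith), ccσ h]
    have e : (1 - η) ^ 2 * (V / (2 * LL η (Real.log V) * Real.log V)) *
        (2 * Real.log V * LL η (Real.log V)) ^ 2 =
        (1 - η) ^ 2 * (2 * Real.log V * LL η (Real.log V) * V) := by
      field_simp
    rw [e]
    have h4 : (1 - η) ^ 2 * (2 * Real.log V * LL η (Real.log V) * V) ≤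
        1 * (2 * Real.log V * Real.log V * V) := by
      apply mul_le_mul _ _ (by positivity) (by norm_num)
      · nlinarith
      · gcongr
    have h5 : 2 * Real.log V * Real.log V < V := by
      have h12 : Real.log V ^ 2 ≤ Real.log V ^ 6 := pow_le_pow_right₀ (by linarith) (by norm_num)
      nlinarith
    nlinarith
  linarith

theorem log_ib_le {k : ℕ} (hk0 : K0 η (Real.log V) ≤ k) (hk1 : k < K1 η (Real.log V)) :
    Real.log (2 * (Real.exp 1 * (ib η B V k : ℝ)) ^ 2) ≤ 3 + Real.log V := by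
  have h1 := i1_ok h hk0 hk1
  have h1r : (1 : ℝ) ≤ (ib η B V k : ℝ) := by exact_mod_cast h1
  have h2 := hi_ok h k
  have h3 := Jb_le h hk0
  have h4 := σb_le h
  have h4' := σb_pos h
  have h5 := cc_le h
  have h6 := cc_pos h
  have hk := kpos h hk0
  have hV := h.V1
  have h7 : (ib η B V k : ℝ) ^ 2 ≤ V := by
    have h8 : (1 : ℝ) ≤ k := by
      have := h.K02
      exact_mod_cast (by omega : 1 ≤ k)
    have h9 : (Jb η B V k : ℝ) ≤ V := by
      refine h3.trans ?_
      rw [div_le_iff₀ (by positivity)]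
      have : (1 : ℝ) ≤ (k : ℝ) ^ 2 := one_le_pow₀ h8
      nlinarith
    have h10 : (0 : ℝ) ≤ (Jb η B V k : ℝ) := Nat.cast_nonneg _
    nlinarith
  rw [Real.log_mul (by norm_num) (by positivity), mul_pow, Real.log_mul (by positivity) (by positivity),
    Real.log_pow, Real.log_exp]
  have h8 : Real.log ((ib η B V k : ℝ) ^ 2) ≤ Real.log V := Real.log_le_log (by positivity) h7
  have h9 : Real.log 2 < 1 := by
    have := Real.log_two_lt_d9
    linarith
  push_cast
  linarith

theorem gain_ok :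
    (Real.sqrt 2 - ε) * Real.sqrt (V * Real.log (Real.log V) / Real.log V) + 1 ≤
      ∑ k ∈ Finset.Ico (K0 η (Real.log V)) (K1 η (Real.log V)),
      (2 * (ib η B V k : ℝ) - Real.log (2 * (Real.exp 1 * (ib η B V k : ℝ)) ^ 2)) := by
  set X := Real.sqrt (V * Real.log (Real.log V) / Real.log V) with hX
  have hL := L_half h
  have hL' := L_le h
  have hℓ := ℓpos h
  have hη0 := h.η0
  have hη1 := h.η1
  have hV := h.V1
  have h8 := big2 h
  have hℓ1 := h.ℓ1
  have hll := h.ll1
  have hε := h.ε0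
  have h1 : ∑ k ∈ Finset.Ico (K0 η (Real.log V)) (K1 η (Real.log V)),
      ((2 * (1 - η) * Real.sqrt (cc η B V * σb η B V)) * (1 / (k : ℝ)) - (5 + Real.log V)) ≤
      ∑ k ∈ Finset.Ico (K0 η (Real.log V)) (K1 η (Real.log V)),
      (2 * (ib η B V k : ℝ) - Real.log (2 * (Real.exp 1 * (ib η B V k : ℝ)) ^ 2)) := by
    apply Finset.sum_le_sum
    intro k hk
    rw [Finset.mem_Ico] at hk
    have h2 := ib_ge h hk.1 hk.2
    have h3 := log_ib_le h hk.1 hk.2
    linarith
  rw [Finset.sum_sub_distrib, ← Finset.mul_sum, Finset.sum_const, nsmul_eq_mul] at h1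
  change (2 * (1 - η) * Real.sqrt (cc η B V * σb η B V)) * LL η (Real.log V) - _ ≤ _ at h1
  refine le_trans ?_ h1
  have h2 : ((Finset.Ico (K0 η (Real.log V)) (K1 η (Real.log V))).card : ℝ) ≤ Real.log V := by
    rw [Nat.card_Ico]
    refine le_trans ?_ (K1_le' h)
    exact_mod_cast Nat.sub_le _ _
  have h3 : ((Finset.Ico (K0 η (Real.log V)) (K1 η (Real.log V))).card : ℝ) * (5 + Real.log V) ≤
      Real.log V * (5 + Real.log V) := by
    apply mul_le_mul_of_nonneg_right h2 (by linarith)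
  -- main term
  have h4 : Real.sqrt 2 * (1 - 5 * η) * X ≤
      (2 * (1 - η) * Real.sqrt (cc η B V * σb η B V)) * LL η (Real.log V) := by
    rw [sqrt_ccσ h]
    have h5 : Real.sqrt (V / (2 * LL η (Real.log V) * Real.log V)) * LL η (Real.log V) * 2 =
        Real.sqrt 2 * Real.sqrt (V * LL η (Real.log V) / Real.log V) := by
      rw [← Real.sqrt_mul (by norm_num)]
      have e : Real.sqrt (V / (2 * LL η (Real.log V) * Real.log V)) * LL η (Real.log V) * 2 =
        Real.sqrt (V / (2 * LL η (Real.log V) * Real.log V) * (LL η (Real.log V) * 2) ^ 2) := by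
        rw [Real.sqrt_mul' _ (by positivity), Real.sqrt_sq (by positivity)]
        ring
      rw [e]
      congr 1
      field_simp
    have h6 : (1 - 3 * η) * X ≤ Real.sqrt (V * LL η (Real.log V) / Real.log V) := by
      have h7 : (1 - 3 * η) * X = Real.sqrt ((1 - 3 * η) ^ 2 * (V * Real.log (Real.log V) / Real.log V)) := by
        rw [Real.sqrt_mul (by positivity), Real.sqrt_sq (by linarith)]
      rw [h7]
      apply Real.sqrt_le_sqrt
      have h9 := h.Llow
      have h10 : (1 - 3 * η) ^ 2 * (V * Real.log (Real.log V) / Real.log V) =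
        (V / Real.log V) * ((1 - 3 * η) * ((1 - 3 * η) * Real.log (Real.log V))) := by ring
      have h11 : V * LL η (Real.log V) / Real.log V = (V / Real.log V) * LL η (Real.log V) := by ring
      rw [h10, h11]
      apply mul_le_mul_of_nonneg_left _ (by positivity)
      have h12 : 0 ≤ (1 - 3 * η) * Real.log (Real.log V) := by
        apply mul_nonneg <;> linarith
      nlinarith
    have h7 : (2 * (1 - η) * ((1 - η) * Real.sqrt (V / (2 * LL η (Real.log V) * Real.log V)))) *
        LL η (Real.log V) = (1 - η) ^ 2 * (Real.sqrt 2 * Real.sqrt (V * LL η (Real.log V) / Real.log V)) := by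
      rw [← h5]
      ring
    rw [h7]
    have h9 : 0 ≤ X := Real.sqrt_nonneg _
    have h10 : 0 ≤ Real.sqrt 2 := Real.sqrt_nonneg _
    calc Real.sqrt 2 * (1 - 5 * η) * X ≤ Real.sqrt 2 * ((1 - η) ^ 2 * (1 - 3 * η)) * X := by
          apply mul_le_mul_of_nonneg_right _ h9
          apply mul_le_mul_of_nonneg_left _ h10
          have e1 : (1 - η) ^ 2 * (1 - 3 * η) = 1 - 5 * η + η ^ 2 * (7 - 3 * η) := by ring
          rw [e1]
          have : 0 ≤ η ^ 2 * (7 - 3 * η) := mul_nonneg (by positivity) (by linarith)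
          linarith
      _ = (1 - η) ^ 2 * (Real.sqrt 2 * ((1 - 3 * η) * X)) := by ring
      _ ≤ _ := by
          apply mul_le_mul_of_nonneg_left _ (by positivity)
          exact mul_le_mul_of_nonneg_left h6 h10
  have h5 : Real.sqrt 2 ≤ 8 / 5 := by
    rw [Real.sqrt_le_left (by norm_num)]
    norm_num
  have h6 : 0 ≤ X := Real.sqrt_nonneg _
  have h7 := h.ηε
  have h9 : (Real.sqrt 2 - ε / 2) * X ≤ Real.sqrt 2 * (1 - 5 * η) * X := by
    apply mul_le_mul_of_nonneg_right _ h6
    nlinarith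
  have h10 : 4 * Real.log V ^ 2 ≤ ε * X := by
    have h11 : ε * X = Real.sqrt (ε ^ 2 * (V * Real.log (Real.log V) / Real.log V)) := by
      rw [Real.sqrt_mul (by positivity), Real.sqrt_sq hε.le]
    rw [h11]
    apply Real.le_sqrt_of_sq_le
    rw [← mul_div_assoc, le_div_iff₀ hℓ]
    have h12 : ε ^ 2 * V ≤ ε ^ 2 * (V * Real.log (Real.log V)) := by
      apply mul_le_mul_of_nonneg_left _ (by positivity)
      nlinarith
    refine le_trans ?_ h12
    refine le_trans ?_ h8
    have h13 : Real.log V ^ 5 ≤ Real.log V ^ 6 := pow_le_pow_right₀ (by linarith) (by norm_num)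
    nlinarith
  have h11 : Real.log V * (5 + Real.log V) + 1 ≤ 2 * Real.log V ^ 2 := by nlinarith
  linarith

end build

/-- The system of blocks. -/
noncomputable def mkBlocks {η ε C0 : ℝ} {B : ℕ} {V : ℝ} (h : Pre η ε C0 B V)
    (hM : ∀ x y : ℕ, 2 ≤ x → x ≤ y → Real.log y - Real.log x - C0 ≤
      ∑ p ∈ (Finset.Ioc x y).filter Nat.Prime, Real.log p / p) :
    Blocks V ((Real.sqrt 2 - ε) * Real.sqrt (V * Real.log (Real.log V) / Real.log V) + 1) where
  I := Finset.Ico (K0 η (Real.log V)) (K1 η (Real.log V))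
  P := Pb B V
  Y := fun k => Yb B V (k + 1)
  J := Jb η B V
  i := ib η B V
  w := fun k => 1 / (Yb B V k : ℝ)
  σ := σb η B V
  prime := fun k hk p hp => (Finset.mem_filter.mp hp).2
  disj := by
    have key : ∀ k l : ℕ, k < l → Disjoint (Pb B V k) (Pb B V l) := by
      intro k l hkl
      rw [Finset.disjoint_left]
      intro p hp hp'
      rw [Pb, Finset.mem_filter, Finset.mem_Ioc] at hp hp'
      have h1 : Yb B V (k + 1) ≤ Yb B V l := by
        unfold Yb
        apply Nat.mul_le_mul_left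
        exact Nat.pow_le_pow_right (by have := h.B2; omega) (by omega)
      omega
    intro k hk l hl hkl
    rcases Nat.lt_or_gt_of_ne hkl with h1 | h1
    · exact key k l h1
    · exact (key l k h1).symm
  leY := by
    intro k hk p hp
    rw [Pb, Finset.mem_filter, Finset.mem_Ioc] at hp
    exact hp.1.2
  Ysmall := by
    intro k hk
    rw [Finset.mem_Ico] at hk
    have h1 := log_Y_le2 h hk.2
    have hV := h.V1
    have h2 : (0 : ℝ) < (Yb B V (k + 1) : ℝ) := by exact_mod_cast Y_pos h (k + 1)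
    rw [← Real.log_le_log_iff h2 (by positivity), Real.log_pow]
    exact_mod_cast h1
  Ypos := fun k hk => Y_pos h (k + 1)
  card := by
    intro k hk
    rw [Finset.mem_Ico] at hk
    exact card_ok h hM hk.1 hk.2
  lew := by
    intro k hk p hp
    rw [Pb, Finset.mem_filter, Finset.mem_Ioc] at hp
    apply one_div_le_one_div_of_le
    · exact_mod_cast Y_pos h k
    · exact_mod_cast hp.1.1.le
  σ0 := (σb_pos h).le
  σ1 := σb_le h
  hσ := by
    intro k hk
    rw [Finset.mem_Ico] at hk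
    exact σ_ok h hM hk.1 hk.2
  i1 := by
    intro k hk
    rw [Finset.mem_Ico] at hk
    exact i1_ok h hk.1 hk.2
  hi := fun k hk => hi_ok h k
  size := size_ok h
  length := length_ok h
  gain := gain_ok h

theorem exists_blocks (C0 : ℝ)
    (hM : ∀ x y : ℕ, 2 ≤ x → x ≤ y → Real.log y - Real.log x - C0 ≤
      ∑ p ∈ (Finset.Ioc x y).filter Nat.Prime, Real.log p / p) (ε : ℝ) (hε : 0 < ε) :
    ∀ᶠ V : ℝ in atTop, Nonempty (Blocks V
      ((Real.sqrt 2 - ε) * Real.sqrt (V * Real.log (Real.log V) / Real.log V) + 1)) := by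
  set η : ℝ := min (ε / 16) (1 / 20) with hη
  have hη0 : 0 < η := lt_min (by positivity) (by norm_num)
  have hη1 : η ≤ 1 / 20 := min_le_right _ _
  have hηε : 16 * η ≤ ε := by
    have := min_le_left (ε / 16) (1 / 20 : ℝ)
    rw [← hη] at this
    linarith
  obtain ⟨B, hB⟩ : ∃ B : ℕ, max (2 : ℝ) (max (Real.exp 1) (Real.exp (4 * C0 / η))) ≤ B :=
    exists_nat_ge _
  have hB2 : (2 : ℝ) ≤ B := (le_max_left _ _).trans hB
  have hBe : Real.exp 1 ≤ B := (le_max_left _ _).trans ((le_max_right _ _).trans hB)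
  have hBc : Real.exp (4 * C0 / η) ≤ B := (le_max_right _ _).trans ((le_max_right _ _).trans hB)
  have hB0 : (0 : ℝ) < B := by linarith
  have hLB1 : 1 ≤ Real.log B := by
    rw [Real.le_log_iff_exp_le hB0]
    exact hBe
  have hLBc : C0 ≤ (η / 4) * Real.log B := by
    have h1 : 4 * C0 / η ≤ Real.log B := by
      rw [Real.le_log_iff_exp_le hB0]
      exact hBc
    rw [div_le_iff₀ hη0] at h1
    linarith
  filter_upwards [ev_Pre η ε C0 B hη0 hη1 hηε hε (by exact_mod_cast hB2) hLB1 hLBc] with V hV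
  exact ⟨mkBlocks hV hM⟩

end Pool.Agent.H.MP_3e6494_nt.H15
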