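import Pool.Agent.H.MP_3e6494_nt.helper15.Reson

/-!
The state space of the resonator: pairs of disjoint sets of primes in every block.
-/

set_option autoImplicit false
set_option linter.unusedVariables false
set_option linter.unusedSectionVars false

open Finset

namespace Pool.Agent.H.MP_3e6494_nt.H15

section Phi

variable {ι : Type} [Fintype ι] [DecidableEq ι]

/-- the product of all members of all blocks -/
def Phi (T : ι → Finset ℕ) : ℕ := ∏ k, ∏ p ∈ T k, p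

theorem Phi_mul (D E : ι → Finset ℕ) (h : ∀ k, Disjoint (D k) (E k)) :
    Phi D * Phi E = Phi (fun k => D k ∪ E k) := by
  rw [Phi, Phi, Phi, ← Finset.prod_mul_distrib]
  apply Finset.prod_congr rfl
  intro k _
  rw [Finset.prod_union (h k)]

theorem prime_dvd_Phi {P : ι → Finset ℕ} (hP : ∀ k, ∀ p ∈ P k, p.Prime)
    {T : ι → Finset ℕ} (hT : ∀ k, T k ⊆ P k) {p : ℕ} (hp : p.Prime) :
    p ∣ Phi T ↔ ∃ k, p ∈ T k := by
  rw [Phi]
  constructor
  · intro h
    obtain ⟨k, _, hk⟩ := (Prime.dvd_finsetProd_iff hp.prime _).mp h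
    obtain ⟨r, hr, hpr⟩ := (Prime.dvd_finsetProd_iff hp.prime _).mp hk
    have hrp := hP k r (hT k hr)
    rw [Nat.prime_dvd_prime_iff_eq hp hrp] at hpr
    exact ⟨k, hpr ▸ hr⟩
  · rintro ⟨k, hk⟩
    exact (Finset.dvd_prod_of_mem (fun p => p) hk).trans
      (Finset.dvd_prod_of_mem (fun k => ∏ p ∈ T k, p) (Finset.mem_univ k))

theorem Phi_inj {P : ι → Finset ℕ} (hP : ∀ k, ∀ p ∈ P k, p.Prime)
    (hdisj : ∀ k l, k ≠ l → Disjoint (P k) (P l))
    {T U : ι → Finset ℕ} (hT : ∀ k, T k ⊆ P k) (hU : ∀ k, U k ⊆ P k) (h : Phi T = Phi U) :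
    T = U := by
  funext k
  ext p
  have key : ∀ (T U : ι → Finset ℕ), (∀ k, T k ⊆ P k) → (∀ k, U k ⊆ P k) → Phi T = Phi U →
      p ∈ T k → p ∈ U k := by
    intro T U hT hU h hpT
    have hp := hP k p (hT k hpT)
    have h1 : p ∣ Phi U := by
      rw [← h]
      exact (prime_dvd_Phi hP hT hp).mpr ⟨k, hpT⟩
    obtain ⟨l, hl⟩ := (prime_dvd_Phi hP hU hp).mp h1
    by_cases hkl : k = l
    · rw [hkl]; exact hl
    · exact absurd (hU l hl) (Finset.disjoint_left.mp (hdisj k l hkl) (hT k hpT))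
  exact ⟨key T U hT hU h, key U T hU hT h.symm⟩

theorem Phi_pos {P : ι → Finset ℕ} (hP : ∀ k, ∀ p ∈ P k, p.Prime)
    {T : ι → Finset ℕ} (hT : ∀ k, T k ⊆ P k) : 0 < Phi T :=
  Finset.prod_pos fun k _ => Finset.prod_pos fun p hp => (hP k p (hT k hp)).pos

theorem Phi_le {Y : ι → ℕ} {i : ι → ℕ} {T : ι → Finset ℕ} (hY : ∀ k, ∀ p ∈ T k, p ≤ Y k)
    (hi : ∀ k, (T k).card = i k) : Phi T ≤ ∏ k, Y k ^ i k := by
  rw [Phi]
  apply Finset.prod_le_prod'
  intro k _
  rw [← hi k]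
  exact Finset.prod_le_pow_card _ _ _ (fun p hp => hY k p hp)

theorem Phi_coprime {P : ι → Finset ℕ} (hP : ∀ k, ∀ p ∈ P k, p.Prime) {q : ℕ} (hq : q.Prime)
    (hPq : ∀ k, ∀ p ∈ P k, p < q) {T : ι → Finset ℕ} (hT : ∀ k, T k ⊆ P k) :
    (Phi T).Coprime q := by
  apply Nat.Coprime.symm
  rw [Nat.Prime.coprime_iff_not_dvd hq]
  intro h
  obtain ⟨k, hk⟩ := (prime_dvd_Phi hP hT hq).mp h
  exact absurd (hPq k q (hT k hk)) (lt_irrefl _)

end Phi

/-- pairs of disjoint subsets of `P` of prescribed sizes -/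
def St (P : Finset ℕ) (j j' : ℕ) : Finset (Finset ℕ × Finset ℕ) :=
  ((Finset.powersetCard j P) ×ˢ (Finset.powersetCard j' P)).filter (fun x => Disjoint x.1 x.2)

theorem mem_St {P : Finset ℕ} {j j' : ℕ} {x : Finset ℕ × Finset ℕ} :
    x ∈ St P j j' ↔ (x.1 ⊆ P ∧ x.1.card = j) ∧ (x.2 ⊆ P ∧ x.2.card = j') ∧ Disjoint x.1 x.2 := by
  rw [St, Finset.mem_filter, Finset.mem_product, Finset.mem_powersetCard, Finset.mem_powersetCard]
  tauto

/-- the weight of the states with sizes `j, j'` -/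
noncomputable def ES (P : Finset ℕ) (j j' : ℕ) : ℝ :=
  ∑ x ∈ St P j j', 1 / (((∏ p ∈ x.1, p : ℕ) : ℝ) * ((∏ p ∈ x.2, p : ℕ) : ℝ))

theorem card_St_le (P : Finset ℕ) (j j' : ℕ) :
    (St P j j').card ≤ P.card.choose j * P.card.choose j' := by
  rw [St]
  refine (Finset.card_filter_le _ _).trans ?_
  rw [Finset.card_product, Finset.card_powersetCard, Finset.card_powersetCard]

theorem ES_comm (P : Finset ℕ) (j j' : ℕ) : ES P j j' = ES P j' j := by
  rw [ES, ES]
  apply Finset.sum_bij (fun x _ => (x.2, x.1))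
  · intro x hx
    rw [mem_St] at hx ⊢
    exact ⟨hx.2.1, hx.1, hx.2.2.symm⟩
  · intro x _ y _ h
    rw [Prod.mk.injEq] at h
    exact Prod.ext h.2 h.1
  · intro y hy
    refine ⟨(y.2, y.1), ?_, rfl⟩
    rw [mem_St] at hy ⊢
    exact ⟨hy.2.1, hy.1, hy.2.2.symm⟩
  · intro x _
    rw [mul_comm]

section families

variable {ι : Type} [Fintype ι] [DecidableEq ι]

/-- families of states -/
def FS (P : ι → Finset ℕ) (j j' : ι → ℕ) : Finset (ι → Finset ℕ × Finset ℕ) :=
  Fintype.piFinset (fun k => St (P k) (j k) (j' k))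

theorem mem_FS {P : ι → Finset ℕ} {j j' : ι → ℕ} {x : ι → Finset ℕ × Finset ℕ} :
    x ∈ FS P j j' ↔ ∀ k, ((x k).1 ⊆ P k ∧ (x k).1.card = j k) ∧
      ((x k).2 ⊆ P k ∧ (x k).2.card = j' k) ∧ Disjoint (x k).1 (x k).2 := by
  rw [FS, Fintype.mem_piFinset]
  exact forall_congr' fun k => mem_St

/-- numerator -/
def nu (x : ι → Finset ℕ × Finset ℕ) : ℕ := Phi (fun k => (x k).1)

/-- denominator -/
def de (x : ι → Finset ℕ × Finset ℕ) : ℕ := Phi (fun k => (x k).2)

theorem sum_FS (P : ι → Finset ℕ) (j j' : ι → ℕ) :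
    ∑ x ∈ FS P j j', 1 / ((nu x : ℝ) * (de x : ℝ)) = ∏ k, ES (P k) (j k) (j' k) := by
  simp only [ES]
  rw [Finset.prod_univ_sum]
  apply Finset.sum_congr rfl
  intro x _
  rw [nu, de, Phi, Phi, Nat.cast_prod, Nat.cast_prod, ← Finset.prod_mul_distrib, one_div,
    ← Finset.prod_inv_distrib]
  apply Finset.prod_congr rfl
  intro k _
  rw [one_div]

theorem card_FS_le (P : ι → Finset ℕ) (j j' : ι → ℕ) :
    (FS P j j').card ≤ ∏ k, ((P k).card.choose (j k) * (P k).card.choose (j' k)) := by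
  rw [FS, Fintype.card_piFinset]
  exact Finset.prod_le_prod' fun k _ => card_St_le _ _ _

/-- the sub-pairs removed from a state -/
def YY (i : ι → ℕ) (x : ι → Finset ℕ × Finset ℕ) : Finset (ι → Finset ℕ × Finset ℕ) :=
  Fintype.piFinset (fun k => (Finset.powersetCard (i k) (x k).1) ×ˢ
    (Finset.powersetCard (i k) (x k).2))

theorem mem_YY {i : ι → ℕ} {x y : ι → Finset ℕ × Finset ℕ} :
    y ∈ YY i x ↔ ∀ k, ((y k).1 ⊆ (x k).1 ∧ (y k).1.card = i k) ∧
      ((y k).2 ⊆ (x k).2 ∧ (y k).2.card = i k) := by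
  rw [YY, Fintype.mem_piFinset]
  apply forall_congr'
  intro k
  rw [Finset.mem_product, Finset.mem_powersetCard, Finset.mem_powersetCard]

theorem card_YY {P : ι → Finset ℕ} {J i : ι → ℕ} {x : ι → Finset ℕ × Finset ℕ}
    (hx : x ∈ FS P J J) : (YY i x).card = ∏ k, (J k).choose (i k) ^ 2 := by
  rw [mem_FS] at hx
  rw [YY, Fintype.card_piFinset]
  apply Finset.prod_congr rfl
  intro k _
  rw [Finset.card_product, Finset.card_powersetCard, Finset.card_powersetCard, (hx k).1.2,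
    (hx k).2.1.2, sq]

/-- source -/
def src (x y : ι → Finset ℕ × Finset ℕ) : ι → Finset ℕ × Finset ℕ :=
  fun k => ((x k).1 \ (y k).1, (x k).2)

/-- target -/
def tgt (x y : ι → Finset ℕ × Finset ℕ) : ι → Finset ℕ × Finset ℕ :=
  fun k => ((x k).1, (x k).2 \ (y k).2)

/-- the triple attached to a full state and a sub-pair -/
def tri (z : (_ : ι → Finset ℕ × Finset ℕ) × (ι → Finset ℕ × Finset ℕ)) :
    ℕ × (ι → Finset ℕ × Finset ℕ) × (ι → Finset ℕ × Finset ℕ) :=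
  (nu z.2 * de z.2, src z.1 z.2, tgt z.1 z.2)

/-- index set of the sum -/
def ZZ (P : ι → Finset ℕ) (J i : ι → ℕ) :
    Finset ((_ : ι → Finset ℕ × Finset ℕ) × (ι → Finset ℕ × Finset ℕ)) :=
  (FS P J J).sigma (fun x => YY i x)

theorem mem_ZZ {P : ι → Finset ℕ} {J i : ι → ℕ}
    {z : (_ : ι → Finset ℕ × Finset ℕ) × (ι → Finset ℕ × Finset ℕ)} :
    z ∈ ZZ P J i ↔ z.1 ∈ FS P J J ∧ z.2 ∈ YY i z.1 := by
  rw [ZZ, Finset.mem_sigma]

section facts

variable {P : ι → Finset ℕ} (hP : ∀ k, ∀ p ∈ P k, p.Prime)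
    (hdisj : ∀ k l, k ≠ l → Disjoint (P k) (P l)) {J i : ι → ℕ}
    {x y : ι → Finset ℕ × Finset ℕ} (hx : x ∈ FS P J J) (hy : y ∈ YY i x)

include hx hy

theorem src_mem : src x y ∈ FS P (fun k => J k - i k) J := by
  rw [mem_FS] at hx ⊢
  rw [mem_YY] at hy
  intro k
  refine ⟨⟨Finset.sdiff_subset.trans (hx k).1.1, ?_⟩, (hx k).2.1, ?_⟩
  · show ((x k).1 \ (y k).1).card = _
    rw [Finset.card_sdiff_of_subset (hy k).1.1, (hx k).1.2, (hy k).1.2]
  · exact Finset.disjoint_of_subset_left Finset.sdiff_subset (hx k).2.2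

theorem tgt_mem : tgt x y ∈ FS P J (fun k => J k - i k) := by
  rw [mem_FS] at hx ⊢
  rw [mem_YY] at hy
  intro k
  refine ⟨(hx k).1, ⟨Finset.sdiff_subset.trans (hx k).2.1.1, ?_⟩, ?_⟩
  · show ((x k).2 \ (y k).2).card = _
    rw [Finset.card_sdiff_of_subset (hy k).2.1, (hx k).2.1.2, (hy k).2.2]
  · exact Finset.disjoint_of_subset_right Finset.sdiff_subset (hx k).2.2

theorem nu_src : nu (src x y) * nu y = nu x := by
  rw [mem_FS] at hx
  rw [mem_YY] at hy
  rw [nu, nu, nu, Phi_mul]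
  · congr 1
    funext k
    show (x k).1 \ (y k).1 ∪ (y k).1 = (x k).1
    rw [Finset.union_comm, Finset.union_sdiff_of_subset (hy k).1.1]
  · intro k
    exact Finset.sdiff_disjoint

theorem de_tgt : de (tgt x y) * de y = de x := by
  rw [mem_FS] at hx
  rw [mem_YY] at hy
  rw [de, de, de, Phi_mul]
  · congr 1
    funext k
    show (x k).2 \ (y k).2 ∪ (y k).2 = (x k).2
    rw [Finset.union_comm, Finset.union_sdiff_of_subset (hy k).2.1]
  · intro k
    exact Finset.sdiff_disjoint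

theorem disj_y (k : ι) : Disjoint (y k).1 (y k).2 := by
  rw [mem_FS] at hx
  rw [mem_YY] at hy
  exact Finset.disjoint_of_subset_left (hy k).1.1
    (Finset.disjoint_of_subset_right (hy k).2.1 (hx k).2.2)

theorem nu_mul_de : nu y * de y = Phi (fun k => (y k).1 ∪ (y k).2) := by
  rw [nu, de, Phi_mul]
  intro k
  exact disj_y hx hy k

theorem y_sub (k : ι) : (y k).1 ∪ (y k).2 ⊆ P k := by
  rw [mem_FS] at hx
  rw [mem_YY] at hy
  exact Finset.union_subset ((hy k).1.1.trans (hx k).1.1) ((hy k).2.1.trans (hx k).2.1.1)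

theorem nu_src_eq : nu (src x y) = Phi (fun k => (x k).1 \ (y k).1) := rfl

end facts

theorem tri_inj1 {P : ι → Finset ℕ} (hP : ∀ k, ∀ p ∈ P k, p.Prime)
    (hdisj : ∀ k l, k ≠ l → Disjoint (P k) (P l)) {J i : ι → ℕ}
    {z w : (_ : ι → Finset ℕ × Finset ℕ) × (ι → Finset ℕ × Finset ℕ)}
    (hz : z ∈ ZZ P J i) (hw : w ∈ ZZ P J i) (h1 : (tri z).1 = (tri w).1)
    (h2 : (tri z).2.1 = (tri w).2.1) : z = w := by
  obtain ⟨x, y⟩ := z
  obtain ⟨x', y'⟩ := w
  rw [mem_ZZ] at hz hw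
  obtain ⟨hx, hy⟩ := hz
  obtain ⟨hx', hy'⟩ := hw
  simp only at hx hy hx' hy'
  simp only [tri] at h1 h2
  rw [nu_mul_de hx hy, nu_mul_de hx' hy'] at h1
  have e1 := Phi_inj hP hdisj (y_sub hx hy) (y_sub hx' hy') h1
  have hx0 := mem_FS.mp hx
  have hx0' := mem_FS.mp hx'
  have hy0 := mem_YY.mp hy
  have hy0' := mem_YY.mp hy'
  have hk : ∀ k, x k = x' k ∧ y k = y' k := by
    intro k
    have e2 : (y k).1 ∪ (y k).2 = (y' k).1 ∪ (y' k).2 := congrFun e1 k
    have e3 := congrFun h2 k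
    simp only [src, Prod.mk.injEq] at e3
    obtain ⟨e4, e5⟩ := e3
    have a2 : (y k).2 = (y' k).2 := by
      ext p
      constructor
      · intro hp
        have hpx : p ∈ (x' k).2 := e5 ▸ (hy0 k).2.1 hp
        have hpu : p ∈ (y' k).1 ∪ (y' k).2 := e2 ▸ Finset.mem_union_right _ hp
        rcases Finset.mem_union.mp hpu with h | h
        · exact absurd hpx (Finset.disjoint_left.mp (hx0' k).2.2 ((hy0' k).1.1 h))
        · exact h
      · intro hp
        have hpx : p ∈ (x k).2 := e5 ▸ (hy0' k).2.1 hp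
        have hpu : p ∈ (y k).1 ∪ (y k).2 := e2 ▸ Finset.mem_union_right _ hp
        rcases Finset.mem_union.mp hpu with h | h
        · exact absurd hpx (Finset.disjoint_left.mp (hx0 k).2.2 ((hy0 k).1.1 h))
        · exact h
    have a1 : (y k).1 = (y' k).1 := by
      have d1 := disj_y hx hy k
      have d2 := disj_y hx' hy' k
      have b1 : (y k).1 = ((y k).1 ∪ (y k).2) \ (y k).2 := by
        rw [Finset.union_sdiff_right, Finset.sdiff_eq_self_of_disjoint d1]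
      have b2 : (y' k).1 = ((y' k).1 ∪ (y' k).2) \ (y' k).2 := by
        rw [Finset.union_sdiff_right, Finset.sdiff_eq_self_of_disjoint d2]
      rw [b1, b2, e2, a2]
    have a3 : (x k).1 = (x' k).1 := by
      rw [← Finset.sdiff_union_of_subset (hy0 k).1.1, e4, a1,
        Finset.sdiff_union_of_subset (hy0' k).1.1]
    exact ⟨Prod.ext a3 e5, Prod.ext a1 a2⟩
  have ex : x = x' := funext fun k => (hk k).1
  have ey : y = y' := funext fun k => (hk k).2
  subst ex
  subst ey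
  rfl

theorem tri_inj2 {P : ι → Finset ℕ} (hP : ∀ k, ∀ p ∈ P k, p.Prime)
    (hdisj : ∀ k l, k ≠ l → Disjoint (P k) (P l)) {J i : ι → ℕ}
    {z w : (_ : ι → Finset ℕ × Finset ℕ) × (ι → Finset ℕ × Finset ℕ)}
    (hz : z ∈ ZZ P J i) (hw : w ∈ ZZ P J i) (h1 : (tri z).1 = (tri w).1)
    (h2 : (tri z).2.2 = (tri w).2.2) : z = w := by
  obtain ⟨x, y⟩ := z
  obtain ⟨x', y'⟩ := w
  rw [mem_ZZ] at hz hw
  obtain ⟨hx, hy⟩ := hz
  obtain ⟨hx', hy'⟩ := hw
  simp only at hx hy hx' hy'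
  simp only [tri] at h1 h2
  rw [nu_mul_de hx hy, nu_mul_de hx' hy'] at h1
  have e1 := Phi_inj hP hdisj (y_sub hx hy) (y_sub hx' hy') h1
  have hx0 := mem_FS.mp hx
  have hx0' := mem_FS.mp hx'
  have hy0 := mem_YY.mp hy
  have hy0' := mem_YY.mp hy'
  have hk : ∀ k, x k = x' k ∧ y k = y' k := by
    intro k
    have e2 : (y k).1 ∪ (y k).2 = (y' k).1 ∪ (y' k).2 := congrFun e1 k
    have e3 := congrFun h2 k
    simp only [tgt, Prod.mk.injEq] at e3
    obtain ⟨e5, e4⟩ := e3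
    have a1 : (y k).1 = (y' k).1 := by
      ext p
      constructor
      · intro hp
        have hpx : p ∈ (x' k).1 := e5 ▸ (hy0 k).1.1 hp
        have hpu : p ∈ (y' k).1 ∪ (y' k).2 := e2 ▸ Finset.mem_union_left _ hp
        rcases Finset.mem_union.mp hpu with h | h
        · exact h
        · exact absurd ((hy0' k).2.1 h) (Finset.disjoint_left.mp (hx0' k).2.2 hpx)
      · intro hp
        have hpx : p ∈ (x k).1 := e5 ▸ (hy0' k).1.1 hp
        have hpu : p ∈ (y k).1 ∪ (y k).2 := e2 ▸ Finset.mem_union_left _ hp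
        rcases Finset.mem_union.mp hpu with h | h
        · exact h
        · exact absurd ((hy0 k).2.1 h) (Finset.disjoint_left.mp (hx0 k).2.2 hpx)
    have a2 : (y k).2 = (y' k).2 := by
      have d1 := disj_y hx hy k
      have d2 := disj_y hx' hy' k
      have b1 : (y k).2 = ((y k).1 ∪ (y k).2) \ (y k).1 := by
        rw [Finset.union_sdiff_left, Finset.sdiff_eq_self_of_disjoint d1.symm]
      have b2 : (y' k).2 = ((y' k).1 ∪ (y' k).2) \ (y' k).1 := by
        rw [Finset.union_sdiff_left, Finset.sdiff_eq_self_of_disjoint d2.symm]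
      rw [b1, b2, e2, a1]
    have a3 : (x k).2 = (x' k).2 := by
      rw [← Finset.sdiff_union_of_subset (hy0 k).2.1, e4, a2,
        Finset.sdiff_union_of_subset (hy0' k).2.1]
    exact ⟨Prod.ext e5 a3, Prod.ext a1 a2⟩
  have ex : x = x' := funext fun k => (hk k).1
  have ey : y = y' := funext fun k => (hk k).2
  subst ex
  subst ey
  rfl

end families

end Pool.Agent.H.MP_3e6494_nt.H15
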